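import Mathlib

open MeasureTheory Filter Topology Set

namespace Pool.Agent.H87.Cookie

/-- Cookie environments. `ω x i` is the probability of a step to the right at the `(i+1)`-st
visit to the site `x` (it is the cookie `ω(x, i+1)` of the problem; cookies are numbered from `0`
here). -/
abbrev Env := ℤ → ℕ → unitInterval

/-- The shift of `ℤ` acting on environments. -/
def shiftEnv (ω : Env) : Env := fun x => ω (x + 1)

/-- (SE): the sequence of cookie stacks is stationary and ergodic under the shift. -/
def SE (P : Measure Env) : Prop := Ergodic shiftEnv P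

/-- (WEL): weak ellipticity. -/
def WEL (P : Measure Env) : Prop :=
  ∀ x : ℤ, 0 < P {ω | ∀ i, 0 < (ω x i : ℝ)} ∧ 0 < P {ω | ∀ i, (ω x i : ℝ) < 1}

/-- (BD): almost surely only the first `M` cookies of each stack can differ from `1/2`. -/
def BD (P : Measure Env) : Prop :=
  ∃ M : ℕ, ∀ᵐ ω ∂P, ∀ x : ℤ, ∀ i : ℕ, M ≤ i → (ω x i : ℝ) = 1 / 2

/-- The expected drift per site `δ`. -/
noncomputable def delta (P : Measure Env) : ℝ := ∫ ω, ∑' i : ℕ, (2 * (ω 0 i : ℝ) - 1) ∂P

/-- The number of times `j < n` with `X j = X n`: the number of visits of the path `X` to its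
present site strictly before time `n`. -/
def earlier (X : ℕ → ℤ) (n : ℕ) : ℕ := ((Finset.range n).filter (fun j => X j = X n)).card

/-- The environment together with the path up to time `n`. -/
def histMap {Ω : Type*} (W : Ω → Env) (X : ℕ → Ω → ℤ) (n : ℕ) (o : Ω) :
    Env × (Fin (n + 1) → ℤ) := (W o, fun i => X i o)

/-- The σ-algebra generated by the environment and the path up to time `n`. -/
abbrev hist {Ω : Type*} (W : Ω → Env) (X : ℕ → Ω → ℤ) (n : ℕ) : MeasurableSpace Ω :=
  MeasurableSpace.comap (histMap W X n) inferInstance

/-- `X` is, under the probability measure `Q`, the excited random walk from `0` in the random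
environment `W` with law `P` (annealed law): it starts at `0`, has steps `±1`, and the conditional
probability of a step to the right, given the environment and the past of the walk, is the cookie
found at the present site, the `i`-th cookie (counted from `0`) being used at the visit that has
exactly `i` earlier visits to the same site before it. -/
structure IsERW (P : Measure Env) {Ω : Type*} [MeasurableSpace Ω] (Q : Measure Ω)
    (W : Ω → Env) (X : ℕ → Ω → ℤ) : Prop where
  prob : IsProbabilityMeasure Q
  meas_env : Measurable W
  meas_walk : ∀ n, Measurable (X n)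
  env_law : Q.map W = P
  start : ∀ᵐ o ∂Q, X 0 o = 0
  step : ∀ᵐ o ∂Q, ∀ n, X (n + 1) o = X n o + 1 ∨ X (n + 1) o = X n o - 1
  cond : ∀ n, Q[({o | X (n + 1) o = X n o + 1}).indicator (fun _ => (1 : ℝ)) | hist W X n]
    =ᵐ[Q] fun o => (W o (X n o) (earlier (fun k => X k o) n) : ℝ)

end Pool.Agent.H87.Cookie
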