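import Mathlib
import Pool.Agent.H87.Cookie.Defs

open MeasureTheory ProbabilityTheory Filter Topology Set
open scoped ENNReal

namespace Pool.Agent.H87.Cookie

section
variable {P : Measure Env} {Ω : Type*} [mΩ : MeasurableSpace Ω] {Q : Measure Ω}
  {W : Ω → Env} {X : ℕ → Ω → ℤ}

lemma measurable_histMap (hW : Measurable W) (hX : ∀ n, Measurable (X n)) (n : ℕ) :
    Measurable (histMap W X n) :=
  hW.prodMk (measurable_pi_lambda _ (fun i => hX i))

lemma hist_le (hW : Measurable W) (hX : ∀ n, Measurable (X n)) (n : ℕ) : hist W X n ≤ mΩ :=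
  (measurable_histMap hW hX n).comap_le

/-- extension of a finite path by zero -/
def extp {n : ℕ} (π : Fin (n + 1) → ℤ) : ℕ → ℤ := fun k => if h : k < n + 1 then π ⟨k, h⟩ else 0

lemma extp_hist {n k : ℕ} (hk : k ≤ n) (o : Ω) : extp (histMap W X n o).2 k = X k o := by
  unfold extp histMap
  rw [dif_pos (by omega)]

lemma earlier_congr {x y : ℕ → ℤ} {n : ℕ} (h : ∀ k ≤ n, x k = y k) : earlier x n = earlier y n := by
  unfold earlier
  congr 1
  apply Finset.filter_congr
  intro j hj
  rw [Finset.mem_range] at hj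
  rw [h j (by omega), h n le_rfl]

/-- the cookie in use as a function of the history -/
noncomputable def gtl (n : ℕ) (p : Env × (Fin (n + 1) → ℤ)) : ℝ :=
  (p.1 (extp p.2 n) (earlier (extp p.2) n) : ℝ)

lemma measurable_gtl (n : ℕ) : Measurable (gtl n) := by
  apply measurable_from_prod_countable_left
  intro π
  have h : Measurable (fun ω : Env => ω (extp π n) (earlier (extp π) n)) :=
    (measurable_pi_apply _).comp (measurable_pi_apply _)
  exact measurable_subtype_coe.comp h

lemma gtl_nonneg (n : ℕ) (p : Env × (Fin (n + 1) → ℤ)) : 0 ≤ gtl n p := (p.1 _ _).2.1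

lemma gtl_le (n : ℕ) (p : Env × (Fin (n + 1) → ℤ)) : gtl n p ≤ 1 := (p.1 _ _).2.2

lemma gtl_hist (n : ℕ) (o : Ω) :
    gtl n (histMap W X n o) = (W o (X n o) (earlier (fun k => X k o) n) : ℝ) := by
  unfold gtl
  rw [extp_hist le_rfl, earlier_congr (y := fun k => X k o) (fun k hk => extp_hist hk o)]
  rfl

/-- the event of a step to the right -/
def Rt (X : ℕ → Ω → ℤ) (n : ℕ) : Set Ω := {o | X (n + 1) o = X n o + 1}

lemma measurableSet_Rt (hX : ∀ n, Measurable (X n)) (n : ℕ) : MeasurableSet (Rt X n) :=
  measurableSet_eq_fun (hX (n + 1)) ((hX n).add_const 1)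

/-- probability of a step to the right on an event of the past -/
lemma IsERW.step_formula (h : IsERW P Q W X) (n : ℕ) {B : Set (Env × (Fin (n + 1) → ℤ))}
    (hB : MeasurableSet B) :
    Q.real (histMap W X n ⁻¹' B ∩ Rt X n) = ∫ p in B, gtl n p ∂(Q.map (histMap W X n)) := by
  have := h.prob
  have hH := measurable_histMap h.meas_env h.meas_walk n
  have hRt := measurableSet_Rt h.meas_walk n
  have hle := hist_le h.meas_env h.meas_walk n
  have hs : MeasurableSet[hist W X n] (histMap W X n ⁻¹' B) := ⟨B, hB, rfl⟩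
  have hint : Integrable ((Rt X n).indicator (fun _ => (1 : ℝ))) Q :=
    (integrable_const 1).indicator hRt
  have h1 := setIntegral_condExp hle hint hs
  have h2 : ∫ o in histMap W X n ⁻¹' B, (Q[(Rt X n).indicator (fun _ => (1 : ℝ)) | hist W X n]) o ∂Q
      = ∫ o in histMap W X n ⁻¹' B, gtl n (histMap W X n o) ∂Q := by
    apply setIntegral_congr_ae (hH hB)
    filter_upwards [h.cond n] with o ho _
    rw [gtl_hist]
    exact ho
  rw [h2, integral_indicator hRt, Measure.restrict_restrict hRt] at h1
  rw [setIntegral_map hB (measurable_gtl n).aestronglyMeasurable hH.aemeasurable, h1]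
  simp only [integral_const, smul_eq_mul, mul_one, MeasurableSet.univ, measureReal_restrict_apply,
    univ_inter]
  rw [inter_comm]

/-- extension of a history by one step -/
def mv {n : ℕ} (e : ℤ) (p : Env × (Fin (n + 1) → ℤ)) : Env × (Fin (n + 1 + 1) → ℤ) :=
  (p.1, fun i => if h : (i : ℕ) < n + 1 then p.2 ⟨i, h⟩ else p.2 (Fin.last n) + e)

lemma measurable_mv {n : ℕ} (e : ℤ) : Measurable (mv (n := n) e) := by
  apply measurable_fst.prodMk
  apply measurable_pi_lambda
  intro i
  by_cases h : (i : ℕ) < n + 1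
  · simp only [h, dif_pos]
    exact (measurable_pi_apply _).comp measurable_snd
  · simp only [h, dif_neg, not_false_iff]
    have h2 : Measurable (fun p : Env × (Fin (n + 1) → ℤ) => p.2 (Fin.last n)) :=
      (measurable_pi_apply _).comp measurable_snd
    exact h2.add_const e

lemma histMap_succ {n : ℕ} {e : ℤ} {o : Ω} (h : X (n + 1) o = X n o + e) :
    histMap W X (n + 1) o = mv e (histMap W X n o) := by
  unfold histMap mv
  congr 1
  funext i
  by_cases hi : (i : ℕ) < n + 1
  · rw [dif_pos hi]
  · rw [dif_neg hi]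
    have h1 : (i : ℕ) = n + 1 := by omega
    rw [h1, h]
    rfl

/-- the law of the next history in terms of the law of the present one -/
lemma IsERW.next_law (h : IsERW P Q W X) (n : ℕ) {E : Set (Env × (Fin (n + 1 + 1) → ℤ))}
    (hE : MeasurableSet E) :
    (Q.map (histMap W X (n + 1))).real E
      = (∫ p in mv 1 ⁻¹' E, gtl n p ∂(Q.map (histMap W X n)))
        + ((Q.map (histMap W X n)).real (mv (-1) ⁻¹' E)
          - ∫ p in mv (-1) ⁻¹' E, gtl n p ∂(Q.map (histMap W X n))) := by
  have := h.prob
  have hH := measurable_histMap h.meas_env h.meas_walk n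
  have hH' := measurable_histMap h.meas_env h.meas_walk (n + 1)
  have hRt := measurableSet_Rt h.meas_walk n
  have hu : MeasurableSet (mv (n := n) 1 ⁻¹' E) := measurable_mv 1 hE
  have hd : MeasurableSet (mv (n := n) (-1) ⁻¹' E) := measurable_mv (-1) hE
  rw [← h.step_formula n hu, ← h.step_formula n hd]
  have e1 : (Q.map (histMap W X (n + 1))).real E = Q.real (histMap W X (n + 1) ⁻¹' E) := by
    rw [measureReal_def, Measure.map_apply hH' hE]
    rfl
  have e2 : (Q.map (histMap W X n)).real (mv (-1) ⁻¹' E)
      = Q.real (histMap W X n ⁻¹' (mv (-1) ⁻¹' E)) := by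
    rw [measureReal_def, Measure.map_apply hH hd]
    rfl
  rw [e1, e2]
  have e3 : Q.real (histMap W X (n + 1) ⁻¹' E)
      = Q.real (histMap W X (n + 1) ⁻¹' E ∩ Rt X n)
        + Q.real (histMap W X (n + 1) ⁻¹' E \ Rt X n) :=
    (measureReal_inter_add_sdiff hRt).symm
  have e4 : Q.real (histMap W X n ⁻¹' (mv (-1) ⁻¹' E))
      = Q.real (histMap W X n ⁻¹' (mv (-1) ⁻¹' E) ∩ Rt X n)
        + Q.real (histMap W X n ⁻¹' (mv (-1) ⁻¹' E) \ Rt X n) :=
    (measureReal_inter_add_sdiff hRt).symm
  have e5 : histMap W X (n + 1) ⁻¹' E ∩ Rt X n = histMap W X n ⁻¹' (mv 1 ⁻¹' E) ∩ Rt X n := by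
    ext o
    simp only [mem_inter_iff, mem_preimage]
    constructor
    · rintro ⟨h1, h2⟩
      rw [histMap_succ (show X (n + 1) o = X n o + 1 from h2)] at h1
      exact ⟨h1, h2⟩
    · rintro ⟨h1, h2⟩
      rw [← histMap_succ (show X (n + 1) o = X n o + 1 from h2)] at h1
      exact ⟨h1, h2⟩
  have e6 : Q.real (histMap W X (n + 1) ⁻¹' E \ Rt X n)
      = Q.real (histMap W X n ⁻¹' (mv (-1) ⁻¹' E) \ Rt X n) := by
    apply measureReal_congr
    filter_upwards [h.step] with o ho
    apply propext
    show (o ∈ histMap W X (n + 1) ⁻¹' E ∧ o ∉ Rt X n)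
      ↔ (o ∈ histMap W X n ⁻¹' (mv (-1) ⁻¹' E) ∧ o ∉ Rt X n)
    constructor
    · rintro ⟨h1, h2⟩
      rcases ho n with h3 | h3
      · exact absurd h3 h2
      · rw [mem_preimage, histMap_succ (show X (n + 1) o = X n o + -1 by omega)] at h1
        exact ⟨h1, h2⟩
    · rintro ⟨h1, h2⟩
      rcases ho n with h3 | h3
      · exact absurd h3 h2
      · rw [mem_preimage, mem_preimage,
          ← histMap_succ (show X (n + 1) o = X n o + -1 by omega)] at h1
        exact ⟨h1, h2⟩
  rw [e3, e4, e5, e6]
  ring

lemma IsERW.law_zero (h : IsERW P Q W X) :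
    Q.map (histMap W X 0) = P.map (fun ω => (ω, fun _ : Fin 1 => (0:ℤ))) := by
  have hm : Measurable (fun ω : Env => (ω, fun _ : Fin 1 => (0:ℤ))) :=
    measurable_id.prodMk measurable_const
  rw [← h.env_law, Measure.map_map hm h.meas_env]
  apply Measure.map_congr
  filter_upwards [h.start] with o ho
  unfold histMap
  simp only [Function.comp]
  congr 1
  funext i
  have : (i : ℕ) = 0 := by omega
  rw [this, ho]

end

/-- two excited random walks with the same environment law have the same histories in law -/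
lemma hist_law_unique {P : Measure Env} {Ω Ω' : Type*} [MeasurableSpace Ω] [MeasurableSpace Ω']
    {Q : Measure Ω} {Q' : Measure Ω'} {W : Ω → Env} {W' : Ω' → Env} {X : ℕ → Ω → ℤ}
    {X' : ℕ → Ω' → ℤ} (h : IsERW P Q W X) (h' : IsERW P Q' W' X') (n : ℕ) :
    Q.map (histMap W X n) = Q'.map (histMap W' X' n) := by
  have := h.prob
  have := h'.prob
  induction n with
  | zero =>
    rw [h.law_zero, h'.law_zero]
  | succ n ih =>
    have : IsProbabilityMeasure (Q.map (histMap W X (n + 1))) :=
      Measure.isProbabilityMeasure_map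
        (measurable_histMap h.meas_env h.meas_walk (n + 1)).aemeasurable
    have : IsProbabilityMeasure (Q'.map (histMap W' X' (n + 1))) :=
      Measure.isProbabilityMeasure_map
        (measurable_histMap h'.meas_env h'.meas_walk (n + 1)).aemeasurable
    apply Measure.ext
    intro E hE
    have e1 := h.next_law n hE
    have e2 := h'.next_law n hE
    rw [ih] at e1
    rw [← e2] at e1
    rw [measureReal_def, measureReal_def] at e1
    exact (ENNReal.toReal_eq_toReal_iff' (measure_ne_top _ _) (measure_ne_top _ _)).mp e1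

/-- two excited random walks with the same environment law have the same path law -/
theorem path_law_unique {P : Measure Env} {Ω Ω' : Type*} [MeasurableSpace Ω] [MeasurableSpace Ω']
    {Q : Measure Ω} {Q' : Measure Ω'} {W : Ω → Env} {W' : Ω' → Env} {X : ℕ → Ω → ℤ}
    {X' : ℕ → Ω' → ℤ} (h : IsERW P Q W X) (h' : IsERW P Q' W' X') :
    Q.map (fun o k => X k o) = Q'.map (fun o k => X' k o) := by
  have := h.prob
  have := h'.prob
  have hm : Measurable (fun o k => X k o) := measurable_pi_lambda _ h.meas_walk
  have hm' : Measurable (fun o k => X' k o) := measurable_pi_lambda _ h'.meas_walk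
  have : IsProbabilityMeasure (Q.map (fun o k => X k o)) :=
    Measure.isProbabilityMeasure_map hm.aemeasurable
  have : IsProbabilityMeasure (Q'.map (fun o k => X' k o)) :=
    Measure.isProbabilityMeasure_map hm'.aemeasurable
  have : ∀ I : Finset ℕ, IsFiniteMeasure ((Q'.map (fun o k => X' k o)).map I.restrict) :=
    fun I => inferInstance
  apply IsProjectiveLimit.unique (P := fun I : Finset ℕ => (Q'.map (fun o k => X' k o)).map I.restrict)
  · intro I
    obtain ⟨n, hn⟩ : ∃ n, ∀ i ∈ I, i < n + 1 := ⟨I.sup id, fun i hi =>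
      Nat.lt_succ_of_le (Finset.le_sup (f := id) hi)⟩
    set r : Env × (Fin (n + 1) → ℤ) → ((i : I) → ℤ) := fun p i => p.2 ⟨i.1, hn i.1 i.2⟩ with hr
    have hrm : Measurable r := by
      apply measurable_pi_lambda
      intro i
      exact (measurable_pi_apply _).comp measurable_snd
    show _ = (Q'.map (fun o k => X' k o)).map I.restrict
    have e1 : (Q.map (fun o k => X k o)).map (Finset.restrict I)
        = (Q.map (histMap W X n)).map r := by
      rw [Measure.map_map (Finset.measurable_restrict I) hm,
        Measure.map_map hrm (measurable_histMap h.meas_env h.meas_walk n)]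
      rfl
    have e2 : (Q'.map (fun o k => X' k o)).map (Finset.restrict I)
        = (Q'.map (histMap W' X' n)).map r := by
      rw [Measure.map_map (Finset.measurable_restrict I) hm',
        Measure.map_map hrm (measurable_histMap h'.meas_env h'.meas_walk n)]
      rfl
    rw [e1, e2, hist_law_unique h h' n]
  · intro I
    rfl

end Pool.Agent.H87.Cookie
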