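import Mathlib
import Pool.Agent.H87.Cookie.Erw

open MeasureTheory ProbabilityTheory Filter Topology Set
open scoped ENNReal

namespace Pool.Agent.H87.Cookie

/-- the stopped index -/
lemma stop_index (x : ℕ → ℤ) (L K : ℤ) (N : ℕ) :
    ∃ m ≤ N, (∀ f : ℕ → ℝ, ∑ n ∈ Finset.range N,
        (if ∀ j ≤ n, L < x j ∧ x j < K then f n else 0) = ∑ n ∈ Finset.range m, f n)
      ∧ (∀ j < m, L < x j ∧ x j < K) ∧ (m = N ∨ ¬ (L < x m ∧ x m < K)) := by
  induction N with
  | zero => exact ⟨0, le_rfl, fun f => by simp, fun j hj => by omega, Or.inl rfl⟩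
  | succ N ih =>
    obtain ⟨m, hm, h1, h2, h3⟩ := ih
    by_cases h4 : L < x m ∧ x m < K
    · have hmN : m = N := by
        rcases h3 with h3 | h3
        · exact h3
        · exact absurd h4 h3
      subst hmN
      refine ⟨m + 1, le_rfl, ?_, ?_, Or.inl rfl⟩
      · intro f
        rw [Finset.sum_range_succ, Finset.sum_range_succ, h1, if_pos]
        intro j hj
        rcases Nat.lt_or_eq_of_le hj with hj | hj
        · exact h2 j hj
        · rw [hj]; exact h4
      · intro j hj
        rcases Nat.lt_or_eq_of_le (Nat.lt_succ_iff.mp hj) with hj | hj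
        · exact h2 j hj
        · rw [hj]; exact h4
    · refine ⟨m, by omega, ?_, h2, Or.inr h4⟩
      intro f
      rw [Finset.sum_range_succ, h1, if_neg, add_zero]
      intro h5
      exact h4 (h5 m hm)

/-- visits of a path before time `m` -/
def vis (x : ℕ → ℤ) (m : ℕ) (y : ℤ) : ℕ := ((Finset.range m).filter (fun j => x j = y)).card

lemma vis_succ (x : ℕ → ℤ) (m : ℕ) (y : ℤ) :
    vis x (m + 1) y = vis x m y + if y = x m then 1 else 0 := by
  unfold vis
  rw [Finset.range_add_one, Finset.filter_insert]
  by_cases h : y = x m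
  · rw [if_pos h, if_pos h.symm, Finset.card_insert_of_notMem (by simp)]
  · rw [if_neg h, if_neg (fun h' => h h'.symm), add_zero]

lemma drift_sum (x : ℕ → ℤ) (d : ℤ → ℕ → ℝ) (F : Finset ℤ) (m : ℕ) (hF : ∀ n < m, x n ∈ F) :
    ∑ n ∈ Finset.range m, d (x n) (earlier x n)
      = ∑ y ∈ F, ∑ i ∈ Finset.range (vis x m y), d y i := by
  induction m with
  | zero => simp [vis]
  | succ m ih =>
    rw [Finset.sum_range_succ, ih (fun n hn => hF n (by omega))]
    have h1 : ∀ y ∈ F, ∑ i ∈ Finset.range (vis x (m + 1) y), d y i
        = ∑ i ∈ Finset.range (vis x m y), d y i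
          + if y = x m then d (x m) (earlier x m) else 0 := by
      intro y _
      rw [vis_succ]
      by_cases h : y = x m
      · rw [if_pos h, if_pos h, Finset.sum_range_succ]
        subst h
        rfl
      · rw [if_neg h, if_neg h, add_zero, add_zero]
    rw [Finset.sum_congr rfl h1, Finset.sum_add_distrib, Finset.sum_ite_eq' F (x m),
      if_pos (hF m (by omega))]

lemma drift_sum_nonneg (x : ℕ → ℤ) (d : ℤ → ℕ → ℝ)
    (hd : ∀ y k, 0 ≤ ∑ i ∈ Finset.range k, d y i) (m : ℕ) :
    0 ≤ ∑ n ∈ Finset.range m, d (x n) (earlier x n) := by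
  rw [drift_sum x d ((Finset.range m).image x) m
    (fun n hn => Finset.mem_image_of_mem x (Finset.mem_range.mpr hn))]
  exact Finset.sum_nonneg fun y _ => hd y _

section
variable {P : Measure Env} {Ω : Type*} [mΩ : MeasurableSpace Ω] {Q : Measure Ω}
  {W : Ω → Env} {X : ℕ → Ω → ℤ}

/-- the walk has stayed in `(L, K)` up to time `n` -/
def Aev (X : ℕ → Ω → ℤ) (L K : ℤ) (n : ℕ) : Set Ω := {o | ∀ j ≤ n, L < X j o ∧ X j o < K}

/-- the walk has reached `(-∞, L]` by time `N`, before `[K, ∞)` -/
def Eev (X : ℕ → Ω → ℤ) (L K : ℤ) (N : ℕ) : Set Ω :=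
  {o | ∃ m ≤ N, X m o ≤ L ∧ ∀ j ≤ m, X j o < K}

lemma measurableSet_Aev (hX : ∀ n, Measurable (X n)) (L K : ℤ) (n : ℕ) :
    MeasurableSet (Aev X L K n) := by
  have : Aev X L K n = ⋂ j, ⋂ (_ : j ≤ n), ({o | L < X j o} ∩ {o | X j o < K}) := by
    ext o
    simp [Aev]
  rw [this]
  exact MeasurableSet.iInter fun j => MeasurableSet.iInter fun _ =>
    (measurableSet_lt measurable_const (hX j)).inter (measurableSet_lt (hX j) measurable_const)

lemma measurableSet_Eev (hX : ∀ n, Measurable (X n)) (L K : ℤ) (N : ℕ) :
    MeasurableSet (Eev X L K N) := by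
  have : Eev X L K N = ⋃ m, ⋃ (_ : m ≤ N),
      ({o | X m o ≤ L} ∩ ⋂ j, ⋂ (_ : j ≤ m), {o | X j o < K}) := by
    ext o
    simp only [Eev, mem_ofPred_eq, mem_iUnion, mem_inter_iff, mem_iInter, exists_prop]
  rw [this]
  exact MeasurableSet.iUnion fun m => MeasurableSet.iUnion fun _ =>
    (measurableSet_le (hX m) measurable_const).inter (MeasurableSet.iInter fun j =>
      MeasurableSet.iInter fun _ => measurableSet_lt (hX j) measurable_const)

lemma IsERW.cookie_integral (h : IsERW P Q W X) (L K : ℤ) (n : ℕ) :
    ∫ o in Aev X L K n, (W o (X n o) (earlier (fun k => X k o) n) : ℝ) ∂Q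
      = Q.real (Aev X L K n ∩ Rt X n) := by
  have := h.prob
  have hH := measurable_histMap h.meas_env h.meas_walk n
  set B : Set (Env × (Fin (n + 1) → ℤ)) := {p | ∀ j ≤ n, L < extp p.2 j ∧ extp p.2 j < K} with hB
  have hBm : MeasurableSet B := by
    have h1 : ∀ j, Measurable (fun p : Env × (Fin (n + 1) → ℤ) => extp p.2 j) := by
      intro j
      unfold extp
      by_cases hj : j < n + 1
      · simp only [hj, dif_pos]
        exact (measurable_pi_apply _).comp measurable_snd
      · simp only [hj, dif_neg, not_false_iff]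
        exact measurable_const
    have : B = ⋂ j, ⋂ (_ : j ≤ n), ({p | L < extp p.2 j} ∩ {p | extp p.2 j < K}) := by
      ext o
      simp [hB]
    rw [this]
    exact MeasurableSet.iInter fun j => MeasurableSet.iInter fun _ =>
      (measurableSet_lt measurable_const (h1 j)).inter (measurableSet_lt (h1 j) measurable_const)
  have hA : Aev X L K n = histMap W X n ⁻¹' B := by
    ext o
    simp only [Aev, hB, mem_ofPred_eq, mem_preimage]
    constructor
    · intro h1 j hj
      rw [extp_hist hj]
      exact h1 j hj
    · intro h1 j hj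
      have := h1 j hj
      rwa [extp_hist hj] at this
  have h2 := h.step_formula n hBm
  rw [setIntegral_map hBm (measurable_gtl n).aestronglyMeasurable hH.aemeasurable] at h2
  rw [hA, h2]
  apply setIntegral_congr_fun (hH hBm)
  intro o _
  simp only
  rw [gtl_hist]

/-- gambler's ruin bound for walks whose consumed drift is nonnegative -/
theorem IsERW.exit_bound (h : IsERW P Q W X)
    (hpre : ∀ᵐ ω ∂P, ∀ (x : ℤ) (k : ℕ), 0 ≤ ∑ i ∈ Finset.range k, (2 * (ω x i : ℝ) - 1))
    {L K : ℤ} (hL : L < 0) (hK : 0 < K) (N : ℕ) :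
    ((K : ℝ) - L) * Q.real (Eev X L K N) ≤ K := by
  classical
  have := h.prob
  have hXm := h.meas_walk
  set g : ℕ → Ω → ℝ := fun n o => (W o (X n o) (earlier (fun k => X k o) n) : ℝ) with hg
  have hgm : ∀ n, Measurable (g n) := by
    intro n
    have h1 : g n = fun o => gtl n (histMap W X n o) := by
      funext o
      rw [gtl_hist]
    rw [h1]
    exact (measurable_gtl n).comp (measurable_histMap h.meas_env hXm n)
  have hA := measurableSet_Aev hXm L K
  -- per-step identity
  have hint1 : ∀ n, Integrable ((Aev X L K n).indicator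
      (fun o => ((X (n + 1) o : ℝ) - X n o))) Q := by
    intro n
    apply Integrable.indicator _ (hA n)
    have hm : Measurable (fun o => ((X (n + 1) o : ℝ) - X n o)) :=
      (measurable_from_top.comp (hXm (n + 1))).sub (measurable_from_top.comp (hXm n))
    apply Integrable.of_bound (C := 1) hm.aestronglyMeasurable
    filter_upwards [h.step] with o ho
    rcases ho n with h1 | h1 <;> rw [h1] <;> push_cast <;> norm_num
  have hgint : ∀ n, Integrable (g n) Q := by
    intro n
    apply Integrable.of_bound (C := 1) (hgm n).aestronglyMeasurable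
    filter_upwards with o
    rw [Real.norm_of_nonneg (W o _ _).2.1]
    exact (W o _ _).2.2
  have hint2 : ∀ n, Integrable ((Aev X L K n).indicator (fun o => 2 * g n o - 1)) Q := by
    intro n
    apply Integrable.indicator _ (hA n)
    exact ((hgint n).const_mul 2).sub (integrable_const 1)
  have hstep : ∀ n, ∫ o, (Aev X L K n).indicator (fun o => ((X (n + 1) o : ℝ) - X n o)) o ∂Q
      = ∫ o, (Aev X L K n).indicator (fun o => 2 * g n o - 1) o ∂Q := by
    intro n
    rw [integral_indicator (hA n), integral_indicator (hA n)]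
    have hRt := measurableSet_Rt hXm n
    have e1 : ∫ o in Aev X L K n, ((X (n + 1) o : ℝ) - X n o) ∂Q
        = ∫ o in Aev X L K n, (2 * (Rt X n).indicator (fun _ => (1:ℝ)) o - 1) ∂Q := by
      apply setIntegral_congr_ae (hA n)
      filter_upwards [h.step] with o ho _
      by_cases hr : o ∈ Rt X n
      · rw [indicator_of_mem hr, show X (n + 1) o = X n o + 1 from hr]
        push_cast
        ring
      · rw [indicator_of_notMem hr]
        rcases ho n with h1 | h1
        · exact absurd h1 hr
        · rw [h1]
          push_cast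
          ring
    rw [e1, integral_sub, integral_sub, integral_const_mul, integral_const_mul,
      h.cookie_integral L K n, integral_indicator hRt, Measure.restrict_restrict hRt]
    · congr 2
      simp only [integral_const, smul_eq_mul, mul_one, MeasurableSet.univ,
        measureReal_restrict_apply, univ_inter]
      rw [inter_comm]
    · exact ((hgint n).const_mul 2).integrableOn
    · exact integrable_const _
    · exact (((integrable_const (1:ℝ)).indicator hRt).const_mul 2).integrableOn
    · exact integrable_const _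
  -- sums
  have hsum : ∫ o, ∑ n ∈ Finset.range N,
        (Aev X L K n).indicator (fun o => ((X (n + 1) o : ℝ) - X n o)) o ∂Q
      = ∫ o, ∑ n ∈ Finset.range N, (Aev X L K n).indicator (fun o => 2 * g n o - 1) o ∂Q := by
    rw [integral_finsetSum _ (fun n _ => hint1 n), integral_finsetSum _ (fun n _ => hint2 n)]
    exact Finset.sum_congr rfl fun n _ => hstep n
  have hpre' : ∀ᵐ o ∂Q, ∀ (x : ℤ) (k : ℕ), 0 ≤ ∑ i ∈ Finset.range k, (2 * (W o x i : ℝ) - 1) := by
    rw [← h.env_law] at hpre
    exact ae_of_ae_map h.meas_env.aemeasurable hpre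
  have hind : ∀ (f : ℕ → Ω → ℝ) (o : Ω), ∑ n ∈ Finset.range N, (Aev X L K n).indicator (f n) o
      = ∑ n ∈ Finset.range N, (if ∀ j ≤ n, L < X j o ∧ X j o < K then f n o else 0) := by
    intro f o
    apply Finset.sum_congr rfl
    intro n _
    by_cases h1 : o ∈ Aev X L K n
    · rw [indicator_of_mem h1, if_pos (show ∀ j ≤ n, L < X j o ∧ X j o < K from h1)]
    · rw [indicator_of_notMem h1, if_neg (show ¬ ∀ j ≤ n, L < X j o ∧ X j o < K from h1)]
  have hnn : 0 ≤ ∫ o, ∑ n ∈ Finset.range N, (Aev X L K n).indicator (fun o => 2 * g n o - 1) o ∂Q := by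
    apply integral_nonneg_of_ae
    filter_upwards [hpre'] with o ho
    obtain ⟨m, hm, h1, _, _⟩ := stop_index (fun k => X k o) L K N
    simp only [Pi.zero_apply]
    rw [hind (fun n o => 2 * g n o - 1) o, h1 (fun n => 2 * g n o - 1)]
    exact drift_sum_nonneg (fun k => X k o) (fun y i => 2 * (W o y i : ℝ) - 1) ho m
  have hup : ∫ o, ∑ n ∈ Finset.range N,
        (Aev X L K n).indicator (fun o => ((X (n + 1) o : ℝ) - X n o)) o ∂Q
      ≤ ∫ o, ((K : ℝ) - (Eev X L K N).indicator (fun _ => (K : ℝ) - L) o) ∂Q := by
    apply integral_mono_ae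
    · exact integrable_finsetSum _ (fun n _ => hint1 n)
    · exact (integrable_const _).sub ((integrable_const _).indicator (measurableSet_Eev hXm L K N))
    · filter_upwards [h.step, h.start] with o ho ho0
      obtain ⟨m, hm, h1, h2, h3⟩ := stop_index (fun k => X k o) L K N
      rw [hind (fun n o => ((X (n + 1) o : ℝ) - X n o)) o,
        h1 (fun n => ((X (n + 1) o : ℝ) - X n o)), Finset.sum_range_sub (fun n => (X n o : ℝ)), ho0]
      have hXK : X m o ≤ K := by
        cases m with
        | zero => omega
        | succ m =>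
          have := h2 m (by omega)
          rcases ho m with h4 | h4 <;> omega
      by_cases hE : o ∈ Eev X L K N
      · rw [indicator_of_mem hE]
        obtain ⟨m', hm', h5, h6⟩ := hE
        have hmm : m ≤ m' := by
          by_contra hlt
          push Not at hlt
          have := h2 m' hlt
          omega
        have hXL : X m o ≤ L := by
          rcases h3 with h3 | h3
          · have : m = m' := by omega
            rw [this]; exact h5
          · have := h6 m hmm
            by_contra h7
            push Not at h7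
            exact h3 ⟨h7, this⟩
        have : (X m o : ℝ) ≤ L := by exact_mod_cast hXL
        push_cast
        linarith
      · rw [indicator_of_notMem hE]
        have : (X m o : ℝ) ≤ K := by exact_mod_cast hXK
        push_cast
        linarith
  have hval : ∫ o, ((K : ℝ) - (Eev X L K N).indicator (fun _ => (K : ℝ) - L) o) ∂Q
      = K - Q.real (Eev X L K N) * (K - L) := by
    rw [integral_sub (integrable_const _)
      ((integrable_const _).indicator (measurableSet_Eev hXm L K N)),
      integral_indicator (measurableSet_Eev hXm L K N), setIntegral_const, integral_const]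
    simp
  rw [hsum] at hup
  rw [hval] at hup
  linarith

end

end Pool.Agent.H87.Cookie
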