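import Mathlib

open MeasureTheory ProbabilityTheory Filter Topology Set
open scoped ENNReal

namespace Pool.Agent.H87.Cookie

/-! ### counting successes -/

/-- number of successes among the first `n` coins -/
def cnt (c : ℕ → Bool) (n : ℕ) : ℕ := ∑ i ∈ Finset.range n, if c i = true then 1 else 0

lemma cnt_zero (c : ℕ → Bool) : cnt c 0 = 0 := by simp [cnt]

lemma cnt_succ (c : ℕ → Bool) (n : ℕ) : cnt c (n + 1) = cnt c n + if c n = true then 1 else 0 := by
  unfold cnt
  rw [Finset.sum_range_succ]

lemma cnt_succ' (c : ℕ → Bool) (n : ℕ) :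
    cnt c (n + 1) = (if c 0 = true then 1 else 0) + cnt (fun i => c (i + 1)) n := by
  unfold cnt
  rw [Finset.sum_range_succ', add_comm]

lemma cnt_le (c : ℕ → Bool) (n : ℕ) : cnt c n ≤ n := by
  induction n with
  | zero => simp [cnt_zero]
  | succ n ih =>
    rw [cnt_succ]
    split_ifs <;> omega

lemma cnt_mono (c : ℕ → Bool) : Monotone (cnt c) := by
  apply monotone_nat_of_le_succ
  intro n
  rw [cnt_succ]
  exact Nat.le_add_right _ _

/-- infinitely many successes -/
def Infy (c : ℕ → Bool) : Prop := ∀ m, ∃ n, m ≤ cnt c n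

lemma Infy.tail {c : ℕ → Bool} (h : Infy c) : Infy (fun i => c (i + 1)) := by
  intro m
  obtain ⟨n, hn⟩ := h (m + 1)
  refine ⟨n, ?_⟩
  have h1 := cnt_mono c (Nat.le_succ n)
  rw [cnt_succ'] at h1
  split_ifs at h1 <;> omega

/-- number of coins needed for `m` successes -/
noncomputable def tau (c : ℕ → Bool) (m : ℕ) : ℕ := sInf {n | m ≤ cnt c n}

/-- number of failures before the `m`-th success -/
noncomputable def FF (c : ℕ → Bool) (m : ℕ) : ℕ := tau c m - m

lemma le_tau {c : ℕ → Bool} (h : Infy c) (m : ℕ) : m ≤ tau c m := by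
  have h1 : tau c m ∈ {n | m ≤ cnt c n} := Nat.sInf_mem (h m)
  exact (show m ≤ cnt c (tau c m) from h1).trans (cnt_le c _)

lemma tau_eq {c : ℕ → Bool} {m V : ℕ} (hV : 1 ≤ V) (h1 : cnt c V = m) (h2 : c (V - 1) = true) :
    tau c m = V := by
  apply le_antisymm
  · exact Nat.sInf_le h1.ge
  · apply le_csInf ⟨V, h1.ge⟩
    intro n hn
    by_contra hlt
    push Not at hlt
    have h3 : cnt c n ≤ cnt c (V - 1) := cnt_mono c (by omega)
    have h4 := cnt_succ c (V - 1)
    rw [if_pos h2, Nat.sub_add_cancel hV, h1] at h4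
    have h5 : m ≤ cnt c n := hn
    omega

lemma FF_eq {c : ℕ → Bool} {m V : ℕ} (hV : 1 ≤ V) (h1 : cnt c V = m) (h2 : c (V - 1) = true) :
    FF c m = V - m := by
  unfold FF
  rw [tau_eq hV h1 h2]

lemma tau_zero (c : ℕ → Bool) : tau c 0 = 0 := by
  unfold tau
  exact Nat.le_zero.mp (Nat.sInf_le (Nat.zero_le _))

lemma FF_zero (c : ℕ → Bool) : FF c 0 = 0 := by
  unfold FF; rw [tau_zero]

lemma tau_head {c : ℕ → Bool} (h : Infy c) {m : ℕ} (hm : 1 ≤ m) :
    tau c m = 1 + tau (fun i => c (i + 1)) (m - if c 0 = true then 1 else 0) := by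
  set c' : ℕ → Bool := fun i => c (i + 1) with hc'
  set k := m - if c 0 = true then 1 else 0 with hk
  have hn : ({n | k ≤ cnt c' n} : Set ℕ).Nonempty := h.tail k
  have key : ∀ n, m ≤ cnt c (n + 1) ↔ k ≤ cnt c' n := by
    intro n
    rw [cnt_succ']
    rw [← hc', hk]
    split_ifs <;> omega
  apply le_antisymm
  · apply Nat.sInf_le
    have h1 : tau c' k ∈ {n | k ≤ cnt c' n} := Nat.sInf_mem hn
    show m ≤ cnt c (1 + tau c' k)
    rw [add_comm]
    exact (key _).mpr h1
  · apply le_csInf (h m)
    intro n hn'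
    have hn1 : m ≤ cnt c n := hn'
    cases n with
    | zero =>
      rw [cnt_zero] at hn1
      omega
    | succ n =>
      have h2 : tau c' k ≤ n := Nat.sInf_le ((key n).mp hn1)
      omega

lemma FF_head_true {c : ℕ → Bool} (h : Infy c) {m : ℕ} (hm : 1 ≤ m) (h0 : c 0 = true) :
    FF c m = FF (fun i => c (i + 1)) (m - 1) := by
  unfold FF
  rw [tau_head h hm, if_pos h0]
  omega

lemma FF_head_false {c : ℕ → Bool} (h : Infy c) {m : ℕ} (hm : 1 ≤ m) (h0 : c 0 = false) :
    FF c m = FF (fun i => c (i + 1)) m + 1 := by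
  unfold FF
  rw [tau_head h hm]
  have h1 : ¬ (c 0 = true) := by simp [h0]
  rw [if_neg h1]
  have := le_tau h.tail m
  simp only [Nat.sub_zero]
  omega

/-- if the first coin is a success there is no failure before the first success -/
lemma FF_one_of_true {c : ℕ → Bool} (h0 : c 0 = true) : FF c 1 = 0 := by
  have h1 : cnt c 1 = 1 := by
    rw [cnt_succ, cnt_zero, if_pos h0]
  rw [FF_eq le_rfl h1 (by simpa using h0)]

/-! ### measurability -/

lemma measurable_cnt (n : ℕ) : Measurable (fun c : ℕ → Bool => cnt c n) := by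
  unfold cnt
  apply Finset.measurable_fun_sum
  intro i _
  apply Measurable.ite _ measurable_const measurable_const
  exact measurableSet_eq_fun (measurable_pi_apply i) measurable_const

lemma measurable_tau (m : ℕ) : Measurable (fun c : ℕ → Bool => tau c m) := by
  apply measurable_of_Iic
  intro n
  have h : (fun c : ℕ → Bool => tau c m) ⁻¹' Iic n
      = {c | m ≤ cnt c n} ∪ ⋂ k, {c | cnt c k < m} := by
    ext c
    simp only [mem_preimage, mem_Iic, mem_union, mem_ofPred_eq, mem_iInter]
    constructor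
    · intro h
      by_cases hne : ({n | m ≤ cnt c n} : Set ℕ).Nonempty
      · left
        have h1 : tau c m ∈ {n | m ≤ cnt c n} := Nat.sInf_mem hne
        exact (show m ≤ cnt c (tau c m) from h1).trans (cnt_mono c h)
      · right
        intro k
        by_contra hk
        exact hne ⟨k, not_lt.mp hk⟩
    · rintro (h | h)
      · exact Nat.sInf_le h
      · have : {n | m ≤ cnt c n} = ∅ := by
          rw [eq_empty_iff_forall_notMem]
          intro k hk
          exact absurd (h k) (not_lt.mpr hk)
        unfold tau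
        rw [this, Nat.sInf_empty]
        exact Nat.zero_le _
  rw [h]
  apply MeasurableSet.union
  · exact measurable_cnt n measurableSet_Ici
  · exact MeasurableSet.iInter fun k => measurable_cnt k measurableSet_Iio

lemma measurable_FF (m : ℕ) : Measurable (fun c : ℕ → Bool => FF c m) := by
  unfold FF
  exact (measurable_tau m).sub measurable_const

/-! ### uniform variables -/

/-- the uniform law on `[0, 1)` -/
noncomputable def lam : Measure ℝ := volume.restrict (Ico 0 1)

instance instProbLam : IsProbabilityMeasure lam := by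
  constructor
  unfold lam
  rw [Measure.restrict_apply MeasurableSet.univ, univ_inter, Real.volume_Ico]
  simp

lemma msLt (w : ℝ) : MeasurableSet {t : ℝ | t < w} := measurableSet_Iio

lemma lam_lt {w : ℝ} (h0 : 0 ≤ w) (h1 : w ≤ 1) : lam {t | t < w} = ENNReal.ofReal w := by
  unfold lam
  have h2 : ({t | t < w} : Set ℝ) ∩ Ico 0 1 = Ico 0 w := by
    ext t
    simp only [mem_inter_iff, mem_ofPred_eq, mem_Ico]
    constructor
    · rintro ⟨a, b, _⟩; exact ⟨b, a⟩
    · rintro ⟨a, b⟩; exact ⟨b, a, lt_of_lt_of_le b h1⟩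
  rw [Measure.restrict_apply (msLt _), h2,
    Real.volume_Ico, sub_zero]

lemma lam_ge {w : ℝ} (h0 : 0 ≤ w) (h1 : w ≤ 1) : lam {t | ¬ t < w} = ENNReal.ofReal (1 - w) := by
  have h2 : {t : ℝ | ¬ t < w} = {t | t < w}ᶜ := rfl
  rw [h2, prob_compl_eq_one_sub (msLt _), lam_lt h0 h1,
    ENNReal.ofReal_sub _ h0, ENNReal.ofReal_one]

/-- law of the uniform variables at one site -/
noncomputable def nuS : Measure (ℕ → ℝ) := Measure.infinitePi (fun _ => lam)

instance instProbNuS : IsProbabilityMeasure nuS := by unfold nuS; infer_instance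

/-- the coins with success probabilities `w` -/
noncomputable def coin (w : ℕ → ℝ) (u : ℕ → ℝ) : ℕ → Bool := fun i => decide (u i < w i)

lemma measurable_coin (w : ℕ → ℝ) : Measurable (coin w) := by
  apply measurable_pi_lambda
  intro i
  unfold coin
  apply measurable_to_countable'
  intro b
  have h : (fun u : ℕ → ℝ => decide (u i < w i)) ⁻¹' {b}
      = {u | decide (u i < w i) = b} := rfl
  rw [h]
  cases b
  · simp only [decide_eq_false_iff_not]
    exact (measurable_pi_apply i measurableSet_Iio).compl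
  · simp only [decide_eq_true_eq]
    exact measurable_pi_apply i measurableSet_Iio

/-- concatenation -/
def cons (t : ℝ) (u : ℕ → ℝ) : ℕ → ℝ
  | 0 => t
  | i + 1 => u i

lemma measurable_cons : Measurable (fun p : ℝ × (ℕ → ℝ) => cons p.1 p.2) := by
  apply measurable_pi_lambda
  intro i
  cases i with
  | zero => exact measurable_fst
  | succ i => exact (measurable_pi_apply i).comp measurable_snd

lemma map_cons : (lam.prod nuS).map (fun p : ℝ × (ℕ → ℝ) => cons p.1 p.2) = nuS := by
  unfold nuS
  apply Measure.eq_infinitePi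
  intro s t ht
  have hpi : MeasurableSet (Set.pi (s : Set ℕ) t) :=
    MeasurableSet.pi (Finset.countable_toSet s) (fun i _ => ht i)
  rw [Measure.map_apply measurable_cons hpi]
  -- the preimage is a product
  set s' : Finset ℕ := (s.erase 0).image (fun i => i - 1) with hs'
  have hmem : ∀ i, i ∈ s' ↔ i + 1 ∈ s := by
    intro i
    rw [hs', Finset.mem_image]
    constructor
    · rintro ⟨j, hj, rfl⟩
      rw [Finset.mem_erase] at hj
      rw [Nat.sub_add_cancel (by omega)]
      exact hj.2
    · intro h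
      exact ⟨i + 1, Finset.mem_erase.mpr ⟨by omega, h⟩, by simp⟩
  have hpre : (fun p : ℝ × (ℕ → ℝ) => cons p.1 p.2) ⁻¹' (Set.pi (s : Set ℕ) t)
      = (if 0 ∈ s then t 0 else univ) ×ˢ (Set.pi (s' : Set ℕ) (fun i => t (i + 1))) := by
    ext p
    simp only [mem_preimage, Set.mem_pi, Finset.mem_coe, mem_prod]
    constructor
    · intro h
      constructor
      · split_ifs with h0
        · exact h 0 h0
        · trivial
      · intro i hi
        exact h (i + 1) ((hmem i).mp hi)
    · rintro ⟨h0, h1⟩ i hi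
      cases i with
      | zero =>
        rw [if_pos hi] at h0
        exact h0
      | succ i => exact h1 i ((hmem i).mpr hi)
  rw [hpre, Measure.prod_prod, Measure.infinitePi_pi _ (fun i _ => ht (i + 1))]
  have hprod : ∏ i ∈ s', lam (t (i + 1)) = ∏ i ∈ s.erase 0, lam (t i) := by
    rw [hs', Finset.prod_image]
    · apply Finset.prod_congr rfl
      intro i hi
      rw [Finset.mem_erase] at hi
      rw [Nat.sub_add_cancel (by omega)]
    · intro i hi j hj hij
      have hi' := Finset.mem_erase.mp hi
      have hj' := Finset.mem_erase.mp hj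
      simp only at hij
      omega
  rw [hprod]
  by_cases h0 : 0 ∈ s
  · rw [if_pos h0, Finset.mul_prod_erase s (fun i => lam (t i)) h0]
  · rw [if_neg h0, measure_univ, one_mul, Finset.erase_eq_of_notMem h0]

lemma lintegral_head {f : (ℕ → ℝ) → ℝ≥0∞} (hf : Measurable f) :
    ∫⁻ u, f u ∂nuS = ∫⁻ t, ∫⁻ u, f (cons t u) ∂nuS ∂lam := by
  conv_lhs => rw [← map_cons]
  rw [lintegral_map hf measurable_cons]
  exact lintegral_prod (fun p : ℝ × (ℕ → ℝ) => f (cons p.1 p.2))
    (hf.comp measurable_cons).aemeasurable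

lemma coin_cons_zero (w : ℕ → ℝ) (t : ℝ) (u : ℕ → ℝ) : coin w (cons t u) 0 = decide (t < w 0) := rfl

lemma coin_cons_tail (w : ℕ → ℝ) (t : ℝ) (u : ℕ → ℝ) :
    (fun i => coin w (cons t u) (i + 1)) = coin (fun i => w (i + 1)) u := rfl

/-- eventually fair coins succeed infinitely often -/
lemma ae_infy {w : ℕ → ℝ} {k : ℕ} (hw : ∀ i, k ≤ i → w i = 1 / 2) :
    ∀ᵐ u ∂nuS, Infy (coin w u) := by
  set s : ℕ → Set (ℕ → ℝ) := fun i => {u | u (k + i) < 1 / 2} with hs
  have hsm : ∀ i, MeasurableSet (s i) := fun i => measurable_pi_apply (k + i) measurableSet_Iio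
  have hind : iIndepFun (fun i (u : ℕ → ℝ) => u (k + i)) nuS := by
    have h1 : iIndepFun (fun i (u : ℕ → ℝ) => u i) nuS := by
      have := iIndepFun_infinitePi (P := fun _ : ℕ => lam) (X := fun _ (x : ℝ) => x)
        (fun _ => measurable_id)
      exact this
    exact h1.precomp (g := fun i => k + i) (fun a b hab => by simpa using hab)
  have hindS : iIndepSet s nuS := by
    rw [iIndepSet_iff_meas_biInter hsm]
    intro S
    have h2 := hind.measure_inter_preimage_eq_mul S (sets := fun _ => Iio (1/2 : ℝ))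
      (fun i _ => measurableSet_Iio)
    exact h2
  have hprob : ∀ i, nuS (s i) = ENNReal.ofReal (1 / 2) := by
    intro i
    have h1 : nuS (s i) = (nuS.map (fun u => u (k + i))) {t | t < 1 / 2} := by
      rw [Measure.map_apply (measurable_pi_apply (k + i)) (msLt _)]
      rfl
    rw [h1]
    unfold nuS
    rw [Measure.infinitePi_map_eval, lam_lt (by norm_num) (by norm_num)]
  have hsum : ∑' i, nuS (s i) = ∞ := by
    simp_rw [hprob]
    exact ENNReal.tsum_const_eq_top_of_ne_zero (by simp)
  have hlim := measure_limsup_eq_one hsm hindS hsum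
  have hae : ∀ᵐ u ∂nuS, u ∈ limsup s atTop := by
    rw [← prob_compl_eq_zero_iff (MeasurableSet.measurableSet_limsup hsm)] at hlim
    exact hlim
  filter_upwards [hae] with u hu
  rw [mem_limsup_iff_frequently_mem, Nat.frequently_atTop_iff_infinite] at hu
  intro m
  -- `m` successes
  induction m with
  | zero => exact ⟨0, Nat.zero_le _⟩
  | succ m ih =>
    obtain ⟨n, hn⟩ := ih
    obtain ⟨i, hi, hni⟩ := hu.exists_gt n
    refine ⟨k + i + 1, ?_⟩
    rw [cnt_succ]
    have h1 : coin w u (k + i) = true := by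
      unfold coin
      rw [hw (k + i) (by omega), decide_eq_true_eq]
      exact hi
    rw [if_pos h1]
    have h2 : cnt (coin w u) n ≤ cnt (coin w u) (k + i) := cnt_mono _ (by omega)
    omega

end Pool.Agent.H87.Cookie
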