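import Mathlib
import Pool.Agent.H87.Cookie.Coin

open MeasureTheory ProbabilityTheory Filter Topology Set
open scoped ENNReal

namespace Pool.Agent.H87.Cookie

lemma Infy.of_tail {c : ℕ → Bool} (h : Infy (fun i => c (i + 1))) : Infy c := by
  intro m
  obtain ⟨n, hn⟩ := h m
  refine ⟨n + 1, ?_⟩
  rw [cnt_succ']
  omega

/-- tail of a stack -/
def tl (w : ℕ → ℝ) : ℕ → ℝ := fun i => w (i + 1)

/-- one-step recursion -/
lemma step_lintegral {w : ℕ → ℝ} (h0 : 0 ≤ w 0) (h1 : w 0 ≤ 1)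
    (hinf : ∀ᵐ u ∂nuS, Infy (coin (tl w) u)) (G : ℕ → ℝ≥0∞) {m : ℕ} (hm : 1 ≤ m) :
    ∫⁻ u, G (FF (coin w u) m) ∂nuS
      = ENNReal.ofReal (w 0) * ∫⁻ u, G (FF (coin (tl w) u) (m - 1)) ∂nuS
        + ENNReal.ofReal (1 - w 0) * ∫⁻ u, G (FF (coin (tl w) u) m + 1) ∂nuS := by
  have hG : Measurable G := measurable_of_countable G
  have hmeas : Measurable (fun u => G (FF (coin w u) m)) :=
    hG.comp ((measurable_FF m).comp (measurable_coin w))
  rw [lintegral_head hmeas]
  set A := ∫⁻ u, G (FF (coin (tl w) u) (m - 1)) ∂nuS with hA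
  set B := ∫⁻ u, G (FF (coin (tl w) u) m + 1) ∂nuS with hB
  have hin : ∀ t, ∫⁻ u, G (FF (coin w (cons t u)) m) ∂nuS
      = ({t | t < w 0}).indicator (fun _ => A) t + ({t | ¬ t < w 0}).indicator (fun _ => B) t := by
    intro t
    by_cases ht : t < w 0
    · rw [indicator_of_mem (show t ∈ {t | t < w 0} from ht),
        indicator_of_notMem (show t ∉ {t | ¬ t < w 0} from fun h => h ht), add_zero, hA]
      apply lintegral_congr_ae
      filter_upwards [hinf] with u hu
      have h2 : Infy (coin w (cons t u)) := Infy.of_tail hu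
      have h3 : coin w (cons t u) 0 = true := by
        rw [coin_cons_zero, decide_eq_true_eq]; exact ht
      rw [FF_head_true h2 hm h3]
      rfl
    · rw [indicator_of_notMem (show t ∉ {t | t < w 0} from ht),
        indicator_of_mem (show t ∈ {t | ¬ t < w 0} from ht), zero_add, hB]
      apply lintegral_congr_ae
      filter_upwards [hinf] with u hu
      have h2 : Infy (coin w (cons t u)) := Infy.of_tail hu
      have h3 : coin w (cons t u) 0 = false := by
        rw [coin_cons_zero, decide_eq_false_iff_not]; exact ht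
      rw [FF_head_false h2 hm h3]
      rfl
  simp_rw [hin]
  have hms : MeasurableSet {t : ℝ | ¬ t < w 0} := (msLt (w 0)).compl
  rw [lintegral_add_left (measurable_const.indicator (msLt _)), lintegral_indicator (msLt _),
    lintegral_indicator hms, setLIntegral_const, setLIntegral_const, lam_lt h0 h1, lam_ge h0 h1,
    mul_comm A, mul_comm B]

/-! ### fair coins -/

/-- fair stack -/
noncomputable def fair : ℕ → ℝ := fun _ => 1 / 2

lemma ae_infy_fair : ∀ᵐ u ∂nuS, Infy (coin fair u) := ae_infy (k := 0) (fun _ _ => rfl)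

lemma tl_fair : tl fair = fair := rfl

lemma FF_zero_lintegral (w : ℕ → ℝ) (G : ℕ → ℝ≥0∞) :
    ∫⁻ u, G (FF (coin w u) 0) ∂nuS = G 0 := by
  simp_rw [FF_zero]
  rw [lintegral_const, measure_univ, mul_one]

lemma step_fair (G : ℕ → ℝ≥0∞) {m : ℕ} (hm : 1 ≤ m) :
    ∫⁻ u, G (FF (coin fair u) m) ∂nuS
      = 2⁻¹ * ∫⁻ u, G (FF (coin fair u) (m - 1)) ∂nuS
        + 2⁻¹ * ∫⁻ u, G (FF (coin fair u) m + 1) ∂nuS := by
  have h := step_lintegral (w := fair) (by norm_num [fair]) (by norm_num [fair])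
    (by rw [tl_fair]; exact ae_infy_fair) G hm
  have e1 : ENNReal.ofReal (fair 0) = 2⁻¹ := by
    unfold fair
    rw [one_div, ENNReal.ofReal_inv_of_pos (by norm_num)]
    norm_num
  have e2 : ENNReal.ofReal (1 - fair 0) = 2⁻¹ := by
    rw [← e1]
    congr 1
    norm_num [fair]
  rw [e1, e2, tl_fair] at h
  exact h

/-- abstract solution of the truncated recursion -/
lemma solve_half {x y c : ℝ≥0∞} (hx : x ≠ ∞) (h : x ≤ 2⁻¹ * y + 2⁻¹ * (x + c)) : x ≤ y + c := by
  have h2 : (2:ℝ≥0∞)⁻¹ * x + 2⁻¹ * x = x := by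
    rw [← add_mul, ENNReal.inv_two_add_inv_two, one_mul]
  have h3 : 2⁻¹ * x + 2⁻¹ * x ≤ 2⁻¹ * (y + c) + 2⁻¹ * x := by
    rw [h2]
    calc x ≤ 2⁻¹ * y + 2⁻¹ * (x + c) := h
      _ = _ := by ring
  have h4 : (2:ℝ≥0∞)⁻¹ * x ≠ ∞ := ENNReal.mul_ne_top (by simp) hx
  have h5 : (2:ℝ≥0∞)⁻¹ * x ≤ 2⁻¹ * (y + c) := (ENNReal.add_le_add_iff_right h4).mp h3
  exact (ENNReal.mul_le_mul_iff_right (by simp) (by simp)).mp h5

lemma fair_one (m : ℕ) : ∫⁻ u, (FF (coin fair u) m : ℝ≥0∞) ∂nuS ≤ m := by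
  have key : ∀ N : ℕ, ∀ m : ℕ,
      ∫⁻ u, min (FF (coin fair u) m : ℝ≥0∞) N ∂nuS ≤ m := by
    intro N m
    induction m with
    | zero =>
      have := FF_zero_lintegral fair (fun k => min (k : ℝ≥0∞) N)
      rw [this]
      simp
    | succ m ih =>
      have h1 := step_fair (fun k => min (k : ℝ≥0∞) N) (m := m + 1) (by omega)
      simp only [Nat.add_sub_cancel] at h1
      have hfin : ∫⁻ u, min (FF (coin fair u) (m + 1) : ℝ≥0∞) N ∂nuS ≠ ∞ := by
        apply ne_of_lt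
        calc ∫⁻ u, min (FF (coin fair u) (m + 1) : ℝ≥0∞) N ∂nuS ≤ ∫⁻ _, (N : ℝ≥0∞) ∂nuS :=
              lintegral_mono (fun u => min_le_right _ _)
          _ = N := by rw [lintegral_const, measure_univ, mul_one]
          _ < ∞ := ENNReal.natCast_lt_top N
      have h2 : ∫⁻ u, min (((FF (coin fair u) (m + 1) + 1 : ℕ)) : ℝ≥0∞) N ∂nuS
          ≤ ∫⁻ u, min (FF (coin fair u) (m + 1) : ℝ≥0∞) N ∂nuS + 1 := by
        calc ∫⁻ u, min (((FF (coin fair u) (m + 1) + 1 : ℕ)) : ℝ≥0∞) N ∂nuS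
            ≤ ∫⁻ u, (min (FF (coin fair u) (m + 1) : ℝ≥0∞) N + 1) ∂nuS := by
              apply lintegral_mono
              intro u
              simp only
              push_cast
              rcases le_total ((FF (coin fair u) (m + 1) : ℝ≥0∞)) N with h | h
              · rw [min_eq_left h]; exact min_le_left _ _
              · rw [min_eq_right h]; exact (min_le_right _ _).trans le_self_add
          _ = _ := by
              rw [lintegral_add_right _ measurable_const, lintegral_const, measure_univ, mul_one]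
      have h3 := solve_half hfin (y := ∫⁻ u, min (FF (coin fair u) m : ℝ≥0∞) N ∂nuS) (c := 1)
        (h1.le.trans (by gcongr))
      calc _ ≤ _ := h3
        _ ≤ (m : ℝ≥0∞) + 1 := by gcongr
        _ = _ := by push_cast; rfl
  have h1 : ∀ u, (FF (coin fair u) m : ℝ≥0∞) = ⨆ N : ℕ, min (FF (coin fair u) m : ℝ≥0∞) N := by
    intro u
    apply le_antisymm
    · calc (FF (coin fair u) m : ℝ≥0∞) = min (FF (coin fair u) m : ℝ≥0∞) (FF (coin fair u) m : ℕ) :=
            (min_self _).symm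
        _ ≤ _ := le_iSup (fun N : ℕ => min (FF (coin fair u) m : ℝ≥0∞) N) _
    · exact iSup_le fun N => min_le_left _ _
  rw [lintegral_congr h1, lintegral_iSup]
  · exact iSup_le fun N => key N m
  · intro N
    apply Measurable.min _ measurable_const
    exact (measurable_of_countable (fun k : ℕ => (k : ℝ≥0∞))).comp
      ((measurable_FF m).comp (measurable_coin fair))
  · intro a b hab u
    simp only
    gcongr

lemma fair_two (m : ℕ) : ∫⁻ u, (FF (coin fair u) m : ℝ≥0∞) ^ 2 ∂nuS ≤ m * (m + 2) := by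
  have hm1 : ∀ m, Measurable (fun u => (FF (coin fair u) m : ℝ≥0∞)) := fun m =>
    (measurable_of_countable (fun k : ℕ => (k : ℝ≥0∞))).comp
      ((measurable_FF m).comp (measurable_coin fair))
  have key : ∀ N : ℕ, ∀ m : ℕ,
      ∫⁻ u, min ((FF (coin fair u) m : ℝ≥0∞) ^ 2) N ∂nuS ≤ m * (m + 2) := by
    intro N m
    induction m with
    | zero =>
      have := FF_zero_lintegral fair (fun k => min ((k : ℝ≥0∞) ^ 2) N)
      rw [this]
      simp
    | succ m ih =>
      have h1 := step_fair (fun k => min ((k : ℝ≥0∞) ^ 2) N) (m := m + 1) (by omega)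
      simp only [Nat.add_sub_cancel] at h1
      have hfin : ∫⁻ u, min ((FF (coin fair u) (m + 1) : ℝ≥0∞) ^ 2) N ∂nuS ≠ ∞ := by
        apply ne_of_lt
        calc ∫⁻ u, min ((FF (coin fair u) (m + 1) : ℝ≥0∞) ^ 2) N ∂nuS ≤ ∫⁻ _, (N : ℝ≥0∞) ∂nuS :=
              lintegral_mono (fun u => min_le_right _ _)
          _ = N := by rw [lintegral_const, measure_univ, mul_one]
          _ < ∞ := ENNReal.natCast_lt_top N
      have h2 : ∫⁻ u, min ((((FF (coin fair u) (m + 1) + 1 : ℕ)) : ℝ≥0∞) ^ 2) N ∂nuS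
          ≤ ∫⁻ u, min ((FF (coin fair u) (m + 1) : ℝ≥0∞) ^ 2) N ∂nuS + (2 * (m + 1) + 1) := by
        calc ∫⁻ u, min ((((FF (coin fair u) (m + 1) + 1 : ℕ)) : ℝ≥0∞) ^ 2) N ∂nuS
            ≤ ∫⁻ u, (min ((FF (coin fair u) (m + 1) : ℝ≥0∞) ^ 2) N
                + (2 * (FF (coin fair u) (m + 1) : ℝ≥0∞) + 1)) ∂nuS := by
              apply lintegral_mono
              intro u
              simp only
              push_cast
              have h4 : ((FF (coin fair u) (m + 1) : ℝ≥0∞) + 1) ^ 2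
                  = (FF (coin fair u) (m + 1) : ℝ≥0∞) ^ 2
                    + (2 * (FF (coin fair u) (m + 1) : ℝ≥0∞) + 1) := by ring
              rw [h4]
              rcases le_total ((FF (coin fair u) (m + 1) : ℝ≥0∞) ^ 2) N with h | h
              · rw [min_eq_left h]; exact min_le_left _ _
              · rw [min_eq_right h]; exact (min_le_right _ _).trans le_self_add
          _ = ∫⁻ u, min ((FF (coin fair u) (m + 1) : ℝ≥0∞) ^ 2) N ∂nuS
                + (2 * ∫⁻ u, (FF (coin fair u) (m + 1) : ℝ≥0∞) ∂nuS + 1) := by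
              rw [lintegral_add_right _ (((hm1 _).const_mul _).add_const _),
                lintegral_add_right _ measurable_const, lintegral_const, measure_univ, mul_one,
                lintegral_const_mul _ (hm1 _)]
          _ ≤ _ := by
              have := fair_one (m + 1)
              push_cast at this
              gcongr
      have h3 := solve_half hfin (y := ∫⁻ u, min ((FF (coin fair u) m : ℝ≥0∞) ^ 2) N ∂nuS)
        (c := 2 * (m + 1) + 1) (h1.le.trans (by gcongr))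
      calc _ ≤ _ := h3
        _ ≤ (m : ℝ≥0∞) * (m + 2) + (2 * (m + 1) + 1) := by gcongr
        _ = _ := by push_cast; ring
  have h1 : ∀ u, (FF (coin fair u) m : ℝ≥0∞) ^ 2
      = ⨆ N : ℕ, min ((FF (coin fair u) m : ℝ≥0∞) ^ 2) N := by
    intro u
    apply le_antisymm
    · calc (FF (coin fair u) m : ℝ≥0∞) ^ 2
          = min ((FF (coin fair u) m : ℝ≥0∞) ^ 2) ((FF (coin fair u) m ^ 2 : ℕ) : ℕ) := by
            push_cast
            exact (min_self _).symm
        _ ≤ _ := le_iSup (fun N : ℕ => min ((FF (coin fair u) m : ℝ≥0∞) ^ 2) N) _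
    · exact iSup_le fun N => min_le_left _ _
  rw [lintegral_congr h1, lintegral_iSup]
  · exact iSup_le fun N => key N m
  · intro N
    exact Measurable.min ((hm1 m).pow_const 2) measurable_const
  · intro a b hab u
    simp only
    gcongr

/-! ### two cookies -/

/-- admissible stack: two cookies, then fair coins -/
structure Stk (w : ℕ → ℝ) : Prop where
  nonneg : ∀ i, 0 ≤ w i
  le_one : ∀ i, w i ≤ 1
  half : ∀ i, 2 ≤ i → w i = 1 / 2

lemma Stk.tl_tl {w : ℕ → ℝ} (h : Stk w) : tl (tl w) = fair := by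
  funext i
  exact h.half (i + 2) (by omega)

lemma Stk.infy_tl {w : ℕ → ℝ} (h : Stk w) : ∀ᵐ u ∂nuS, Infy (coin (tl w) u) :=
  ae_infy (k := 1) (fun i hi => h.half (i + 1) (by omega))

lemma Stk.infy {w : ℕ → ℝ} (h : Stk w) : ∀ᵐ u ∂nuS, Infy (coin w u) :=
  ae_infy (k := 2) (fun i hi => h.half i hi)

/-- mean of `F` -/
noncomputable def E1 (w : ℕ → ℝ) (m : ℕ) : ℝ≥0∞ := ∫⁻ u, (FF (coin w u) m : ℝ≥0∞) ∂nuS

/-- second moment of `F` -/
noncomputable def E2 (w : ℕ → ℝ) (m : ℕ) : ℝ≥0∞ := ∫⁻ u, (FF (coin w u) m : ℝ≥0∞) ^ 2 ∂nuS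

lemma meas_FF (w : ℕ → ℝ) (m : ℕ) : Measurable (fun u => (FF (coin w u) m : ℝ≥0∞)) :=
  (measurable_of_countable (fun k : ℕ => (k : ℝ≥0∞))).comp
      ((measurable_FF m).comp (measurable_coin w))

lemma E1_step {w : ℕ → ℝ} (h0 : 0 ≤ w 0) (h1 : w 0 ≤ 1)
    (hinf : ∀ᵐ u ∂nuS, Infy (coin (tl w) u)) {m : ℕ} (hm : 1 ≤ m) :
    E1 w m = ENNReal.ofReal (w 0) * E1 (tl w) (m - 1)
        + ENNReal.ofReal (1 - w 0) * (E1 (tl w) m + 1) := by
  unfold E1
  rw [step_lintegral h0 h1 hinf (fun k => (k : ℝ≥0∞)) hm]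
  congr 2
  simp only [Nat.cast_add, Nat.cast_one]
  rw [lintegral_add_right _ measurable_const, lintegral_const, measure_univ, mul_one]

lemma E2_step {w : ℕ → ℝ} (h0 : 0 ≤ w 0) (h1 : w 0 ≤ 1)
    (hinf : ∀ᵐ u ∂nuS, Infy (coin (tl w) u)) {m : ℕ} (hm : 1 ≤ m) :
    E2 w m = ENNReal.ofReal (w 0) * E2 (tl w) (m - 1)
        + ENNReal.ofReal (1 - w 0) * (E2 (tl w) m + (2 * E1 (tl w) m + 1)) := by
  unfold E2 E1
  rw [step_lintegral h0 h1 hinf (fun k => (k : ℝ≥0∞) ^ 2) hm]
  congr 2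
  have h4 : ∀ u, ((FF (coin (tl w) u) m + 1 : ℕ) : ℝ≥0∞) ^ 2
      = (FF (coin (tl w) u) m : ℝ≥0∞) ^ 2 + (2 * (FF (coin (tl w) u) m : ℝ≥0∞) + 1) := by
    intro u
    push_cast
    ring
  rw [lintegral_congr h4, lintegral_add_right _ (((meas_FF _ _).const_mul _).add_const _),
    lintegral_add_right _ measurable_const, lintegral_const, measure_univ, mul_one,
    lintegral_const_mul _ (meas_FF _ _)]

lemma E1_fair (m : ℕ) : E1 fair m ≤ ENNReal.ofReal m := by
  rw [ENNReal.ofReal_natCast]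
  exact fair_one m

lemma E2_fair (m : ℕ) : E2 fair m ≤ ENNReal.ofReal (m * (m + 2)) := by
  have h : ENNReal.ofReal ((m:ℝ) * (m + 2)) = (m : ℝ≥0∞) * (m + 2) := by
    have : (m:ℝ) * (m + 2) = ((m * (m + 2) : ℕ) : ℝ) := by push_cast; ring
    rw [this, ENNReal.ofReal_natCast]
    push_cast
    ring
  rw [h]
  exact fair_two m

/-- one unfair coin followed by fair ones -/
lemma E1_tl {w : ℕ → ℝ} (h : Stk w) {m : ℕ} (hm : 1 ≤ m) :
    E1 (tl w) m ≤ ENNReal.ofReal (m + 1 - 2 * w 1) := by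
  have h1 := E1_step (w := tl w) (h.nonneg 1) (h.le_one 1)
    (by rw [h.tl_tl]; exact ae_infy_fair) hm
  rw [h.tl_tl] at h1
  have hm' : (1:ℝ) ≤ m := by exact_mod_cast hm
  have h2 : (0:ℝ) ≤ (m - 1 : ℕ) := Nat.cast_nonneg _
  have h3 : ((m - 1 : ℕ) : ℝ) = m - 1 := by push_cast [Nat.cast_sub hm]; ring
  have hw := h.nonneg 1
  have hw' := h.le_one 1
  calc E1 (tl w) m = _ := h1
    _ ≤ ENNReal.ofReal (w 1) * ENNReal.ofReal ((m - 1 : ℕ) : ℝ)
        + ENNReal.ofReal (1 - w 1) * (ENNReal.ofReal m + ENNReal.ofReal 1) := by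
        rw [ENNReal.ofReal_one]
        gcongr
        · exact le_rfl
        · exact E1_fair _
        · exact le_rfl
        · exact E1_fair _
    _ = ENNReal.ofReal (w 1 * ((m - 1 : ℕ) : ℝ) + (1 - w 1) * (m + 1)) := by
        rw [← ENNReal.ofReal_add (by linarith) (by norm_num), ← ENNReal.ofReal_mul hw,
          ← ENNReal.ofReal_mul (by linarith), ← ENNReal.ofReal_add (by positivity)
            (mul_nonneg (by linarith) (by linarith))]
    _ = ENNReal.ofReal (m + 1 - 2 * w 1) := by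
        rw [h3]
        congr 1
        ring

lemma E2_tl {w : ℕ → ℝ} (h : Stk w) {m : ℕ} (hm : 1 ≤ m) :
    E2 (tl w) m ≤ ENNReal.ofReal (m ^ 2 + 4 * m + 1 - w 1 * (4 * m + 2)) := by
  have h1 := E2_step (w := tl w) (h.nonneg 1) (h.le_one 1)
    (by rw [h.tl_tl]; exact ae_infy_fair) hm
  rw [h.tl_tl] at h1
  have hm' : (1:ℝ) ≤ m := by exact_mod_cast hm
  have h2 : (0:ℝ) ≤ (m - 1 : ℕ) := Nat.cast_nonneg _
  have h3 : ((m - 1 : ℕ) : ℝ) = m - 1 := by push_cast [Nat.cast_sub hm]; ring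
  have hw := h.nonneg 1
  have hw' := h.le_one 1
  calc E2 (tl w) m = _ := h1
    _ ≤ ENNReal.ofReal (w 1) * ENNReal.ofReal (((m - 1 : ℕ) : ℝ) * (((m - 1 : ℕ) : ℝ) + 2))
        + ENNReal.ofReal (1 - w 1) * (ENNReal.ofReal (m * (m + 2))
          + (ENNReal.ofReal 2 * ENNReal.ofReal m + ENNReal.ofReal 1)) := by
        have e2 : ENNReal.ofReal 2 = 2 := by norm_num
        rw [ENNReal.ofReal_one, e2]
        gcongr
        · exact le_rfl
        · exact E2_fair _
        · exact le_rfl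
        · exact E2_fair _
        · exact E1_fair _
    _ = ENNReal.ofReal (w 1 * (((m - 1 : ℕ) : ℝ) * (((m - 1 : ℕ) : ℝ) + 2))
          + (1 - w 1) * (m * (m + 2) + (2 * m + 1))) := by
        rw [← ENNReal.ofReal_mul (by norm_num : (0:ℝ) ≤ 2),
          ← ENNReal.ofReal_add (by linarith) (by norm_num),
          ← ENNReal.ofReal_add (by positivity) (by positivity), ← ENNReal.ofReal_mul hw,
          ← ENNReal.ofReal_mul (by linarith), ← ENNReal.ofReal_add (by positivity)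
            (mul_nonneg (by linarith) (by positivity))]
    _ = ENNReal.ofReal (m ^ 2 + 4 * m + 1 - w 1 * (4 * m + 2)) := by
        rw [h3]
        congr 1
        ring

/-- mean for two cookies, at least two successes wanted -/
lemma E1_two {w : ℕ → ℝ} (h : Stk w) {Z : ℕ} (hZ : 1 ≤ Z) :
    E1 w (Z + 1) ≤ ENNReal.ofReal (Z + 3 - 2 * w 0 - 2 * w 1) := by
  have h1 := E1_step (w := w) (h.nonneg 0) (h.le_one 0) h.infy_tl (m := Z + 1) (by omega)
  rw [Nat.add_sub_cancel] at h1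
  have hZ' : (1:ℝ) ≤ Z := by exact_mod_cast hZ
  have hw := h.nonneg 0
  have hw' := h.le_one 0
  have hv := h.nonneg 1
  have hv' := h.le_one 1
  have e1 := E1_tl h (m := Z) hZ
  have e2 := E1_tl h (m := Z + 1) (by omega)
  push_cast at e2
  calc E1 w (Z + 1) = _ := h1
    _ ≤ ENNReal.ofReal (w 0) * ENNReal.ofReal (Z + 1 - 2 * w 1)
        + ENNReal.ofReal (1 - w 0) * (ENNReal.ofReal (Z + 1 + 1 - 2 * w 1)
          + ENNReal.ofReal 1) := by
        rw [ENNReal.ofReal_one]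
        gcongr
    _ = ENNReal.ofReal (w 0 * (Z + 1 - 2 * w 1) + (1 - w 0) * ((Z + 1 + 1 - 2 * w 1) + 1)) := by
        rw [← ENNReal.ofReal_add (by linarith) (by norm_num), ← ENNReal.ofReal_mul hw,
          ← ENNReal.ofReal_mul (by linarith), ← ENNReal.ofReal_add
            (mul_nonneg hw (by linarith)) (mul_nonneg (by linarith) (by linarith))]
    _ = _ := by
        congr 1
        ring

/-- second moment for two cookies -/
lemma E2_two {w : ℕ → ℝ} (h : Stk w) {Z : ℕ} (hZ : 1 ≤ Z) :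
    E2 w (Z + 1) ≤ ENNReal.ofReal (Z ^ 2 + 19 * Z) := by
  have h1 := E2_step (w := w) (h.nonneg 0) (h.le_one 0) h.infy_tl (m := Z + 1) (by omega)
  rw [Nat.add_sub_cancel] at h1
  have hZ' : (1:ℝ) ≤ Z := by exact_mod_cast hZ
  have hw := h.nonneg 0
  have hw' := h.le_one 0
  have hv := h.nonneg 1
  have hv' := h.le_one 1
  have e1 := E2_tl h (m := Z) hZ
  have e2 := E2_tl h (m := Z + 1) (by omega)
  have e3 := E1_tl h (m := Z + 1) (by omega)
  have e1' : E2 (tl w) Z ≤ ENNReal.ofReal (Z ^ 2 + 8 * Z + 11) := by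
    refine e1.trans (ENNReal.ofReal_le_ofReal ?_)
    nlinarith [mul_nonneg hv (by positivity : (0:ℝ) ≤ 4 * Z + 2)]
  have e2' : E2 (tl w) (Z + 1) ≤ ENNReal.ofReal (Z ^ 2 + 6 * Z + 6) := by
    refine e2.trans (ENNReal.ofReal_le_ofReal ?_)
    push_cast
    nlinarith [mul_nonneg hv (by positivity : (0:ℝ) ≤ 4 * ((Z:ℝ) + 1) + 2)]
  have e3' : E1 (tl w) (Z + 1) ≤ ENNReal.ofReal (Z + 2) := by
    refine e3.trans (ENNReal.ofReal_le_ofReal ?_)
    push_cast
    linarith
  have en2 : ENNReal.ofReal 2 = 2 := by norm_num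
  calc E2 w (Z + 1) = _ := h1
    _ ≤ ENNReal.ofReal (w 0) * ENNReal.ofReal (Z ^ 2 + 8 * Z + 11)
        + ENNReal.ofReal (1 - w 0) * (ENNReal.ofReal (Z ^ 2 + 6 * Z + 6)
          + (ENNReal.ofReal 2 * ENNReal.ofReal (Z + 2) + ENNReal.ofReal 1)) := by
        rw [ENNReal.ofReal_one, en2]
        gcongr
    _ = ENNReal.ofReal (w 0 * (Z ^ 2 + 8 * Z + 11)
          + (1 - w 0) * ((Z ^ 2 + 6 * Z + 6) + (2 * (Z + 2) + 1))) := by
        rw [← ENNReal.ofReal_mul (by norm_num : (0:ℝ) ≤ 2),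
          ← ENNReal.ofReal_add (by linarith) (by norm_num),
          ← ENNReal.ofReal_add (by positivity) (by positivity), ← ENNReal.ofReal_mul hw,
          ← ENNReal.ofReal_mul (by linarith), ← ENNReal.ofReal_add (by positivity)
            (mul_nonneg (by linarith) (by positivity))]
    _ ≤ ENNReal.ofReal (Z ^ 2 + 19 * Z) := by
        apply ENNReal.ofReal_le_ofReal
        nlinarith

lemma E1_one {w : ℕ → ℝ} (h : Stk w) (hu : 3 / 4 ≤ w 0) (hu' : 3 / 4 ≤ w 1) :
    E1 w 1 ≤ ENNReal.ofReal 1 := by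
  have h1 := E1_step (w := w) (h.nonneg 0) (h.le_one 0) h.infy_tl (m := 1) (by omega)
  have e0 : E1 (tl w) 0 = 0 := by
    unfold E1
    rw [FF_zero_lintegral (tl w) (fun k => (k : ℝ≥0∞))]
    simp
  rw [Nat.sub_self, e0, mul_zero, zero_add] at h1
  have hw' := h.le_one 0
  have hv' := h.le_one 1
  have e2 := E1_tl h (m := 1) (by omega)
  push_cast at e2
  calc E1 w 1 = _ := h1
    _ ≤ ENNReal.ofReal (1 - w 0) * (ENNReal.ofReal (1 + 1 - 2 * w 1) + ENNReal.ofReal 1) := by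
        rw [ENNReal.ofReal_one]
        gcongr
    _ = ENNReal.ofReal ((1 - w 0) * ((1 + 1 - 2 * w 1) + 1)) := by
        rw [← ENNReal.ofReal_add (by linarith) (by norm_num), ← ENNReal.ofReal_mul (by linarith)]
    _ ≤ _ := by
        apply ENNReal.ofReal_le_ofReal
        nlinarith

lemma E2_one {w : ℕ → ℝ} (h : Stk w) (hu : 3 / 4 ≤ w 0) (hu' : 3 / 4 ≤ w 1) :
    E2 w 1 ≤ ENNReal.ofReal 3 := by
  have h1 := E2_step (w := w) (h.nonneg 0) (h.le_one 0) h.infy_tl (m := 1) (by omega)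
  have e0 : E2 (tl w) 0 = 0 := by
    unfold E2
    rw [FF_zero_lintegral (tl w) (fun k => (k : ℝ≥0∞) ^ 2)]
    simp
  rw [Nat.sub_self, e0, mul_zero, zero_add] at h1
  have hw' := h.le_one 0
  have hv' := h.le_one 1
  have e2 := E2_tl h (m := 1) (by omega)
  have e3 := E1_tl h (m := 1) (by omega)
  push_cast at e2 e3
  have en2 : ENNReal.ofReal 2 = 2 := by norm_num
  have e2' : E2 (tl w) 1 ≤ ENNReal.ofReal 6 := by
    refine e2.trans (ENNReal.ofReal_le_ofReal ?_)
    nlinarith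
  have e3' : E1 (tl w) 1 ≤ ENNReal.ofReal 2 := by
    refine e3.trans (ENNReal.ofReal_le_ofReal ?_)
    nlinarith
  calc E2 w 1 = _ := h1
    _ ≤ ENNReal.ofReal (1 - w 0) * (ENNReal.ofReal 6 +
          (ENNReal.ofReal 2 * ENNReal.ofReal 2 + ENNReal.ofReal 1)) := by
        rw [ENNReal.ofReal_one]
        have e5 : (2:ℝ≥0∞) * E1 (tl w) 1 ≤ ENNReal.ofReal 2 * ENNReal.ofReal 2 := by
          calc (2:ℝ≥0∞) * E1 (tl w) 1 ≤ 2 * ENNReal.ofReal 2 := by gcongr
            _ = _ := by rw [en2]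
        gcongr
    _ = ENNReal.ofReal ((1 - w 0) * (6 + (2 * 2 + 1))) := by
        rw [← ENNReal.ofReal_mul (by norm_num : (0:ℝ) ≤ 2),
          ← ENNReal.ofReal_add (by norm_num) (by norm_num),
          ← ENNReal.ofReal_add (by norm_num) (by norm_num), ← ENNReal.ofReal_mul (by linarith)]
    _ ≤ _ := by
        apply ENNReal.ofReal_le_ofReal
        nlinarith

end Pool.Agent.H87.Cookie
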