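import Mathlib

open Finset

namespace Pool.Agent.H87.Cookie

/-- The numerical data of a killed chain: `p n` is the probability of being alive at time `n`,
`e n` the mean and `v n` the second moment (on the event of being alive). -/
structure KC (p e v : ℕ → ℝ) : Prop where
  p_nonneg : ∀ n, 0 ≤ p n
  p_anti : ∀ n, p (n + 1) ≤ p n
  p_zero : p 0 ≤ 1
  e_nonneg : ∀ n, 0 ≤ e n
  e_zero : e 0 ≤ 1
  e_growth : ∀ n, e (n + 1) ≤ e n + p n
  v_zero : v 0 ≤ 3
  v_step : ∀ n, v (n + 1) ≤ v n + 19 * e n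
  cs : ∀ n, e n ^ 2 ≤ p n * v n

lemma KC.p_le_one {p e v : ℕ → ℝ} (h : KC p e v) (n : ℕ) : p n ≤ 1 := by
  induction n with
  | zero => exact h.p_zero
  | succ n ih => exact (h.p_anti n).trans ih

lemma KC.e_le {p e v : ℕ → ℝ} (h : KC p e v) (n : ℕ) : e n ≤ 1 + n := by
  induction n with
  | zero => simpa using h.e_zero
  | succ n ih =>
    have h1 := h.e_growth n
    have h2 := h.p_le_one n
    push_cast
    linarith

lemma KC.v_le {p e v : ℕ → ℝ} (h : KC p e v) (n : ℕ) : v n ≤ 3 + 19 * (n * (1 + n)) := by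
  induction n with
  | zero => simpa using h.v_zero
  | succ n ih =>
    have h1 := h.v_step n
    have h2 := h.e_le n
    have h3 : (0:ℝ) ≤ n := Nat.cast_nonneg n
    push_cast
    nlinarith

/-- The modified energy decreases at rate `γ p` on the window `[A, R)`. -/
def Win (p e H : ℕ → ℝ) (A R : ℕ) (γ : ℝ) : Prop :=
  ∀ n, A ≤ n → n < R → e (n + 1) + H (n + 1) * p (n + 1) ≤ e n + H n * p n - γ * p n

lemma Win.energy {p e H v : ℕ → ℝ} {A R : ℕ} {γ : ℝ} (hk : KC p e v) (hγ : 0 ≤ γ)
    (h : Win p e H A R γ) {a n : ℕ} (ha : A ≤ a) (han : a ≤ n) (hn : n ≤ R) :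
    e n + H n * p n ≤ e a + H a * p a - γ * (n - a) * p n := by
  induction n, han using Nat.le_induction with
  | base => simp
  | succ n han ih =>
    have h1 := ih (by omega)
    have h2 := h n (by omega) (by omega)
    have h3 : (a:ℝ) ≤ n := by exact_mod_cast han
    push_cast
    have h5 : γ * (n - a + 1) * p (n + 1) ≤ γ * (n - a + 1) * p n := by
      apply mul_le_mul_of_nonneg_left (hk.p_anti n)
      apply mul_nonneg hγ
      linarith
    nlinarith

lemma Win.sum_le {p e H v : ℕ → ℝ} {A R : ℕ} {γ : ℝ} (hk : KC p e v)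
    (hH : ∀ n, 0 ≤ H n) (h : Win p e H A R γ) (hAR : A ≤ R) :
    γ * ∑ n ∈ Ico A R, p n ≤ e A + H A * p A := by
  have key : ∀ n, A ≤ n → n ≤ R → e n + H n * p n + γ * ∑ s ∈ Ico A n, p s ≤ e A + H A * p A := by
    intro n hn
    induction n, hn using Nat.le_induction with
    | base => simp
    | succ n hn ih =>
      intro hR
      have h1 := ih (by omega)
      have h2 := h n hn (by omega)
      rw [Finset.sum_Ico_succ_top hn, mul_add]
      linarith
  have h1 := key R hAR le_rfl
  have h2 := hk.e_nonneg R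
  have h3 := mul_nonneg (hH R) (hk.p_nonneg R)
  linarith

/-- **Decay lemma.** -/
lemma decay (A : ℕ) (hA : 1 ≤ A) {γ η : ℝ} (hγ : 0 < γ) (hη : 0 < η) :
    ∃ R₀ : ℕ, A ≤ R₀ ∧ ∀ R, R₀ ≤ R → ∀ p e v H : ℕ → ℝ, KC p e v →
      (∀ n, 0 ≤ H n) → (∀ n, H n ≤ A) → Win p e H A R γ → e R + R * p R ≤ η := by
  set Q : ℝ := 1 + 2 * A with hQ
  set K : ℝ := 3 + 19 * (A * (1 + A)) + 19 * Q with hK
  have hA1 : (1:ℝ) ≤ A := by exact_mod_cast hA
  have hQ0 : 0 < Q := by rw [hQ]; linarith
  have hK0 : 0 < K := by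
    rw [hK]
    have : (0:ℝ) ≤ A * (1 + A) := by positivity
    linarith
  set κ : ℝ := η / (1 + 2 / γ) with hκ
  have hγ2 : 0 < 1 + 2 / γ := by positivity
  have hκ0 : 0 < κ := by positivity
  set ε : ℝ := min (κ / 2) ((κ / 2) ^ 2 / K) with hε
  have hε0 : 0 < ε := lt_min (by positivity) (by positivity)
  obtain ⟨N, hN⟩ := exists_nat_gt (2 * Q / (γ * ε))
  have hN' : 2 * Q < N * (γ * ε) := by
    rw [div_lt_iff₀ (by positivity)] at hN
    exact hN
  refine ⟨2 ^ (N + 2) * A, ?_, ?_⟩
  · have : 1 ≤ 2 ^ (N + 2) := Nat.one_le_two_pow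
    nlinarith
  intro R hR p e v H hk hH0 hHA hw
  set E : ℕ → ℝ := fun n => e n + H n * p n with hE
  have hE0 : ∀ n, 0 ≤ E n := fun n =>
    add_nonneg (hk.e_nonneg n) (mul_nonneg (hH0 n) (hk.p_nonneg n))
  have hEA : E A ≤ Q := by
    have h1 := hk.e_le A
    have h2 := hk.p_le_one A
    have h3 := hHA A
    have h4 := hH0 A
    have h5 := hk.p_nonneg A
    have h6 : H A * p A ≤ A * 1 := mul_le_mul h3 h2 h5 (by positivity)
    simp only [hE]
    linarith
  -- second moment
  have hv : ∀ n, A ≤ n → n ≤ R → v n ≤ K * n := by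
    intro n hn hnR
    have key : v n ≤ (3 + 19 * (A * (1 + A))) + 19 * Q * (n - A) := by
      induction n, hn using Nat.le_induction with
      | base =>
        have := hk.v_le A
        simpa using this
      | succ n hn ih =>
        have h1 := ih (by omega)
        have h2 := hk.v_step n
        have h3 : e n ≤ Q := by
          have h4 := hw.energy hk hγ.le (le_refl A) hn (by omega)
          have h5 : 0 ≤ γ * (n - A) * p n := by
            have : (A:ℝ) ≤ n := by exact_mod_cast hn
            have := hk.p_nonneg n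
            have h6 : (0:ℝ) ≤ n - A := by linarith
            positivity
          have h7 := mul_nonneg (hH0 n) (hk.p_nonneg n)
          simp only [hE] at hEA
          linarith
        push_cast
        linarith
    have h1 : (A:ℝ) ≤ n := by exact_mod_cast hn
    have h2 : (1:ℝ) ≤ n := hA1.trans h1
    have h3 : (0:ℝ) ≤ A * (1 + A) := by positivity
    rw [hK]
    nlinarith
  -- pigeonhole
  have hpig : ∃ i < N, (2 ^ (i + 1) * A : ℝ) * p (2 ^ (i + 1) * A) ≤ ε := by
    by_contra hcon
    push Not at hcon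
    have hdec : ∀ i, i ≤ N → E (2 ^ i * A) ≤ Q - i * (γ * ε / 2) := by
      intro i
      induction i with
      | zero => intro _; simpa using hEA
      | succ i ih =>
        intro hi
        have h1 := ih (by omega)
        have h2 := hcon i (by omega)
        have hle : 2 ^ i * A ≤ 2 ^ (i + 1) * A := by
          rw [pow_succ]; nlinarith [Nat.one_le_two_pow (n := i)]
        have hA2 : A ≤ 2 ^ i * A := by
          have := Nat.one_le_two_pow (n := i)
          nlinarith
        have hR2 : 2 ^ (i + 1) * A ≤ R := by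
          have h5 : 2 ^ (i + 1) ≤ 2 ^ (N + 2) := Nat.pow_le_pow_right (by norm_num) (by omega)
          calc 2 ^ (i + 1) * A ≤ 2 ^ (N + 2) * A := Nat.mul_le_mul_right _ h5
            _ ≤ R := hR
        have h3 := hw.energy hk hγ.le hA2 hle hR2
        have h4 : ((2 ^ (i + 1) * A : ℕ) : ℝ) - ((2 ^ i * A : ℕ) : ℝ) = 2 ^ (i + 1) * A / 2 := by
          push_cast
          rw [pow_succ]
          ring
        rw [h4] at h3
        have h6 : γ * (2 ^ (i + 1) * A / 2) * p (2 ^ (i + 1) * A)
            = γ / 2 * ((2 ^ (i + 1) * A : ℝ) * p (2 ^ (i + 1) * A)) := by ring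
        rw [h6] at h3
        have h7 : γ / 2 * ε ≤ γ / 2 * ((2 ^ (i + 1) * A : ℝ) * p (2 ^ (i + 1) * A)) := by
          apply mul_le_mul_of_nonneg_left h2.le
          positivity
        simp only [hE] at h1 ⊢
        push_cast
        linarith
    have h1 := hdec N le_rfl
    have h2 := hE0 (2 ^ N * A)
    linarith
  obtain ⟨i, hi, hpi⟩ := hpig
  set n := 2 ^ (i + 1) * A with hn
  have hAn : A ≤ n := by
    have := Nat.one_le_two_pow (n := i + 1)
    rw [hn]
    nlinarith
  have hnR : 2 * n ≤ R := by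
    have h5 : 2 ^ (i + 2) ≤ 2 ^ (N + 2) := Nat.pow_le_pow_right (by norm_num) (by omega)
    calc 2 * n = 2 ^ (i + 2) * A := by rw [hn]; ring
      _ ≤ 2 ^ (N + 2) * A := Nat.mul_le_mul_right _ h5
      _ ≤ R := hR
  have hpi' : (n:ℝ) * p n ≤ ε := by
    rw [hn]
    push_cast
    exact hpi
  have hn1 : (A:ℝ) ≤ n := by exact_mod_cast hAn
  -- the energy at time `n` is small
  have hEn : E n ≤ κ := by
    have h1 : H n * p n ≤ κ / 2 := by
      calc H n * p n ≤ n * p n :=
            mul_le_mul_of_nonneg_right ((hHA n).trans hn1) (hk.p_nonneg n)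
        _ ≤ ε := hpi'
        _ ≤ κ / 2 := min_le_left _ _
    have h2 : e n ^ 2 ≤ (κ / 2) ^ 2 := by
      calc e n ^ 2 ≤ p n * v n := hk.cs n
        _ ≤ p n * (K * n) := mul_le_mul_of_nonneg_left (hv n hAn (by omega)) (hk.p_nonneg n)
        _ = K * (n * p n) := by ring
        _ ≤ K * ε := mul_le_mul_of_nonneg_left hpi' hK0.le
        _ ≤ K * ((κ / 2) ^ 2 / K) := mul_le_mul_of_nonneg_left (min_le_right _ _) hK0.le
        _ = (κ / 2) ^ 2 := by field_simp
    have h3 : e n ≤ κ / 2 := (sq_le_sq₀ (hk.e_nonneg n) (by positivity)).mp h2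
    simp only [hE]
    linarith
  have h1 := hw.energy hk hγ.le hAn (by omega) (le_refl R)
  have h2 : (2:ℝ) * n ≤ R := by exact_mod_cast hnR
  have h3 := hk.p_nonneg R
  have h4 : 0 ≤ γ * (R - n) * p R := by
    have : (0:ℝ) ≤ R - n := by
      have : (0:ℝ) ≤ n := Nat.cast_nonneg n
      linarith
    positivity
  have h5 : e R ≤ κ := by
    have := mul_nonneg (hH0 R) h3
    simp only [hE] at hEn
    linarith
  have h6 : R * p R ≤ 2 / γ * κ := by
    have h7 : γ * (R - n) * p R ≤ κ := by
      have := hE0 R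
      simp only [hE] at hEn this
      linarith
    have h8 : γ / 2 * (R * p R) ≤ γ * (R - n) * p R := by
      have : (R:ℝ) / 2 ≤ R - n := by linarith
      have h9 : γ * (R / 2) * p R ≤ γ * (R - n) * p R := by gcongr
      linarith
    have h9 : γ / 2 * (R * p R) ≤ κ := h8.trans h7
    calc R * p R = 2 / γ * (γ / 2 * (R * p R)) := by field_simp
      _ ≤ 2 / γ * κ := by gcongr
  calc e R + R * p R ≤ κ + 2 / γ * κ := add_le_add h5 h6
    _ = κ * (1 + 2 / γ) := by ring
    _ = η := by rw [hκ]; field_simp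

end Pool.Agent.H87.Cookie
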