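import Mathlib

open MeasureTheory ProbabilityTheory Filter Topology Set
open scoped ENNReal

namespace Pool.Agent.H87.Cookie

section
variable {ι : Type*} [DecidableEq ι] {X : ι → Type*} [∀ i, MeasurableSpace (X i)]

lemma measurable_upd (i : ι) :
    Measurable (fun p : (∀ j, X j) × X i => Function.update p.1 i p.2) := by
  apply measurable_pi_lambda
  intro j
  by_cases h : j = i
  · subst h
    simp only [Function.update_self]
    exact measurable_snd
  · simp only [Function.update_of_ne h]
    exact (measurable_pi_apply j).comp measurable_fst

/-- resampling one coordinate does not change the law -/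
lemma map_upd (μ : ∀ i, Measure (X i)) [∀ i, IsProbabilityMeasure (μ i)] (i : ι) :
    ((Measure.infinitePi μ).prod (μ i)).map (fun p => Function.update p.1 i p.2)
      = Measure.infinitePi μ := by
  apply Measure.eq_infinitePi
  intro s t ht
  have hpi : MeasurableSet (Set.pi (s : Set ι) t) :=
    MeasurableSet.pi (Finset.countable_toSet s) (fun i _ => ht i)
  rw [Measure.map_apply (measurable_upd i) hpi]
  have hpre : (fun p : (∀ j, X j) × X i => Function.update p.1 i p.2) ⁻¹' (Set.pi (s : Set ι) t)
      = (Set.pi ((s.erase i : Finset ι) : Set ι) t) ×ˢ (if i ∈ s then t i else univ) := by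
    ext p
    simp only [mem_preimage, Set.mem_pi, Finset.mem_coe, mem_prod]
    constructor
    · intro h
      constructor
      · intro j hj
        rw [Finset.mem_erase] at hj
        have := h j hj.2
        rwa [Function.update_of_ne hj.1] at this
      · split_ifs with h0
        · have := h i h0
          rwa [Function.update_self] at this
        · trivial
    · rintro ⟨h0, h1⟩ j hj
      by_cases hji : j = i
      · subst hji
        rw [if_pos hj] at h1
        rwa [Function.update_self]
      · rw [Function.update_of_ne hji]
        exact h0 j (Finset.mem_erase.mpr ⟨hji, hj⟩)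
  rw [hpre, Measure.prod_prod, Measure.infinitePi_pi _ (fun i _ => ht i)]
  by_cases h0 : i ∈ s
  · rw [if_pos h0, mul_comm, Finset.mul_prod_erase s (fun i => μ i (t i)) h0]
  · rw [if_neg h0, measure_univ, mul_one, Finset.erase_eq_of_notMem h0]

lemma lintegral_upd (μ : ∀ i, Measure (X i)) [∀ i, IsProbabilityMeasure (μ i)] (i : ι)
    {f : (∀ j, X j) → ℝ≥0∞} (hf : Measurable f) :
    ∫⁻ U, f U ∂(Measure.infinitePi μ)
      = ∫⁻ U, ∫⁻ u, f (Function.update U i u) ∂(μ i) ∂(Measure.infinitePi μ) := by
  conv_lhs => rw [← map_upd μ i]
  rw [lintegral_map hf (measurable_upd i)]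
  exact lintegral_prod (fun p : (∀ j, X j) × X i => f (Function.update p.1 i p.2))
    (hf.comp (measurable_upd i)).aemeasurable

end

end Pool.Agent.H87.Cookie
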