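import Mathlib
import Pool.Agent.H87.Cookie.Moment
import Pool.Agent.H87.Cookie.Upd
import Pool.Agent.H87.Cookie.Seq

open MeasureTheory ProbabilityTheory Filter Topology Set
open scoped ENNReal

namespace Pool.Agent.H87.Cookie

/-- one step of the killed chain -/
noncomputable def stp (k : ℕ) (c : ℕ → Bool) : ℕ := if k = 0 then 0 else FF c (k + 1)

/-- the killed chain in a coin field -/
noncomputable def kb (a : ℕ → ℕ → Bool) : ℕ → ℕ
  | 0 => FF (a 0) 1
  | n + 1 => stp (kb a n) (a (n + 1))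

lemma measurable_stp : Measurable (fun p : ℕ × (ℕ → Bool) => stp p.1 p.2) := by
  apply measurable_from_prod_countable_right
  intro k
  unfold stp
  by_cases h : k = 0
  · simp only [h, if_true]
    exact measurable_const
  · simp only [h, if_false]
    exact measurable_FF (k + 1)

lemma measurable_kb (n : ℕ) : Measurable (fun a : ℕ → ℕ → Bool => kb a n) := by
  induction n with
  | zero => exact (measurable_FF 1).comp (measurable_pi_apply 0)
  | succ n ih => exact measurable_stp.comp (ih.prodMk (measurable_pi_apply (n + 1)))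

lemma kb_congr {a a' : ℕ → ℕ → Bool} {n : ℕ} (h : ∀ i ≤ n, a i = a' i) : kb a n = kb a' n := by
  induction n with
  | zero =>
    unfold kb
    rw [h 0 le_rfl]
  | succ n ih =>
    unfold kb
    rw [ih (fun i hi => h i (by omega)), h (n + 1) le_rfl]

/-- law of a one-sided field of uniform variables -/
noncomputable def nuW : Measure (ℕ → ℕ → ℝ) := Measure.infinitePi (fun _ => nuS)

instance instProbNuW : IsProbabilityMeasure nuW := by unfold nuW; infer_instance

/-- coins on the half line -/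
noncomputable def cf (w : ℕ → ℕ → ℝ) (U : ℕ → ℕ → ℝ) : ℕ → ℕ → Bool := fun n => coin (w n) (U n)

lemma measurable_cf (w : ℕ → ℕ → ℝ) : Measurable (cf w) := by
  apply measurable_pi_lambda
  intro n
  exact (measurable_coin (w n)).comp (measurable_pi_apply n)

/-- Markov property of the killed chain -/
lemma kb_step (w : ℕ → ℕ → ℝ) (G : ℕ → ℝ≥0∞) (n : ℕ) :
    ∫⁻ U, G (kb (cf w U) (n + 1)) ∂nuW
      = ∫⁻ U, (∫⁻ u, G (stp (kb (cf w U) n) (coin (w (n + 1)) u)) ∂nuS) ∂nuW := by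
  have hG : Measurable G := measurable_of_countable G
  have hm : Measurable (fun U => G (kb (cf w U) (n + 1))) :=
    hG.comp ((measurable_kb (n + 1)).comp (measurable_cf w))
  unfold nuW
  rw [lintegral_upd (fun _ => nuS) (n + 1) hm]
  apply lintegral_congr
  intro U
  apply lintegral_congr
  intro u
  congr 1
  show stp (kb (cf w (Function.update U (n + 1) u)) n)
    (coin (w (n + 1)) ((Function.update U (n + 1) u) (n + 1))) = _
  rw [Function.update_self]
  congr 1
  apply kb_congr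
  intro i hi
  unfold cf
  rw [Function.update_of_ne (by omega)]

lemma kb_zero (w : ℕ → ℕ → ℝ) (G : ℕ → ℝ≥0∞) :
    ∫⁻ U, G (kb (cf w U) 0) ∂nuW = ∫⁻ u, G (FF (coin (w 0) u) 1) ∂nuS := by
  have hG : Measurable G := measurable_of_countable G
  have h1 : nuW.map (fun U => U 0) = nuS := by
    unfold nuW
    exact Measure.infinitePi_map_eval _ 0
  have hm : Measurable (fun u => G (FF (coin (w 0) u) 1)) :=
    hG.comp ((measurable_FF 1).comp (measurable_coin _))
  rw [← h1, lintegral_map hm (measurable_pi_apply 0)]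
  rfl

/-- the data of a chain -/
structure ChainData (w : ℕ → ℕ → ℝ) (b : ℕ → ℝ) : Prop where
  stk : ∀ n, Stk (w n)
  drift : ∀ n, 3 - 2 * w n 0 - 2 * w n 1 = b n
  ge : ∀ n, -(1 / 12) ≤ b n
  le : ∀ n, b n ≤ 11 / 12
  start0 : 3 / 4 ≤ w 0 0
  start1 : 3 / 4 ≤ w 0 1

/-- survival probability -/
noncomputable def pE (w : ℕ → ℕ → ℝ) (n : ℕ) : ℝ≥0∞ :=
  ∫⁻ U, (if kb (cf w U) n = 0 then 0 else 1) ∂nuW

/-- mean -/
noncomputable def eE (w : ℕ → ℕ → ℝ) (n : ℕ) : ℝ≥0∞ := ∫⁻ U, (kb (cf w U) n : ℝ≥0∞) ∂nuW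

/-- second moment -/
noncomputable def vE (w : ℕ → ℕ → ℝ) (n : ℕ) : ℝ≥0∞ := ∫⁻ U, (kb (cf w U) n : ℝ≥0∞) ^ 2 ∂nuW

lemma meas_kb (w : ℕ → ℕ → ℝ) (G : ℕ → ℝ≥0∞) (n : ℕ) :
    Measurable (fun U => G (kb (cf w U) n)) :=
  (measurable_of_countable G).comp ((measurable_kb n).comp (measurable_cf w))

lemma pE_anti (w : ℕ → ℕ → ℝ) (n : ℕ) : pE w (n + 1) ≤ pE w n := by
  unfold pE
  apply lintegral_mono
  intro U
  simp only
  by_cases h : kb (cf w U) n = 0
  · have h2 : kb (cf w U) (n + 1) = 0 := by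
      show stp _ _ = 0
      unfold stp
      rw [if_pos h]
    rw [if_pos h, if_pos h2]
  · rw [if_neg h]
    split_ifs
    · exact zero_le_one
    · exact le_rfl

lemma pE_le_one (w : ℕ → ℕ → ℝ) (n : ℕ) : pE w n ≤ 1 := by
  unfold pE
  calc _ ≤ ∫⁻ _, (1 : ℝ≥0∞) ∂nuW := by
        apply lintegral_mono
        intro U
        simp only
        split_ifs
        · exact zero_le_one
        · exact le_rfl
    _ = 1 := by rw [lintegral_const, measure_univ, mul_one]

lemma eE_zero {w : ℕ → ℕ → ℝ} {b : ℕ → ℝ} (h : ChainData w b) : eE w 0 ≤ ENNReal.ofReal 1 := by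
  unfold eE
  rw [kb_zero w (fun k => (k : ℝ≥0∞))]
  exact E1_one (h.stk 0) h.start0 h.start1

lemma vE_zero {w : ℕ → ℕ → ℝ} {b : ℕ → ℝ} (h : ChainData w b) : vE w 0 ≤ ENNReal.ofReal 3 := by
  unfold vE
  rw [kb_zero w (fun k => (k : ℝ≥0∞) ^ 2)]
  exact E2_one (h.stk 0) h.start0 h.start1

lemma eE_step {w : ℕ → ℕ → ℝ} {b : ℕ → ℝ} (h : ChainData w b) (n : ℕ) :
    eE w (n + 1) + pE w n ≤ eE w n + ENNReal.ofReal (1 + b (n + 1)) * pE w n := by
  unfold eE pE
  rw [kb_step w (fun k => (k : ℝ≥0∞))]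
  have m1 := meas_kb w (fun k => if k = 0 then 0 else 1) n
  have m2 := meas_kb w (fun k => (k : ℝ≥0∞)) n
  rw [← lintegral_add_right _ m1, ← lintegral_const_mul _ m1,
    ← lintegral_add_right _ (m1.const_mul _)]
  apply lintegral_mono
  intro U
  simp only
  set k := kb (cf w U) n with hk
  by_cases h0 : k = 0
  · simp [h0, stp]
  · rw [if_neg h0]
    have h1 : ∀ u, ((stp k (coin (w (n + 1)) u) : ℕ) : ℝ≥0∞)
        = (FF (coin (w (n + 1)) u) (k + 1) : ℝ≥0∞) := by
      intro u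
      unfold stp
      rw [if_neg h0]
    rw [lintegral_congr h1]
    have h2 := E1_two (h.stk (n + 1)) (Z := k) (by omega)
    have h3 := h.drift (n + 1)
    have h4 := h.ge (n + 1)
    have hk1 : (1:ℝ) ≤ k := by exact_mod_cast (show 1 ≤ k by omega)
    have h5 : (k:ℝ) + 3 - 2 * w (n + 1) 0 - 2 * w (n + 1) 1 = k + b (n + 1) := by linarith
    rw [h5] at h2
    calc _ ≤ ENNReal.ofReal (k + b (n + 1)) + ENNReal.ofReal 1 := by
          rw [ENNReal.ofReal_one]
          gcongr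
          exact h2
      _ = ENNReal.ofReal (k + (1 + b (n + 1))) := by
          rw [← ENNReal.ofReal_add (by linarith) (by norm_num)]
          congr 1
          ring
      _ = _ := by
          rw [ENNReal.ofReal_add (by linarith) (by linarith), ENNReal.ofReal_natCast, mul_one]

lemma vE_step {w : ℕ → ℕ → ℝ} {b : ℕ → ℝ} (h : ChainData w b) (n : ℕ) :
    vE w (n + 1) ≤ vE w n + ENNReal.ofReal 19 * eE w n := by
  unfold vE eE
  rw [kb_step w (fun k => (k : ℝ≥0∞) ^ 2)]
  have m2 := meas_kb w (fun k => (k : ℝ≥0∞)) n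
  rw [← lintegral_const_mul _ m2, ← lintegral_add_right _ (m2.const_mul _)]
  apply lintegral_mono
  intro U
  simp only
  set k := kb (cf w U) n with hk
  by_cases h0 : k = 0
  · simp [h0, stp]
  · have h1 : ∀ u, ((stp k (coin (w (n + 1)) u) : ℕ) : ℝ≥0∞) ^ 2
        = (FF (coin (w (n + 1)) u) (k + 1) : ℝ≥0∞) ^ 2 := by
      intro u
      unfold stp
      rw [if_neg h0]
    rw [lintegral_congr h1]
    have h2 := E2_two (h.stk (n + 1)) (Z := k) (by omega)
    calc _ ≤ ENNReal.ofReal (k ^ 2 + 19 * k) := h2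
      _ = _ := by
          rw [ENNReal.ofReal_add (by positivity) (by positivity), ENNReal.ofReal_mul (by norm_num),
            ENNReal.ofReal_pow (by positivity), ENNReal.ofReal_natCast]

lemma fin_all {w : ℕ → ℕ → ℝ} {b : ℕ → ℝ} (h : ChainData w b) (n : ℕ) :
    eE w n ≠ ∞ ∧ vE w n ≠ ∞ := by
  induction n with
  | zero =>
    exact ⟨ne_top_of_le_ne_top ENNReal.ofReal_ne_top (eE_zero h),
      ne_top_of_le_ne_top ENNReal.ofReal_ne_top (vE_zero h)⟩
  | succ n ih =>
    have hp : pE w n ≠ ∞ := ne_top_of_le_ne_top ENNReal.one_ne_top (pE_le_one w n)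
    constructor
    · have h1 := eE_step h n
      have h2 : eE w n + ENNReal.ofReal (1 + b (n + 1)) * pE w n ≠ ∞ :=
        ENNReal.add_ne_top.mpr ⟨ih.1, ENNReal.mul_ne_top ENNReal.ofReal_ne_top hp⟩
      exact ne_top_of_le_ne_top h2 (le_self_add.trans h1)
    · have h2 : vE w n + ENNReal.ofReal 19 * eE w n ≠ ∞ :=
        ENNReal.add_ne_top.mpr ⟨ih.2, ENNReal.mul_ne_top ENNReal.ofReal_ne_top ih.1⟩
      exact ne_top_of_le_ne_top h2 (vE_step h n)

lemma cs_all (w : ℕ → ℕ → ℝ) (n : ℕ) : eE w n ^ 2 ≤ pE w n * vE w n := by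
  have m1 := meas_kb w (fun k => if k = 0 then 0 else 1) n
  have m2 := meas_kb w (fun k => (k : ℝ≥0∞)) n
  have hc : (2:ℝ).HolderConjugate 2 := Real.HolderConjugate.two_two
  have h := ENNReal.lintegral_mul_le_Lp_mul_Lq nuW hc m1.aemeasurable m2.aemeasurable
  have h1 : ∀ U, ((fun U => if kb (cf w U) n = 0 then (0:ℝ≥0∞) else 1)
      * (fun U => (kb (cf w U) n : ℝ≥0∞))) U = (kb (cf w U) n : ℝ≥0∞) := by
    intro U
    simp only [Pi.mul_apply]
    by_cases h0 : kb (cf w U) n = 0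
    · rw [if_pos h0, h0]; simp
    · rw [if_neg h0, one_mul]
  rw [lintegral_congr h1] at h
  have h2 : ∀ U, (if kb (cf w U) n = 0 then (0:ℝ≥0∞) else 1) ^ (2:ℝ)
      = if kb (cf w U) n = 0 then (0:ℝ≥0∞) else 1 := by
    intro U
    split_ifs <;> simp
  have h3 : ∀ U, ((kb (cf w U) n : ℝ≥0∞)) ^ (2:ℝ) = (kb (cf w U) n : ℝ≥0∞) ^ 2 := by
    intro U
    norm_cast
  rw [lintegral_congr h2, lintegral_congr h3] at h
  have h4 : eE w n ≤ (pE w n) ^ (1 / 2 : ℝ) * (vE w n) ^ (1 / 2 : ℝ) := h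
  calc eE w n ^ 2 ≤ ((pE w n) ^ (1 / 2 : ℝ) * (vE w n) ^ (1 / 2 : ℝ)) ^ 2 := by gcongr
    _ = pE w n * vE w n := by
      rw [mul_pow, ← ENNReal.rpow_natCast, ← ENNReal.rpow_natCast, ← ENNReal.rpow_mul,
        ← ENNReal.rpow_mul]
      norm_num

/-- real data -/
noncomputable def pR (w : ℕ → ℕ → ℝ) (n : ℕ) : ℝ := (pE w n).toReal
noncomputable def eR (w : ℕ → ℕ → ℝ) (n : ℕ) : ℝ := (eE w n).toReal
noncomputable def vR (w : ℕ → ℕ → ℝ) (n : ℕ) : ℝ := (vE w n).toReal

lemma pE_fin (w : ℕ → ℕ → ℝ) (n : ℕ) : pE w n ≠ ∞ :=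
  ne_top_of_le_ne_top ENNReal.one_ne_top (pE_le_one w n)

lemma eR_step {w : ℕ → ℕ → ℝ} {b : ℕ → ℝ} (h : ChainData w b) (n : ℕ) :
    eR w (n + 1) ≤ eR w n + b (n + 1) * pR w n := by
  have h1 := eE_step h n
  have hb := h.ge (n + 1)
  have h2 := ENNReal.toReal_mono (ENNReal.add_ne_top.mpr ⟨(fin_all h n).1,
    ENNReal.mul_ne_top ENNReal.ofReal_ne_top (pE_fin w n)⟩) h1
  rw [ENNReal.toReal_add (fin_all h (n + 1)).1 (pE_fin w n),
    ENNReal.toReal_add (fin_all h n).1 (ENNReal.mul_ne_top ENNReal.ofReal_ne_top (pE_fin w n)),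
    ENNReal.toReal_mul, ENNReal.toReal_ofReal (by linarith)] at h2
  unfold eR pR
  linarith

lemma kc_chain {w : ℕ → ℕ → ℝ} {b : ℕ → ℝ} (h : ChainData w b) : KC (pR w) (eR w) (vR w) where
  p_nonneg n := ENNReal.toReal_nonneg
  p_anti n := ENNReal.toReal_mono (pE_fin w n) (pE_anti w n)
  p_zero := by
    have := ENNReal.toReal_mono ENNReal.one_ne_top (pE_le_one w 0)
    rwa [ENNReal.toReal_one] at this
  e_nonneg n := ENNReal.toReal_nonneg
  e_zero := by
    have := ENNReal.toReal_mono ENNReal.ofReal_ne_top (eE_zero h)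
    rwa [ENNReal.toReal_ofReal (by norm_num)] at this
  e_growth n := by
    have h1 := eR_step h n
    have h2 := h.le (n + 1)
    have h3 : 0 ≤ pR w n := ENNReal.toReal_nonneg
    nlinarith
  v_zero := by
    have := ENNReal.toReal_mono ENNReal.ofReal_ne_top (vE_zero h)
    rwa [ENNReal.toReal_ofReal (by norm_num)] at this
  v_step n := by
    have h1 := ENNReal.toReal_mono (ENNReal.add_ne_top.mpr ⟨(fin_all h n).2,
      ENNReal.mul_ne_top ENNReal.ofReal_ne_top (fin_all h n).1⟩) (vE_step h n)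
    rw [ENNReal.toReal_add (fin_all h n).2
      (ENNReal.mul_ne_top ENNReal.ofReal_ne_top (fin_all h n).1), ENNReal.toReal_mul,
      ENNReal.toReal_ofReal (by norm_num)] at h1
    exact h1
  cs n := by
    have h1 := ENNReal.toReal_mono (ENNReal.mul_ne_top (pE_fin w n) (fin_all h n).2) (cs_all w n)
    rw [ENNReal.toReal_pow, ENNReal.toReal_mul] at h1
    exact h1

end Pool.Agent.H87.Cookie
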