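import Mathlib

open MeasureTheory Filter Topology Set
open scoped ENNReal

namespace Pool.Agent.H87.Cookie

/-- the 2-adic integers -/
abbrev Z2 := ℤ_[2]

noncomputable instance instMeasZ2 : MeasurableSpace Z2 := borel Z2

instance instBorelZ2 : BorelSpace Z2 := ⟨rfl⟩

/-- normalised Haar measure on the 2-adic integers -/
noncomputable def hz : Measure Z2 := Measure.addHaarMeasure ⊤

instance instProbHz : IsProbabilityMeasure hz := by
  constructor
  have h := Measure.addHaarMeasure_self (K₀ := (⊤ : TopologicalSpace.PositiveCompacts Z2))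
  simpa [hz] using h

instance instInvHz : hz.IsAddLeftInvariant := by unfold hz; infer_instance

instance instInvRHz : hz.IsAddRightInvariant := by unfold hz; infer_instance

lemma denseRange_zsmul_one : DenseRange (fun n : ℤ => n • (1 : Z2)) := by
  have h := PadicInt.denseRange_intCast (p := 2)
  have h2 : (fun n : ℤ => n • (1 : Z2)) = Int.cast := by
    funext n
    simp
  rw [h2]
  exact h

lemma ergodic_one : Ergodic (fun z : Z2 => 1 + z) hz := by
  exact ergodic_add_left_of_denseRange_zsmul denseRange_zsmul_one hz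

/-- residue modulo `2 ^ q` -/
noncomputable def res (q : ℕ) (z : Z2) : ℕ := (PadicInt.toZModPow q z).val

instance instNeZeroTwoPow (q : ℕ) : NeZero (2 ^ q) := ⟨by positivity⟩

lemma res_lt (q : ℕ) (z : Z2) : res q z < 2 ^ q := ZMod.val_lt _

lemma toZModPow_eq_of_norm {q : ℕ} {x y : Z2} (h : ‖x - y‖ ≤ (2:ℝ) ^ (-(q:ℤ))) :
    PadicInt.toZModPow q x = PadicInt.toZModPow q y := by
  have h1 : ‖x - y‖ ≤ ((2:ℕ):ℝ) ^ (-(q:ℤ)) := by exact_mod_cast h
  rw [PadicInt.norm_le_pow_iff_mem_span_pow] at h1
  have h2 : x - y ∈ RingHom.ker (PadicInt.toZModPow (p := 2) q) := by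
    rw [PadicInt.ker_toZModPow]
    exact_mod_cast h1
  have h3 := RingHom.mem_ker.mp h2
  rw [map_sub, sub_eq_zero] at h3
  exact h3

lemma isOpen_fiber (q : ℕ) (a : ZMod (2 ^ q)) :
    IsOpen {z : Z2 | PadicInt.toZModPow q z = a} := by
  rw [Metric.isOpen_iff]
  intro z hz
  refine ⟨(2:ℝ) ^ (-(q:ℤ)), by positivity, ?_⟩
  intro w hw
  rw [Metric.mem_ball, dist_eq_norm] at hw
  have := toZModPow_eq_of_norm hw.le
  rw [mem_ofPred_eq] at hz ⊢
  rw [this, hz]

lemma measurable_toZModPow (q : ℕ) : @Measurable Z2 (ZMod (2 ^ q)) _ ⊤ (PadicInt.toZModPow q) := by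
  intro s _
  have h : (PadicInt.toZModPow (p := 2) q) ⁻¹' s
      = ⋃ a ∈ s, {z : Z2 | PadicInt.toZModPow q z = a} := by
    ext z
    simp
  rw [h]
  exact (isOpen_biUnion fun a _ => isOpen_fiber q a).measurableSet

lemma measurable_res (q : ℕ) : Measurable (res q) := by
  unfold res
  exact (@measurable_from_top _ _ _ (fun a : ZMod (2 ^ q) => a.val)).comp (measurable_toZModPow q)

lemma res_eq_iff (q : ℕ) (z : Z2) (a : ℕ) (ha : a < 2 ^ q) :
    res q z = a ↔ PadicInt.toZModPow q z = (a : ZMod (2 ^ q)) := by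
  unfold res
  constructor
  · intro h
    rw [← h, ZMod.natCast_zmod_val]
  · intro h
    rw [h, ZMod.val_natCast, Nat.mod_eq_of_lt ha]

lemma res_sub_one (q : ℕ) (z : Z2) :
    res q (z - 1) = if res q z = 0 then 2 ^ q - 1 else res q z - 1 := by
  have hlt := res_lt q z
  have hpos : 0 < 2 ^ q := by positivity
  split_ifs with h
  · rw [res_eq_iff q _ _ (by omega)]
    rw [res_eq_iff q _ _ hpos] at h
    rw [map_sub, map_one, h]
    push_cast [Nat.cast_sub (show 1 ≤ 2 ^ q from hpos)]
    have : ((2:ZMod (2 ^ q)) ^ q) = 0 := by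
      have := ZMod.natCast_self (2 ^ q)
      push_cast at this
      exact this
    rw [this]
  · rw [res_eq_iff q _ _ (by omega), map_sub, map_one]
    have h1 : PadicInt.toZModPow q z = ((res q z : ℕ) : ZMod (2 ^ q)) := by
      unfold res
      rw [ZMod.natCast_zmod_val]
    rw [h1, Nat.cast_sub (by omega)]
    simp

lemma hz_fiber (q : ℕ) (a : ℕ) (ha : a < 2 ^ q) :
    hz {z | res q z = a} = ((2:ℝ≥0∞) ^ q)⁻¹ := by
  have key : ∀ b : ℕ, b < 2 ^ q → hz {z | res q z = b} = hz {z | res q z = 0} := by
    intro b hb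
    have h1 : {z : Z2 | res q z = b} = (fun z => (-(b : Z2)) + z) ⁻¹' {z | res q z = 0} := by
      ext z
      simp only [mem_ofPred_eq, mem_preimage]
      rw [res_eq_iff q _ _ hb, res_eq_iff q _ _ (by positivity)]
      rw [map_add, map_neg, map_natCast]
      constructor
      · intro h
        rw [h]
        simp
      · intro h
        have := eq_neg_of_add_eq_zero_right (by simpa using h)
        simpa using this
    rw [h1, measure_preimage_add]
  have hsum : ∑ b ∈ Finset.range (2 ^ q), hz {z | res q z = b} = 1 := by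
    rw [← measure_biUnion_finset]
    · have : (⋃ b ∈ Finset.range (2 ^ q), {z : Z2 | res q z = b}) = univ := by
        rw [eq_univ_iff_forall]
        intro z
        simp only [Finset.mem_range, mem_iUnion, mem_ofPred_eq, exists_prop, exists_eq_right']
        exact res_lt q z
      rw [this, measure_univ]
    · intro b _ c _ hbc
      rw [Function.onFun, Set.disjoint_left]
      intro z hz hz'
      exact hbc (hz.symm.trans hz')
    · intro b _
      exact measurable_res q (measurableSet_singleton b)
  rw [Finset.sum_congr rfl (fun b hb => key b (Finset.mem_range.mp hb)), Finset.sum_const,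
    Finset.card_range, nsmul_eq_mul] at hsum
  rw [key a ha]
  push_cast at hsum
  exact (ENNReal.eq_inv_of_mul_eq_one_left (by rw [mul_comm]; exact hsum))

lemma hz_res_lt (q l : ℕ) (hl : l ≤ 2 ^ q) : hz {z | res q z < l} = l * ((2:ℝ≥0∞) ^ q)⁻¹ := by
  have h1 : {z : Z2 | res q z < l} = ⋃ b ∈ Finset.range l, {z : Z2 | res q z = b} := by
    ext z
    simp
  rw [h1, measure_biUnion_finset]
  · rw [Finset.sum_congr rfl (fun b hb => hz_fiber q b
      (lt_of_lt_of_le (Finset.mem_range.mp hb) hl)), Finset.sum_const, Finset.card_range,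
      nsmul_eq_mul]
  · intro b _ c _ hbc
    rw [Function.onFun, Set.disjoint_left]
    intro z hz hz'
    exact hbc (hz.symm.trans hz')
  · intro b _
    exact measurable_res q (measurableSet_singleton b)

end Pool.Agent.H87.Cookie
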