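import Mathlib
import Pool.Agent.H87.Cookie.Seq

open Finset

namespace Pool.Agent.H87.Cookie

/-- effective drifts -/
noncomputable def gam (j : ℕ) : ℝ := (1 / 4) ^ j / 12

lemma gam_pos (j : ℕ) : 0 < gam j := by unfold gam; positivity

/-- targets -/
noncomputable def eta (j : ℕ) : ℝ := gam (j + 1) * (1 / 2) ^ j

lemma eta_pos (j : ℕ) : 0 < eta j := by
  unfold eta
  have := gam_pos (j + 1)
  positivity

/-- decay property from `A` to `R` at level `j` -/
def Dec (A R j : ℕ) : Prop := ∀ p e v H : ℕ → ℝ, KC p e v →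
  (∀ n, 0 ≤ H n) → (∀ n, H n ≤ A) → Win p e H A R (gam j) → e R + R * p R ≤ eta j

lemma exists_scale (j A : ℕ) (hA : 1 ≤ A) : ∃ k : ℕ, A < 2 ^ k ∧ Dec A (2 ^ k) j := by
  obtain ⟨R₀, hR₀, h⟩ := decay A hA (gam_pos j) (eta_pos j)
  obtain ⟨k, hk⟩ := pow_unbounded_of_one_lt R₀ (show 1 < 2 by norm_num)
  refine ⟨k, lt_of_le_of_lt hR₀ hk, ?_⟩
  intro p e v H hk' h0 h1 hw
  exact h (2 ^ k) hk.le p e v H hk' h0 h1 hw

/-- the exponents of the scales -/
noncomputable def mm : ℕ → ℕ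
  | 0 => (exists_scale 0 1 le_rfl).choose
  | j + 1 => (exists_scale (j + 1) (2 ^ mm j) Nat.one_le_two_pow).choose

lemma mm_zero : 1 < 2 ^ mm 0 ∧ Dec 1 (2 ^ mm 0) 0 := (exists_scale 0 1 le_rfl).choose_spec

lemma mm_succ (j : ℕ) : 2 ^ mm j < 2 ^ mm (j + 1) ∧ Dec (2 ^ mm j) (2 ^ mm (j + 1)) (j + 1) :=
  (exists_scale (j + 1) (2 ^ mm j) Nat.one_le_two_pow).choose_spec

lemma mm_strictMono : StrictMono mm := by
  apply strictMono_nat_of_lt_succ
  intro j
  exact (Nat.pow_lt_pow_iff_right (by norm_num)).mp (mm_succ j).1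

/-- start of the window of level `j` -/
noncomputable def AA (j : ℕ) : ℕ := match j with
  | 0 => 1
  | j + 1 => 2 ^ mm j

lemma AA_pos (j : ℕ) : 1 ≤ AA j := by
  cases j with
  | zero => exact le_rfl
  | succ j => exact Nat.one_le_two_pow

lemma AA_lt (j : ℕ) : AA j < 2 ^ mm j := by
  cases j with
  | zero => exact mm_zero.1
  | succ j => exact (mm_succ j).1

lemma AA_dec (j : ℕ) : Dec (AA j) (2 ^ mm j) j := by
  cases j with
  | zero => exact mm_zero.2
  | succ j => exact (mm_succ j).2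

/-- Total bound of the expected lifetime. -/
lemma sum_p_le {p e v : ℕ → ℝ} (hk : KC p e v) (H : ℕ → ℕ → ℝ) (hH0 : ∀ j n, 0 ≤ H j n)
    (hHA : ∀ j n, H j n ≤ AA j) (hw : ∀ j, Win p e (H j) (AA j) (2 ^ mm j) (gam j)) (N : ℕ) :
    ∑ n ∈ range N, p n ≤ 39 := by
  have hdec : ∀ j, e (2 ^ mm j) + (2 ^ mm j : ℕ) * p (2 ^ mm j) ≤ eta j := fun j =>
    AA_dec j p e v (H j) hk (hH0 j) (hHA j) (hw j)
  have hsum : ∀ j, ∑ n ∈ Ico (AA j) (2 ^ mm j), p n ≤ (e (AA j) + AA j * p (AA j)) / gam j := by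
    intro j
    have h1 := (hw j).sum_le hk (hH0 j) (AA_lt j).le
    rw [le_div_iff₀ (gam_pos j)]
    have h2 : H j (AA j) * p (AA j) ≤ AA j * p (AA j) :=
      mul_le_mul_of_nonneg_right (hHA j _) (hk.p_nonneg _)
    linarith
  have key : ∀ j, ∑ n ∈ range (2 ^ mm j), p n ≤ 37 + (2 - 2 * (1 / 2) ^ j) := by
    intro j
    induction j with
    | zero =>
      have h1 := hsum 0
      have h2 : range (2 ^ mm 0) = range 1 ∪ Ico 1 (2 ^ mm 0) := by
        rw [range_eq_Ico, range_eq_Ico, Ico_union_Ico_eq_Ico (by norm_num) mm_zero.1.le]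
      rw [h2, sum_union (by
        rw [range_eq_Ico]
        exact Ico_disjoint_Ico_consecutive 0 1 _)]
      have h3 := hk.p_zero
      have h4 := hk.e_le 1
      have h5 := hk.p_le_one 1
      have h6 : (e (AA 0) + AA 0 * p (AA 0)) / gam 0 ≤ 36 := by
        have : AA 0 = 1 := rfl
        rw [this]
        unfold gam
        rw [div_le_iff₀ (by norm_num)]
        push_cast at h4 ⊢
        linarith
      have h7 : AA 0 = 1 := rfl
      rw [h7] at h1 h6
      simp only [range_one, sum_singleton, pow_zero]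
      linarith
    | succ j ih =>
      have h1 := hsum (j + 1)
      have h7 : AA (j + 1) = 2 ^ mm j := rfl
      rw [h7] at h1
      have h2 : range (2 ^ mm (j + 1)) = range (2 ^ mm j) ∪ Ico (2 ^ mm j) (2 ^ mm (j + 1)) := by
        rw [range_eq_Ico, range_eq_Ico, Ico_union_Ico_eq_Ico (by positivity) (mm_succ j).1.le]
      rw [h2, sum_union (by
        rw [range_eq_Ico]
        exact Ico_disjoint_Ico_consecutive 0 _ _)]
      have h3 := hdec j
      have h4 : (e (2 ^ mm j) + (2 ^ mm j : ℕ) * p (2 ^ mm j)) / gam (j + 1) ≤ (1 / 2) ^ j := by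
        rw [div_le_iff₀ (gam_pos _)]
        unfold eta at h3
        linarith
      rw [pow_succ]
      linarith
  have hN : N ≤ 2 ^ mm N := by
    have h1 : N ≤ mm N := mm_strictMono.id_le N
    exact h1.trans (Nat.lt_two_pow_self).le
  calc ∑ n ∈ range N, p n ≤ ∑ n ∈ range (2 ^ mm N), p n := by
        apply sum_le_sum_of_subset_of_nonneg (range_mono hN)
        intro i _ _
        exact hk.p_nonneg i
    _ ≤ 37 + (2 - 2 * (1 / 2) ^ N) := key N
    _ ≤ 39 := by
        have : (0:ℝ) < (1 / 2) ^ N := by positivity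
        linarith

end Pool.Agent.H87.Cookie
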