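import Mathlib
import Pool.Agent.H87.Cookie.Scale
import Pool.Agent.H87.Cookie.Odo

open MeasureTheory Filter Topology Set
open scoped ENNReal

namespace Pool.Agent.H87.Cookie

/-- exponent of the period of level `j` -/
noncomputable def qq (j : ℕ) : ℕ := mm j + j + 3

/-- length of the blocks of level `j` -/
noncomputable def ell (j : ℕ) : ℕ := 2 ^ mm j

lemma ell_pos (j : ℕ) : 0 < ell j := by unfold ell; positivity

lemma two_pow_qq (j : ℕ) : 2 ^ qq j = ell j * 2 ^ (j + 3) := by
  unfold qq ell
  rw [← pow_add]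
  congr 1

lemma ell_strictMono : StrictMono ell := by
  intro i j hij
  exact (Nat.pow_lt_pow_iff_right (by norm_num)).mpr (mm_strictMono hij)

/-- block of level `j` -/
def blk (j : ℕ) : Set Z2 := {z | res (qq j) z < ell j}

/-- term of level `j` -/
noncomputable def lev (j : ℕ) (z : Z2) : ℝ := if res (qq j) z < ell j then (1 / 2) ^ (j + 1) else 0

/-- the local drift of the backward chain -/
noncomputable def bz (z : Z2) : ℝ := -(1 / 12) + ∑' j, lev j z

/-- the sites where new excursions can start -/
def good : Set Z2 := {z | ∀ j, 2 * ell j ≤ res (qq j) z}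

lemma lev_nonneg (j : ℕ) (z : Z2) : 0 ≤ lev j z := by
  unfold lev; split_ifs <;> positivity

lemma lev_le (j : ℕ) (z : Z2) : lev j z ≤ (1 / 2) ^ (j + 1) := by
  unfold lev; split_ifs
  · exact le_rfl
  · positivity

lemma hasSum_half : HasSum (fun j : ℕ => ((1:ℝ) / 2) ^ (j + 1)) 1 := by
  have h := (hasSum_geometric_of_lt_one (r := (1:ℝ)/2) (by norm_num) (by norm_num)).mul_left (1/2)
  have h2 : (1:ℝ) / 2 * (1 - 1 / 2)⁻¹ = 1 := by norm_num
  rw [h2] at h
  have h3 : (fun j : ℕ => ((1:ℝ) / 2) ^ (j + 1)) = fun j : ℕ => 1 / 2 * (1 / 2) ^ j := by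
    funext j
    rw [pow_succ]
    ring
  rw [h3]
  exact h

lemma summable_lev (z : Z2) : Summable (fun j => lev j z) :=
  Summable.of_nonneg_of_le (fun j => lev_nonneg j z) (fun j => lev_le j z) hasSum_half.summable

lemma bz_ge (z : Z2) : -(1 / 12) ≤ bz z := by
  unfold bz
  have : 0 ≤ ∑' j, lev j z := tsum_nonneg (fun j => lev_nonneg j z)
  linarith

lemma bz_le (z : Z2) : bz z ≤ 11 / 12 := by
  unfold bz
  have := (summable_lev z).tsum_le_tsum (fun j => lev_le j z) hasSum_half.summable
  rw [hasSum_half.tsum_eq] at this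
  linarith

lemma measurable_lev (j : ℕ) : Measurable (lev j) := by
  unfold lev
  exact Measurable.ite (measurable_res (qq j) measurableSet_Iio) measurable_const measurable_const

lemma measurable_bz : Measurable bz := by
  unfold bz
  apply Measurable.const_add
  have h : Tendsto (fun n : ℕ => fun z => ∑ j ∈ Finset.range n, lev j z) atTop
      (𝓝 (fun z => ∑' j, lev j z)) := by
    rw [tendsto_pi_nhds]
    intro z
    exact (summable_lev z).hasSum.tendsto_sum_nat
  exact measurable_of_tendsto_metrizable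
    (fun n => Finset.measurable_fun_sum _ (fun j _ => measurable_lev j)) h

lemma integral_lev (j : ℕ) : ∫ z, lev j z ∂hz = (1 / 4) ^ j / 16 := by
  have hm : MeasurableSet {z | res (qq j) z < ell j} := measurable_res (qq j) measurableSet_Iio
  have h1 : lev j = ({z | res (qq j) z < ell j}).indicator (fun _ => ((1:ℝ) / 2) ^ (j + 1)) := by
    funext z
    unfold lev
    by_cases h : res (qq j) z < ell j
    · rw [indicator_of_mem (show z ∈ {z | res (qq j) z < ell j} from h), if_pos h]
    · rw [indicator_of_notMem (show z ∉ {z | res (qq j) z < ell j} from h), if_neg h]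
  have hle : ell j ≤ 2 ^ qq j := by
    rw [two_pow_qq]
    exact Nat.le_mul_of_pos_right _ (by positivity)
  rw [h1, integral_indicator hm, setIntegral_const, smul_eq_mul, measureReal_def,
    hz_res_lt (qq j) (ell j) hle]
  have h2 : ((ell j : ℝ≥0∞) * (2 ^ qq j)⁻¹).toReal = 1 / 2 ^ (j + 3) := by
    rw [ENNReal.toReal_mul, ENNReal.toReal_inv, ENNReal.toReal_pow, ENNReal.toReal_natCast]
    have h3 : ((2:ℝ≥0∞)).toReal = 2 := by norm_num
    have h4 : (2:ℝ) ^ qq j = ell j * 2 ^ (j + 3) := by exact_mod_cast two_pow_qq j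
    have h5 : (0:ℝ) < ell j := by exact_mod_cast ell_pos j
    rw [h3, h4]
    field_simp
  rw [h2]
  have h6 : ((1:ℝ) / 4) ^ j = (1 / 2) ^ j * (1 / 2) ^ j := by
    rw [← mul_pow]; norm_num
  rw [h6]
  rw [pow_add (2:ℝ) j 3, pow_succ ((1:ℝ)/2) j, one_div_pow]
  field_simp
  norm_num

lemma integral_bz : ∫ z, bz z ∂hz = 0 := by
  unfold bz
  have hint : ∀ j, Integrable (lev j) hz := by
    intro j
    apply Integrable.of_bound (C := (1 / 2) ^ (j + 1)) (measurable_lev j).aestronglyMeasurable
    filter_upwards with z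
    rw [Real.norm_of_nonneg (lev_nonneg j z)]
    exact lev_le j z
  have hI : Integrable (fun z => ∑' j, lev j z) hz := by
    have h0 : (fun z => ∑' j, lev j z) = fun z => bz z + 1 / 12 := by
      funext z; unfold bz; ring
    rw [h0]
    apply Integrable.add _ (integrable_const _)
    apply Integrable.of_bound (C := 1) measurable_bz.aestronglyMeasurable
    filter_upwards with z
    rw [Real.norm_eq_abs, abs_le]
    have := bz_ge z
    have := bz_le z
    constructor <;> linarith
  rw [integral_add (integrable_const _) hI]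
  have h1 : ∫ z, ∑' j, lev j z ∂hz = ∑' j, ∫ z, lev j z ∂hz := by
    symm
    apply integral_tsum_of_summable_integral_norm hint
    apply Summable.of_nonneg_of_le (fun j => integral_nonneg (fun z => norm_nonneg _)) _
      hasSum_half.summable
    intro j
    calc ∫ z, ‖lev j z‖ ∂hz ≤ ∫ _, ((1:ℝ) / 2) ^ (j + 1) ∂hz := by
          apply integral_mono (hint j).norm (integrable_const _)
          intro z
          simp only
          rw [Real.norm_of_nonneg (lev_nonneg j z)]
          exact lev_le j z
      _ = (1 / 2) ^ (j + 1) := by simp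
  rw [h1]
  simp_rw [integral_lev]
  rw [tsum_div_const, tsum_geometric_of_lt_one (by norm_num) (by norm_num)]
  simp only [integral_const, probReal_univ, smul_eq_mul, one_mul]
  norm_num

lemma measurableSet_good : MeasurableSet good := by
  have : good = ⋂ j, {z | 2 * ell j ≤ res (qq j) z} := by
    ext z; simp [good]
  rw [this]
  exact MeasurableSet.iInter fun j => measurable_res (qq j) measurableSet_Ici

lemma hz_good_pos : 0 < hz good := by
  have hc : hz goodᶜ ≤ ENNReal.ofReal (1 / 2) := by
    have h1 : goodᶜ = ⋃ j, {z | res (qq j) z < 2 * ell j} := by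
      ext z; simp [good]
    rw [h1]
    refine (measure_iUnion_le _).trans ?_
    have h2 : ∀ j, hz {z | res (qq j) z < 2 * ell j} = ENNReal.ofReal ((1 / 2) ^ (j + 1) * (1 / 2)) := by
      intro j
      have hle : 2 * ell j ≤ 2 ^ qq j := by
        rw [two_pow_qq, mul_comm]
        apply Nat.mul_le_mul_left
        calc 2 = 2 ^ 1 := by norm_num
          _ ≤ 2 ^ (j + 3) := Nat.pow_le_pow_right (by norm_num) (by omega)
      rw [hz_res_lt _ _ hle]
      rw [← ENNReal.ofReal_toReal (a := ((2 * ell j : ℕ) : ℝ≥0∞) * (2 ^ qq j)⁻¹)]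
      · congr 1
        rw [ENNReal.toReal_mul, ENNReal.toReal_inv, ENNReal.toReal_pow, ENNReal.toReal_natCast]
        have h3 : ((2:ℝ≥0∞)).toReal = 2 := by norm_num
        have h4 : (2:ℝ) ^ qq j = ell j * 2 ^ (j + 3) := by exact_mod_cast two_pow_qq j
        have h5 : (0:ℝ) < ell j := by exact_mod_cast ell_pos j
        rw [h3, h4, one_div_pow]
        push_cast
        rw [pow_add, pow_succ]
        field_simp
        rw [pow_succ]
        ring
      · apply ENNReal.mul_ne_top (ENNReal.natCast_ne_top _)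
        rw [Ne, ENNReal.inv_eq_top]
        positivity
    simp_rw [h2]
    rw [← ENNReal.ofReal_tsum_of_nonneg]
    · rw [tsum_mul_right, hasSum_half.tsum_eq, one_mul]
    · intro j; positivity
    · exact hasSum_half.summable.mul_right _
  by_contra h
  rw [not_lt, nonpos_iff_eq_zero] at h
  have h1 : hz good + hz goodᶜ = 1 := by
    rw [prob_add_prob_compl measurableSet_good]
  rw [h, zero_add] at h1
  rw [h1] at hc
  have : ENNReal.ofReal (1/2) < 1 := by
    rw [← ENNReal.ofReal_one]
    exact (ENNReal.ofReal_lt_ofReal_iff (by norm_num)).mpr (by norm_num)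
  exact absurd hc (not_le.mpr this)

/-- no block of level `≥ j` is met before time `ell j` when starting from a good site -/
lemma good_far {z : Z2} (hz : z ∈ good) {i n : ℕ} (hn : n + 1 ≤ ell i) :
    ¬ res (qq i) (z - (n + 1 : ℕ)) < ell i := by
  have h0 := hz i
  have key : ∀ k : ℕ, k ≤ ell i → res (qq i) (z - (k : ℕ)) = res (qq i) z - k := by
    intro k
    induction k with
    | zero => intro _; simp
    | succ k ih =>
      intro hk
      have h1 := ih (by omega)
      have h2 : z - ((k + 1 : ℕ) : Z2) = (z - (k : ℕ)) - 1 := by push_cast; ring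
      rw [h2, res_sub_one, h1, if_neg (by omega)]
      omega
  rw [key (n + 1) hn]
  omega

lemma bz_good {z : Z2} (h : z ∈ good) : bz z = -(1 / 12) := by
  unfold bz
  have h1 : ∀ j, lev j z = 0 := by
    intro j
    unfold lev
    rw [if_neg]
    have := h j
    have := ell_pos j
    omega
  simp [h1]

/-! ### the coboundary -/

/-- the density of the blocks of level `j` -/
noncomputable def tht (j : ℕ) : ℝ := (1 / 2) ^ (j + 3)

/-- coboundary function of level `j` -/
noncomputable def hh (j : ℕ) (r : ℕ) : ℝ := min ((r : ℝ) + 1) (ell j) - tht j * (r + 1)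

lemma tht_mul (j : ℕ) : tht j * (2:ℝ) ^ qq j = ell j := by
  have h4 : (2:ℝ) ^ qq j = ell j * 2 ^ (j + 3) := by exact_mod_cast two_pow_qq j
  unfold tht
  rw [h4, one_div_pow]
  field_simp

lemma tht_pos (j : ℕ) : 0 < tht j := by unfold tht; positivity

lemma hh_nonneg (j : ℕ) {r : ℕ} (hr : r < 2 ^ qq j) : 0 ≤ hh j r := by
  unfold hh
  have h1 : ((r:ℝ) + 1) ≤ 2 ^ qq j := by exact_mod_cast hr
  have h2 := tht_mul j
  have h3 : tht j ≤ 1 := by
    unfold tht
    exact pow_le_one₀ (by norm_num) (by norm_num)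
  have h4 : tht j * (r + 1) ≤ ell j := by
    rw [← h2]
    exact mul_le_mul_of_nonneg_left h1 (tht_pos j).le
  have h5 : tht j * (r + 1) ≤ r + 1 := mul_le_of_le_one_left (by positivity) h3
  rw [sub_nonneg]
  exact le_min h5 h4

lemma hh_le (j r : ℕ) : hh j r ≤ ell j := by
  unfold hh
  have h1 : min ((r:ℝ) + 1) (ell j) ≤ ell j := min_le_right _ _
  have h2 : 0 ≤ tht j * (r + 1) := mul_nonneg (tht_pos j).le (by positivity)
  linarith

lemma hh_step (j : ℕ) (z : Z2) :
    hh j (res (qq j) z) - hh j (res (qq j) (z - 1))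
      = (if res (qq j) z < ell j then 1 else 0) - tht j := by
  rw [res_sub_one]
  have hlt := res_lt (qq j) z
  set r := res (qq j) z with hr
  have hell := ell_pos j
  have hq : ell j ≤ 2 ^ qq j := by
    rw [two_pow_qq]
    exact Nat.le_mul_of_pos_right _ (by positivity)
  unfold hh
  by_cases h0 : r = 0
  · rw [if_pos h0, h0, if_pos hell]
    have h1 : (((2 ^ qq j - 1 : ℕ)) : ℝ) + 1 = 2 ^ qq j := by
      rw [Nat.cast_sub (by omega)]
      push_cast
      ring
    rw [h1]
    have h2 : min ((2:ℝ) ^ qq j) (ell j) = ell j := by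
      apply min_eq_right
      exact_mod_cast hq
    have h3 : min (((0:ℕ):ℝ) + 1) (ell j) = 1 := by
      rw [Nat.cast_zero, zero_add]
      apply min_eq_left
      exact_mod_cast hell
    rw [h2, h3, tht_mul]
    push_cast
    ring
  · rw [if_neg h0]
    have h1 : (((r - 1 : ℕ)) : ℝ) + 1 = r := by
      rw [Nat.cast_sub (by omega)]
      push_cast
      ring
    rw [h1]
    by_cases h2 : r < ell j
    · rw [if_pos h2]
      have h3 : min ((r:ℝ) + 1) (ell j) = r + 1 := by
        apply min_eq_left
        exact_mod_cast h2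
      have h4 : min (r:ℝ) (ell j) = r := by
        apply min_eq_left
        exact_mod_cast h2.le
      rw [h3, h4]
      ring
    · rw [if_neg h2]
      have h3 : min ((r:ℝ) + 1) (ell j) = ell j := by
        apply min_eq_right
        have : ell j ≤ r := by omega
        have : (ell j : ℝ) ≤ r := by exact_mod_cast this
        linarith
      have h4 : min (r:ℝ) (ell j) = ell j := by
        apply min_eq_right
        have : ell j ≤ r := by omega
        exact_mod_cast this
      rw [h3, h4]
      ring

/-- the coboundary at level `j` along the path to the left of `z` -/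
noncomputable def HH (z : Z2) (j n : ℕ) : ℝ :=
  ∑ i ∈ Finset.range j, (1 / 2) ^ (i + 1) * hh i (res (qq i) (z - (n + 1 : ℕ)))

lemma HH_nonneg (z : Z2) (j n : ℕ) : 0 ≤ HH z j n := by
  unfold HH
  apply Finset.sum_nonneg
  intro i _
  have := hh_nonneg i (res_lt (qq i) (z - (n + 1 : ℕ)))
  positivity

lemma sum_half_lt (j : ℕ) : ∑ i ∈ Finset.range j, ((1:ℝ) / 2) ^ (i + 1) ≤ 1 := by
  have h := hasSum_half.summable.sum_le_tsum (Finset.range j) (fun i _ => by positivity)
  rw [hasSum_half.tsum_eq] at h
  exact h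

lemma HH_le (z : Z2) (j n : ℕ) : HH z j n ≤ AA j := by
  unfold HH
  cases j with
  | zero => simp
  | succ j =>
    have h1 : (AA (j + 1) : ℝ) = ell j := rfl
    rw [h1]
    calc ∑ i ∈ Finset.range (j + 1), ((1:ℝ) / 2) ^ (i + 1) * hh i (res (qq i) (z - (n + 1 : ℕ)))
        ≤ ∑ i ∈ Finset.range (j + 1), ((1:ℝ) / 2) ^ (i + 1) * ell j := by
          apply Finset.sum_le_sum
          intro i hi
          have h2 : ell i ≤ ell j := ell_strictMono.monotone (by
            have := Finset.mem_range.mp hi; omega)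
          have h3 : (ell i : ℝ) ≤ ell j := by exact_mod_cast h2
          have h4 := (hh_le i (res (qq i) (z - (n + 1 : ℕ)))).trans h3
          exact mul_le_mul_of_nonneg_left h4 (by positivity)
      _ = (∑ i ∈ Finset.range (j + 1), ((1:ℝ) / 2) ^ (i + 1)) * ell j := by
          rw [Finset.sum_mul]
      _ ≤ 1 * ell j := by
          apply mul_le_mul_of_nonneg_right (sum_half_lt _)
          positivity
      _ = ell j := one_mul _

lemma gam_eq (j : ℕ) : gam j = 1 / 12 - ∑ i ∈ Finset.range j, (1 / 2) ^ (i + 1) * tht i := by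
  induction j with
  | zero => unfold gam; simp
  | succ j ih =>
    rw [Finset.sum_range_succ, ← sub_sub, ← ih]
    unfold gam tht
    have h6 : ((1:ℝ) / 4) ^ j = (1 / 2) ^ j * (1 / 2) ^ j := by
      rw [← mul_pow]; norm_num
    rw [pow_succ, h6, pow_succ ((1:ℝ)/2) j, pow_add ((1:ℝ)/2) j 3]
    ring

/-- the drift along the path to the left of a good point -/
lemma bz_path {z : Z2} (h : z ∈ good) (j : ℕ) {n : ℕ} (hn : n < 2 ^ mm j) :
    bz (z - (n + 1 : ℕ)) = -gam j + (HH z j n - HH z j (n + 1)) := by
  set w := z - ((n + 1 : ℕ) : Z2) with hw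
  have h1 : ∑' i, lev i w = ∑ i ∈ Finset.range j, lev i w := by
    apply tsum_eq_sum
    intro i hi
    rw [Finset.mem_range, not_lt] at hi
    unfold lev
    rw [if_neg]
    apply good_far h
    have h2 : ell j ≤ ell i := ell_strictMono.monotone hi
    have h3 : n < ell j := hn
    omega
  have h2 : ∀ i, lev i w = (1 / 2) ^ (i + 1) * (tht i
      + (hh i (res (qq i) w) - hh i (res (qq i) (w - 1)))) := by
    intro i
    rw [hh_step]
    unfold lev
    split_ifs <;> ring
  have h3 : z - ((n + 1 + 1 : ℕ) : Z2) = w - 1 := by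
    rw [hw]; push_cast; ring
  unfold bz HH
  rw [h1, gam_eq, h3, ← hw]
  simp_rw [h2, mul_add, mul_sub]
  rw [Finset.sum_add_distrib, Finset.sum_sub_distrib]
  ring

/-- the windows of all levels -/
lemma win_good {z : Z2} (h : z ∈ good) {p e v : ℕ → ℝ} (hk : KC p e v)
    (he : ∀ n, e (n + 1) ≤ e n + bz (z - (n + 1 : ℕ)) * p n) (j : ℕ) :
    Win p e (HH z j) (AA j) (2 ^ mm j) (gam j) := by
  intro n _ hn
  have h1 := he n
  rw [bz_path h j hn] at h1
  have h2 : HH z j (n + 1) * p (n + 1) ≤ HH z j (n + 1) * p n :=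
    mul_le_mul_of_nonneg_left (hk.p_anti n) (HH_nonneg z j _)
  nlinarith

/-- **Expected lifetime from a good site.** -/
theorem sum_good {z : Z2} (h : z ∈ good) {p e v : ℕ → ℝ} (hk : KC p e v)
    (he : ∀ n, e (n + 1) ≤ e n + bz (z - (n + 1 : ℕ)) * p n) (N : ℕ) :
    ∑ n ∈ Finset.range N, p n ≤ 39 :=
  sum_p_le hk (HH z) (HH_nonneg z) (HH_le z) (win_good h hk he) N

end Pool.Agent.H87.Cookie
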