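import Mathlib
import Pool.Agent.H87.Cookie.Chain
import Pool.Agent.H87.Cookie.Drift

open MeasureTheory ProbabilityTheory Filter Topology Set
open scoped ENNReal

namespace Pool.Agent.H87.Cookie

open Classical in
/-- the cookie stack attached to a point of the odometer -/
noncomputable def stack (z : Z2) : ℕ → ℝ := fun i =>
  if z ∈ good then (if i < 2 then (3 - bz z) / 4 else 1 / 2)
  else (if i = 0 then 1 else if i = 1 then (1 - bz z) / 2 else 1 / 2)

lemma stack_good {z : Z2} (h : z ∈ good) (i : ℕ) :
    stack z i = if i < 2 then (3 - bz z) / 4 else 1 / 2 := by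
  unfold stack
  rw [if_pos h]

lemma stack_bad {z : Z2} (h : z ∉ good) (i : ℕ) :
    stack z i = if i = 0 then 1 else if i = 1 then (1 - bz z) / 2 else 1 / 2 := by
  unfold stack
  rw [if_neg h]

lemma stk_stack (z : Z2) : Stk (stack z) := by
  have h1 := bz_ge z
  have h2 := bz_le z
  by_cases h : z ∈ good
  · constructor
    · intro i
      rw [stack_good h]
      split_ifs <;> linarith
    · intro i
      rw [stack_good h]
      split_ifs <;> linarith
    · intro i hi
      rw [stack_good h, if_neg (by omega)]
  · constructor
    · intro i
      rw [stack_bad h]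
      split_ifs <;> linarith
    · intro i
      rw [stack_bad h]
      split_ifs <;> linarith
    · intro i hi
      rw [stack_bad h, if_neg (by omega), if_neg (by omega)]

lemma stack_drift (z : Z2) : 3 - 2 * stack z 0 - 2 * stack z 1 = bz z := by
  by_cases h : z ∈ good
  · rw [stack_good h, stack_good h]
    norm_num
    ring
  · rw [stack_bad h, stack_bad h]
    norm_num
    ring

lemma measurable_stack (i : ℕ) : Measurable (fun z => stack z i) := by
  unfold stack
  apply Measurable.ite measurableSet_good
  · split_ifs
    · exact (measurable_const.sub measurable_bz).div_const 4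
    · exact measurable_const
  · split_ifs
    · exact measurable_const
    · exact (measurable_const.sub measurable_bz).div_const 2
    · exact measurable_const

lemma stack_good_pos {z : Z2} (h : z ∈ good) (i : ℕ) : 0 < stack z i := by
  have h2 := bz_le z
  rw [stack_good h]
  split_ifs <;> linarith

lemma stack_good_lt {z : Z2} (h : z ∈ good) (i : ℕ) : stack z i < 1 := by
  have h2 := bz_ge z
  rw [stack_good h]
  split_ifs <;> linarith

lemma stack_bad_zero {z : Z2} (h : z ∉ good) : stack z 0 = 1 := by
  rw [stack_bad h, if_pos rfl]

/-- the chain started at a good site -/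
lemma chainData_stack {z : Z2} (h : z ∈ good) :
    ChainData (fun n : ℕ => stack (z - (n : ℕ))) (fun n : ℕ => bz (z - (n : ℕ))) where
  stk n := stk_stack _
  drift n := stack_drift _
  ge n := bz_ge _
  le n := bz_le _
  start0 := by
    have h2 := bz_good h
    simp only [Nat.cast_zero, sub_zero]
    rw [stack_good h, if_pos (by omega), h2]
    norm_num
  start1 := by
    have h2 := bz_good h
    simp only [Nat.cast_zero, sub_zero]
    rw [stack_good h, if_pos (by omega), h2]
    norm_num

/-- expected lifetime from a good site -/
lemma lifetime {z : Z2} (h : z ∈ good) :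
    ∑' n, pE (fun n : ℕ => stack (z - (n : ℕ))) n ≤ ENNReal.ofReal 39 := by
  have hd := chainData_stack h
  have hk := kc_chain hd
  have h1 := sum_good h hk (fun n => eR_step hd n)
  rw [ENNReal.tsum_eq_iSup_nat]
  apply iSup_le
  intro N
  have h2 := h1 N
  calc ∑ n ∈ Finset.range N, pE (fun n : ℕ => stack (z - (n : ℕ))) n
      = ENNReal.ofReal (∑ n ∈ Finset.range N, pR (fun n : ℕ => stack (z - (n : ℕ))) n) := by
        unfold pR
        rw [ENNReal.ofReal_sum_of_nonneg (fun i _ => ENNReal.toReal_nonneg)]
        apply Finset.sum_congr rfl
        intro n _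
        exact (ENNReal.ofReal_toReal (pE_fin _ n)).symm
    _ ≤ ENNReal.ofReal 39 := ENNReal.ofReal_le_ofReal h2

end Pool.Agent.H87.Cookie
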