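import Mathlib
import Pool.Agent.H87.Cookie.Chain

open MeasureTheory ProbabilityTheory Filter Topology Set
open scoped ENNReal

namespace Pool.Agent.H87.Cookie

/-! ### the walk in a field of arrows -/

/-- arrows -/
abbrev Arr := ℤ → ℕ → Bool

/-- position and local times -/
noncomputable def st (a : Arr) : ℕ → ℤ × (ℤ → ℕ)
  | 0 => (0, fun _ => 0)
  | n + 1 =>
    (if a (st a n).1 ((st a n).2 (st a n).1) = true then (st a n).1 + 1 else (st a n).1 - 1,
      Function.update (st a n).2 (st a n).1 ((st a n).2 (st a n).1 + 1))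

/-- position -/
noncomputable def wX (a : Arr) (n : ℕ) : ℤ := (st a n).1

/-- visits before time `n` -/
noncomputable def wV (a : Arr) (n : ℕ) (x : ℤ) : ℕ := (st a n).2 x

lemma wX_zero (a : Arr) : wX a 0 = 0 := rfl

lemma wV_zero (a : Arr) (x : ℤ) : wV a 0 x = 0 := rfl

lemma wX_succ (a : Arr) (n : ℕ) :
    wX a (n + 1) = if a (wX a n) (wV a n (wX a n)) = true then wX a n + 1 else wX a n - 1 := rfl

lemma wV_succ (a : Arr) (n : ℕ) (x : ℤ) :
    wV a (n + 1) x = if x = wX a n then wV a n x + 1 else wV a n x := by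
  show Function.update (st a n).2 (st a n).1 ((st a n).2 (st a n).1 + 1) x = _
  by_cases h : x = wX a n
  · rw [if_pos h, h]
    show Function.update (st a n).2 (st a n).1 ((st a n).2 (st a n).1 + 1) (st a n).1 = _
    rw [Function.update_self]
    rfl
  · rw [if_neg h, Function.update_of_ne (show x ≠ (st a n).1 from h)]
    rfl

lemma wV_eq_card (a : Arr) (n : ℕ) (x : ℤ) :
    wV a n x = ((Finset.range n).filter (fun j => wX a j = x)).card := by
  induction n with
  | zero => rfl
  | succ n ih =>
    rw [wV_succ, Finset.range_add_one, Finset.filter_insert]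
    by_cases h : x = wX a n
    · rw [if_pos h, if_pos h.symm, Finset.card_insert_of_notMem (by simp), ih]
    · rw [if_neg h, if_neg (fun h' => h h'.symm), ih]

/-- right steps from `x` before time `n` -/
noncomputable def wR (a : Arr) (n : ℕ) (x : ℤ) : ℕ := cnt (a x) (wV a n x)

/-- left steps from `x` before time `n` -/
noncomputable def wL (a : Arr) (n : ℕ) (x : ℤ) : ℕ := wV a n x - wR a n x

lemma wR_le (a : Arr) (n : ℕ) (x : ℤ) : wR a n x ≤ wV a n x := cnt_le _ _

lemma wR_succ (a : Arr) (n : ℕ) (x : ℤ) :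
    wR a (n + 1) x = wR a n x + if x = wX a n ∧ a x (wV a n x) = true then 1 else 0 := by
  unfold wR
  rw [wV_succ]
  by_cases h : x = wX a n
  · rw [if_pos h, cnt_succ]
    by_cases h2 : a x (wV a n x) = true
    · rw [if_pos h2, if_pos ⟨h, h2⟩]
    · rw [if_neg h2, if_neg (fun h' => h2 h'.2)]
  · rw [if_neg h, if_neg (fun h' => h h'.1), add_zero]

lemma wL_succ (a : Arr) (n : ℕ) (x : ℤ) :
    wL a (n + 1) x = wL a n x + if x = wX a n ∧ a x (wV a n x) = false then 1 else 0 := by
  unfold wL
  rw [wR_succ, wV_succ]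
  have h0 := wR_le a n x
  by_cases h : x = wX a n
  · rw [if_pos h]
    cases h2 : a x (wV a n x)
    · simp only [Bool.false_eq_true, and_false, if_false, and_true]
      rw [if_pos h]
      omega
    · simp only [Bool.true_eq_false, and_false, if_false, and_true]
      rw [if_pos h]
      omega
  · rw [if_neg h, if_neg (fun h' => h h'.1), if_neg (fun h' => h h'.1)]
    rfl

lemma wL_mono (a : Arr) (x : ℤ) : Monotone (fun n => wL a n x) := by
  apply monotone_nat_of_le_succ
  intro n
  simp only [wL_succ]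
  exact Nat.le_add_right _ _

/-- conservation of flux -/
lemma flux (a : Arr) (n : ℕ) {x : ℤ} (hx : 0 ≤ x) :
    wR a n x = wL a n (x + 1) + if x < wX a n then 1 else 0 := by
  induction n with
  | zero =>
    have h1 : wR a 0 x = 0 := rfl
    have h2 : wL a 0 (x + 1) = 0 := rfl
    rw [h1, h2, if_neg (by rw [wX_zero]; omega)]
  | succ n ih =>
    rw [wR_succ, wL_succ, ih, wX_succ]
    cases h : a (wX a n) (wV a n (wX a n))
    · have e1 : ¬ (x = wX a n ∧ a x (wV a n x) = true) := by
        rintro ⟨rfl, h'⟩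
        rw [h] at h'
        exact absurd h' (by simp)
      rw [if_neg e1]
      simp only [Bool.false_eq_true, if_false]
      by_cases e2 : x + 1 = wX a n
      · have e3 : x + 1 = wX a n ∧ a (x + 1) (wV a n (x + 1)) = false := ⟨e2, by rw [e2]; exact h⟩
        rw [if_pos e3, if_pos (by omega), if_neg (by omega)]
      · have e3 : ¬ (x + 1 = wX a n ∧ a (x + 1) (wV a n (x + 1)) = false) := fun h' => e2 h'.1
        rw [if_neg e3]
        by_cases e4 : x < wX a n
        · rw [if_pos e4, if_pos (by omega)]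
        · rw [if_neg e4, if_neg (by omega)]
    · have e1 : ¬ (x + 1 = wX a n ∧ a (x + 1) (wV a n (x + 1)) = false) := by
        rintro ⟨e, h'⟩
        rw [e, h] at h'
        exact absurd h' (by simp)
      rw [if_neg e1]
      simp only [if_true]
      by_cases e2 : x = wX a n
      · have e3 : x = wX a n ∧ a x (wV a n x) = true := ⟨e2, by rw [e2]; exact h⟩
        rw [if_pos e3, if_neg (by omega), if_pos (by omega)]
      · have e3 : ¬ (x = wX a n ∧ a x (wV a n x) = true) := fun h' => e2 h'.1
        rw [if_neg e3]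
        by_cases e4 : x < wX a n
        · rw [if_pos e4, if_pos (by omega)]
        · rw [if_neg e4, if_neg (by omega)]

/-- the last arrow used to the left of the walker points to the right -/
lemma last_arrow (a : Arr) (n : ℕ) {x : ℤ} (hV : 1 ≤ wV a n x) (hx : x < wX a n) :
    a x (wV a n x - 1) = true := by
  induction n with
  | zero =>
    rw [wV_zero] at hV
    omega
  | succ n ih =>
    rw [wV_succ] at hV ⊢
    rw [wX_succ] at hx
    by_cases e : x = wX a n
    · rw [if_pos e]
      simp only [Nat.add_sub_cancel]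
      by_contra h
      rw [e] at h
      rw [if_neg h] at hx
      omega
    · rw [if_neg e] at hV ⊢
      apply ih hV
      split_ifs at hx <;> omega

lemma wX_le (a : Arr) (n : ℕ) : wX a n ≤ n := by
  induction n with
  | zero => simp [wX_zero]
  | succ n ih =>
    rw [wX_succ]
    split_ifs <;> push_cast <;> omega

/-- recursion of the left steps at the first hitting time of `K` -/
lemma back_rec (a : Arr) {n : ℕ} {K x : ℤ} (hK : wX a n = K) (h0 : 0 ≤ x) (hxK : x < K) :
    wL a n x = FF (a x) (wL a n (x + 1) + 1) := by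
  have h1 := flux a n h0
  rw [if_pos (by omega)] at h1
  have h2 := wR_le a n x
  have hV : 1 ≤ wV a n x := by omega
  have h3 := last_arrow a n hV (by omega)
  have h4 : cnt (a x) (wV a n x) = wL a n (x + 1) + 1 := h1
  rw [FF_eq hV h4 h3]
  unfold wL
  rw [h1]
  rfl

/-- excursion decomposition -/
lemma excursion (a : Arr) (D : ℤ → ℕ) {K : ℤ} (hDK : D K = 0)
    (hrec : ∀ x, 0 ≤ x → x < K → D x = FF (a x) (D (x + 1) + 1)) (j : ℕ) (hj : (j : ℤ) ≤ K) :
    D (K - j) = 0 ∨ ∃ n : ℕ, D (K - j) = kb (fun i : ℕ => a (K - j + n - i)) n := by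
  induction j with
  | zero =>
    left
    simpa using hDK
  | succ j ih =>
    have ih' := ih (by push_cast at hj; omega)
    have hr := hrec (K - (j + 1 : ℕ)) (by omega) (by push_cast; omega)
    have e1 : K - ((j + 1 : ℕ) : ℤ) + 1 = K - j := by push_cast; ring
    rw [e1] at hr
    right
    by_cases h0 : D (K - j) = 0
    · refine ⟨0, ?_⟩
      rw [hr, h0]
      show _ = FF (a (K - ((j + 1 : ℕ) : ℤ) + ((0:ℕ) : ℤ) - ((0 : ℕ) : ℤ))) 1
      simp
    · rcases ih' with h | ⟨n, hn⟩
      · exact absurd h h0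
      · refine ⟨n + 1, ?_⟩
        have e2 : ∀ i : ℕ, K - ((j + 1 : ℕ) : ℤ) + ((n + 1 : ℕ) : ℤ) - i = K - j + n - i := by
          intro i; push_cast; ring
        simp_rw [e2]
        show _ = stp (kb (fun i : ℕ => a (K - j + n - i)) n) (a (K - j + n - ((n + 1 : ℕ) : ℤ)))
        rw [← hn, hr]
        unfold stp
        rw [if_neg h0]
        congr 2
        push_cast
        ring

/-- **Deterministic criterion.** -/
theorem tendsto_of_kb (a : Arr) (hT : ∀ K : ℕ, ∃ n, wX a n = K)
    (hfin : ∀ x : ℕ, ∃ N : ℕ, ∀ n : ℕ, N ≤ n → kb (fun i : ℕ => a ((x:ℤ) + n - i)) n = 0) :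
    Tendsto (wX a) atTop atTop := by
  classical
  -- bound on the left steps at first hitting times
  have hB : ∀ x : ℕ, ∃ B, ∀ n, wL a n x ≤ B := by
    intro x
    obtain ⟨N, hN⟩ := hfin x
    refine ⟨∑ n ∈ Finset.range N, kb (fun i : ℕ => a ((x:ℤ) + n - i)) n, ?_⟩
    intro m
    set K : ℕ := max (m + 1) (x + 1) with hK
    obtain ⟨T, hT1, hT2⟩ : ∃ T, wX a T = K ∧ ∀ s, s < T → wX a s ≠ K :=
      ⟨Nat.find (hT K), Nat.find_spec (hT K), fun s hs => Nat.find_min (hT K) hs⟩
    have hmT : m ≤ T := by
      have h1 := wX_le a T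
      rw [hT1] at h1
      have : K ≤ T := by exact_mod_cast h1
      omega
    have h2 : wL a T K = 0 := by
      have h3 : wV a T K = 0 := by
        rw [wV_eq_card, Finset.card_eq_zero, Finset.filter_eq_empty_iff]
        intro s hs
        exact hT2 s (Finset.mem_range.mp hs)
      unfold wL
      omega
    have h4 := excursion a (wL a T) (K := K) h2 (fun y h0 h1 => back_rec a hT1 h0 h1) (K - x)
      (by omega)
    have e1 : (K : ℤ) - ((K - x : ℕ) : ℤ) = x := by
      have : x ≤ K := by omega
      push_cast [Nat.cast_sub this]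
      ring
    rw [e1] at h4
    refine (wL_mono a x hmT).trans ?_
    rcases h4 with h4 | ⟨n, hn⟩
    · simp only [h4]; exact Nat.zero_le _
    · simp only
      rw [hn]
      by_cases h5 : N ≤ n
      · rw [hN n h5]; exact Nat.zero_le _
      · exact Finset.single_le_sum (f := fun n : ℕ => kb (fun i : ℕ => a ((x:ℤ) + n - i)) n)
          (fun _ _ => Nat.zero_le _) (Finset.mem_range.mpr (by omega))
  -- bound on the visits
  have hVb : ∀ x : ℕ, ∃ B, ∀ n, wV a n x ≤ B := by
    intro x
    obtain ⟨B, hB1⟩ := hB x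
    obtain ⟨B', hB2⟩ := hB (x + 1)
    refine ⟨B + (B' + 1), ?_⟩
    intro n
    have h1 := flux a n (x := x) (by omega)
    have h2 : wL a n x = wV a n x - wR a n x := rfl
    have h3 := hB1 n
    have h4 := hB2 n
    push_cast at h4
    split_ifs at h1 <;> omega
  -- eventually the walk avoids each site
  have hev : ∀ x : ℕ, ∃ n₀, ∀ n, n₀ ≤ n → wX a n ≠ x := by
    intro x
    by_contra hcon
    push Not at hcon
    obtain ⟨B, hB1⟩ := hVb x
    have : ∀ k, ∃ n, k ≤ wV a n x := by
      intro k
      induction k with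
      | zero => exact ⟨0, Nat.zero_le _⟩
      | succ k ih =>
        obtain ⟨n, hn⟩ := ih
        obtain ⟨m, hm, hmx⟩ := hcon n
        refine ⟨m + 1, ?_⟩
        rw [wV_succ, if_pos hmx.symm]
        have h5 : wV a n x ≤ wV a m x := by
          rw [wV_eq_card, wV_eq_card]
          apply Finset.card_le_card
          apply Finset.filter_subset_filter
          exact Finset.range_mono hm
        omega
    obtain ⟨n, hn⟩ := this (B + 1)
    have := hB1 n
    omega
  rw [tendsto_atTop]
  intro M
  set M' : ℕ := M.toNat with hM'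
  have hMM : M ≤ M' := Int.self_le_toNat M
  obtain ⟨n₀, hn₀⟩ := hev M'
  obtain ⟨T, hT1⟩ := hT (max (M' + 1) n₀)
  have hT0 : n₀ ≤ T := by
    have h1 := wX_le a T
    rw [hT1] at h1
    have : max (M' + 1) n₀ ≤ T := by exact_mod_cast h1
    omega
  have key : ∀ n, T ≤ n → (M' : ℤ) < wX a n := by
    intro n hn
    induction n, hn using Nat.le_induction with
    | base =>
      rw [hT1]
      push_cast
      omega
    | succ n hn ih =>
      have h1 := hn₀ (n + 1) (by omega)
      rw [wX_succ] at h1 ⊢
      split_ifs at h1 ⊢ <;> omega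
  filter_upwards [eventually_ge_atTop T] with n hn
  have := key n hn
  omega

end Pool.Agent.H87.Cookie
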