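import Mathlib
import Pool.Agent.H87.Cookie.Walk
import Pool.Agent.H87.Cookie.Stack

open MeasureTheory ProbabilityTheory Filter Topology Set
open scoped ENNReal

namespace Pool.Agent.H87.Cookie

/-- reindexing along an injection -/
lemma map_reindex {ι ι' α : Type*} [MeasurableSpace α] (μ : Measure α) [IsProbabilityMeasure μ]
    {g : ι' → ι} (hg : Function.Injective g) :
    (Measure.infinitePi (fun _ : ι => μ)).map (fun U i => U (g i))
      = Measure.infinitePi (fun _ : ι' => μ) := by
  classical
  have hm : Measurable (fun (U : ι → α) (i : ι') => U (g i)) :=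
    measurable_pi_lambda _ (fun i => measurable_pi_apply (g i))
  apply Measure.eq_infinitePi
  intro s t ht
  have hpi : MeasurableSet (Set.pi (s : Set ι') t) :=
    MeasurableSet.pi (Finset.countable_toSet s) (fun i _ => ht i)
  rw [Measure.map_apply hm hpi]
  rcases isEmpty_or_nonempty ι' with hE | hE
  · have hs : s = ∅ := Finset.eq_empty_of_isEmpty s
    subst hs
    simp
  · have hpre : (fun (U : ι → α) (i : ι') => U (g i)) ⁻¹' (Set.pi (s : Set ι') t)
        = Set.pi ((s.image g : Finset ι) : Set ι) (fun j => t (Function.invFun g j)) := by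
      ext U
      simp only [mem_preimage, Set.mem_pi, Finset.mem_coe, Finset.mem_image]
      constructor
      · rintro h j ⟨i, hi, rfl⟩
        rw [Function.leftInverse_invFun hg i]
        exact h i hi
      · intro h i hi
        have := h (g i) ⟨i, hi, rfl⟩
        rwa [Function.leftInverse_invFun hg i] at this
    rw [hpre, Measure.infinitePi_pi _ (fun i _ => ht _), Finset.prod_image (fun i _ j _ h => hg h)]
    apply Finset.prod_congr rfl
    intro i _
    rw [Function.leftInverse_invFun hg i]

/-- the probability space -/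
abbrev Sp := Z2 × (ℤ → ℕ → ℝ)

/-- law of the field of uniform variables -/
noncomputable def nuZ : Measure (ℤ → ℕ → ℝ) := Measure.infinitePi (fun _ => nuS)

instance instProbNuZ : IsProbabilityMeasure nuZ := by unfold nuZ; infer_instance

/-- the reference probability -/
noncomputable def PP : Measure Sp := hz.prod nuZ

instance instProbPP : IsProbabilityMeasure PP := by unfold PP; infer_instance

/-- the field of arrows -/
noncomputable def arr (s : Sp) : Arr := fun x => coin (stack (s.1 + (x : Z2))) (s.2 x)

lemma measurable_arr : Measurable arr := by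
  apply measurable_pi_lambda
  intro x
  apply measurable_pi_lambda
  intro i
  unfold arr coin
  have hS : MeasurableSet {s : Sp | s.2 x i < stack (s.1 + (x : Z2)) i} := by
    apply measurableSet_lt
    · exact (measurable_pi_apply i).comp ((measurable_pi_apply x).comp measurable_snd)
    · exact (measurable_stack i).comp (measurable_fst.add_const _)
  apply measurable_to_countable'
  intro b
  cases b
  · have : (fun s : Sp => decide (s.2 x i < stack (s.1 + (x : Z2)) i)) ⁻¹' {false}
        = {s : Sp | s.2 x i < stack (s.1 + (x : Z2)) i}ᶜ := by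
      ext s
      simp
    rw [this]
    exact hS.compl
  · have : (fun s : Sp => decide (s.2 x i < stack (s.1 + (x : Z2)) i)) ⁻¹' {true}
        = {s : Sp | s.2 x i < stack (s.1 + (x : Z2)) i} := by
      ext s
      simp
    rw [this]
    exact hS

lemma measurableSet_infy : MeasurableSet {c : ℕ → Bool | Infy c} := by
  unfold Infy
  have : {c : ℕ → Bool | ∀ m, ∃ n, m ≤ cnt c n} = ⋂ m, ⋃ n, {c | m ≤ cnt c n} := by
    ext c
    simp
  rw [this]
  exact MeasurableSet.iInter fun m => MeasurableSet.iUnion fun n =>
    measurable_cnt n measurableSet_Ici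

lemma nuZ_eval (x : ℤ) : nuZ.map (fun U => U x) = nuS := by
  unfold nuZ
  exact Measure.infinitePi_map_eval _ x

lemma nuS_eval (i : ℕ) : nuS.map (fun u => u i) = lam := by
  unfold nuS
  exact Measure.infinitePi_map_eval _ i

/-- infinitely many right arrows everywhere -/
lemma ae_arr_infy : ∀ᵐ s ∂PP, ∀ x, Infy (arr s x) := by
  rw [ae_all_iff]
  intro x
  have hm : MeasurableSet {s : Sp | Infy (arr s x)} := by
    have : Measurable (fun s : Sp => arr s x) := (measurable_pi_apply x).comp measurable_arr
    exact this measurableSet_infy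
  unfold PP
  rw [Measure.ae_prod_iff_ae_ae hm]
  filter_upwards with z
  have h1 : ∀ᵐ u ∂nuS, Infy (coin (stack (z + (x : Z2))) u) := (stk_stack _).infy
  rw [← nuZ_eval x] at h1
  exact ae_of_ae_map (measurable_pi_apply x).aemeasurable h1

/-- the uniform variables are below one -/
lemma ae_lt_one : ∀ᵐ s ∂PP, ∀ x : ℤ, s.2 x 0 < 1 := by
  rw [ae_all_iff]
  intro x
  have hm : MeasurableSet {s : Sp | s.2 x 0 < 1} := by
    apply measurableSet_lt
    · exact (measurable_pi_apply 0).comp ((measurable_pi_apply x).comp measurable_snd)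
    · exact measurable_const
  unfold PP
  rw [Measure.ae_prod_iff_ae_ae hm]
  filter_upwards with z
  have h0 : ∀ᵐ t ∂lam, t < 1 := by
    unfold lam
    rw [ae_restrict_iff' measurableSet_Ico]
    filter_upwards with t ht
    exact ht.2
  rw [← nuS_eval 0] at h0
  have h1 := ae_of_ae_map (measurable_pi_apply 0).aemeasurable h0
  rw [← nuZ_eval x] at h1
  exact ae_of_ae_map (measurable_pi_apply x).aemeasurable h1

/-- survival probability from `z`, zero off the good set -/
noncomputable def gp (n : ℕ) (z : Z2) : ℝ≥0∞ :=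
  good.indicator (fun z => pE (fun i : ℕ => stack (z - (i : ℕ))) n) z

lemma measurable_cfz (n : ℕ) :
    Measurable (fun p : Z2 × (ℕ → ℕ → ℝ) => cf (fun i : ℕ => stack (p.1 - (i : ℕ))) p.2) := by
  apply measurable_pi_lambda
  intro m
  apply measurable_pi_lambda
  intro i
  unfold cf coin
  have hS : MeasurableSet {p : Z2 × (ℕ → ℕ → ℝ) | p.2 m i < stack (p.1 - (m : ℕ)) i} := by
    apply measurableSet_lt
    · exact (measurable_pi_apply i).comp ((measurable_pi_apply m).comp measurable_snd)
    · exact (measurable_stack i).comp (measurable_fst.sub_const _)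
  apply measurable_to_countable'
  intro b
  cases b
  · have : (fun p : Z2 × (ℕ → ℕ → ℝ) => decide (p.2 m i < stack (p.1 - (m : ℕ)) i)) ⁻¹' {false}
        = {p : Z2 × (ℕ → ℕ → ℝ) | p.2 m i < stack (p.1 - (m : ℕ)) i}ᶜ := by
      ext s
      simp
    rw [this]
    exact hS.compl
  · have : (fun p : Z2 × (ℕ → ℕ → ℝ) => decide (p.2 m i < stack (p.1 - (m : ℕ)) i)) ⁻¹' {true}
        = {p : Z2 × (ℕ → ℕ → ℝ) | p.2 m i < stack (p.1 - (m : ℕ)) i} := by
      ext s
      simp
    rw [this]
    exact hS

lemma measurable_gp (n : ℕ) : Measurable (gp n) := by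
  unfold gp
  apply Measurable.indicator _ measurableSet_good
  unfold pE
  have h : Measurable (fun p : Z2 × (ℕ → ℕ → ℝ) =>
      (if kb (cf (fun i : ℕ => stack (p.1 - (i : ℕ))) p.2) n = 0 then (0:ℝ≥0∞) else 1)) :=
    (measurable_of_countable (fun k : ℕ => if k = 0 then (0:ℝ≥0∞) else 1)).comp
      ((measurable_kb n).comp (measurable_cfz n))
  exact h.lintegral_prod_right'

lemma sum_gp : ∑' n, ∫⁻ z, gp n z ∂hz ≤ ENNReal.ofReal 39 := by
  rw [← lintegral_tsum (fun n => (measurable_gp n).aemeasurable)]
  calc ∫⁻ z, ∑' n, gp n z ∂hz ≤ ∫⁻ _, ENNReal.ofReal 39 ∂hz := by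
        apply lintegral_mono
        intro z
        simp only
        by_cases h : z ∈ good
        · have h1 : ∀ n, gp n z = pE (fun i : ℕ => stack (z - (i : ℕ))) n := by
            intro n
            unfold gp
            rw [indicator_of_mem h]
          simp_rw [h1]
          exact lifetime h
        · have h1 : ∀ n, gp n z = 0 := by
            intro n
            unfold gp
            rw [indicator_of_notMem h]
          simp_rw [h1]
          simp
    _ = ENNReal.ofReal 39 := by rw [lintegral_const, measure_univ, mul_one]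

/-- the bad event: the excursion started at `x + n` from a good site is alive at `x` -/
def Bd (x n : ℕ) : Set Sp :=
  {s | s.1 + (((x:ℤ) + n : ℤ) : Z2) ∈ good ∧ kb (fun i : ℕ => arr s ((x:ℤ) + n - i)) n ≠ 0}

lemma measurable_shiftArr (y : ℤ) : Measurable (fun s : Sp => fun i : ℕ => arr s (y - i)) := by
  apply measurable_pi_lambda
  intro i
  exact (measurable_pi_apply _).comp measurable_arr

lemma measurableSet_Bd (x n : ℕ) : MeasurableSet (Bd x n) := by
  apply MeasurableSet.inter
  · exact (measurable_fst.add_const _) measurableSet_good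
  · have h : Measurable (fun s : Sp => kb (fun i : ℕ => arr s ((x:ℤ) + n - i)) n) :=
      (measurable_kb n).comp (measurable_shiftArr _)
    exact h (measurableSet_singleton 0).compl

lemma PP_Bd (x n : ℕ) : PP (Bd x n) = ∫⁻ z, gp n z ∂hz := by
  unfold PP
  rw [Measure.prod_apply (measurableSet_Bd x n)]
  set y : ℤ := (x:ℤ) + n with hy
  rw [← lintegral_add_right_eq_self (gp n) (y : Z2)]
  apply lintegral_congr
  intro z
  by_cases h : z + (y : Z2) ∈ good
  · have h1 : gp n (z + (y : Z2)) = pE (fun i : ℕ => stack (z + (y : Z2) - (i : ℕ))) n := by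
      unfold gp
      rw [indicator_of_mem h]
    rw [h1]
    have hinj : Function.Injective (fun i : ℕ => y - (i : ℤ)) := by
      intro i j hij
      simp only at hij
      omega
    have hmap : nuZ.map (fun (U : ℤ → ℕ → ℝ) (i : ℕ) => U (y - i)) = nuW := by
      unfold nuZ nuW
      exact map_reindex nuS hinj
    have hmeas : Measurable (fun (U : ℤ → ℕ → ℝ) (i : ℕ) => U (y - i)) :=
      measurable_pi_lambda _ (fun i => measurable_pi_apply _)
    have hset : MeasurableSet {U : ℕ → ℕ → ℝ |
        kb (cf (fun i : ℕ => stack (z + (y : Z2) - (i : ℕ))) U) n ≠ 0} := by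
      have h3 : Measurable (fun U : ℕ → ℕ → ℝ =>
          kb (cf (fun i : ℕ => stack (z + (y : Z2) - (i : ℕ))) U) n) :=
        (measurable_kb n).comp (measurable_cf _)
      exact h3 (measurableSet_singleton 0).compl
    have h2 : pE (fun i : ℕ => stack (z + (y : Z2) - (i : ℕ))) n
        = nuW {U | kb (cf (fun i : ℕ => stack (z + (y : Z2) - (i : ℕ))) U) n ≠ 0} := by
      unfold pE
      rw [← lintegral_indicator_one hset]
      apply lintegral_congr
      intro U
      by_cases h0 : kb (cf (fun i : ℕ => stack (z + (y : Z2) - (i : ℕ))) U) n = 0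
      · rw [if_pos h0, indicator_of_notMem (by simpa using h0)]
      · rw [if_neg h0, indicator_of_mem (by simpa using h0), Pi.one_apply]
    rw [h2, ← hmap, Measure.map_apply hmeas hset]
    congr 1
    ext U
    simp only [mem_preimage, Bd, mem_ofPred_eq, ← hy]
    have h4 : (fun i : ℕ => arr (z, U) (y - i))
        = cf (fun i : ℕ => stack (z + (y : Z2) - (i : ℕ))) (fun i : ℕ => U (y - i)) := by
      funext i
      unfold arr cf
      simp only
      congr 2
      push_cast
      ring
    rw [h4]
    exact ⟨fun h5 => h5.2, fun h5 => ⟨h, h5⟩⟩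
  · have h1 : gp n (z + (y : Z2)) = 0 := by
      unfold gp
      rw [indicator_of_notMem h]
    rw [h1]
    have h2 : Prod.mk z ⁻¹' (Bd x n) = ∅ := by
      rw [eq_empty_iff_forall_notMem]
      intro U hU
      exact h hU.1
    rw [h2, measure_empty]

lemma kb_of_zero {a : ℕ → ℕ → Bool} (h : kb a 0 = 0) (n : ℕ) : kb a n = 0 := by
  induction n with
  | zero => exact h
  | succ n ih =>
    show stp (kb a n) (a (n + 1)) = 0
    unfold stp
    rw [if_pos ih]

/-- almost surely, every site is reached by finitely many excursions -/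
theorem ae_finite : ∀ᵐ s ∂PP, ∀ x : ℕ, ∃ N : ℕ, ∀ n : ℕ, N ≤ n →
    kb (fun i : ℕ => arr s ((x:ℤ) + n - i)) n = 0 := by
  rw [ae_all_iff]
  intro x
  have h1 : ∑' n, PP (Bd x n) ≠ ∞ := by
    simp_rw [PP_Bd]
    exact ne_top_of_le_ne_top ENNReal.ofReal_ne_top sum_gp
  filter_upwards [ae_eventually_notMem h1, ae_lt_one] with s hs h2
  obtain ⟨N, hN⟩ := eventually_atTop.mp hs
  refine ⟨N, ?_⟩
  intro n hn
  by_contra hne
  by_cases hg : s.1 + (((x:ℤ) + n : ℤ) : Z2) ∈ good
  · exact hN n hn ⟨hg, hne⟩
  · apply hne
    apply kb_of_zero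
    show FF (arr s ((x:ℤ) + n - ((0:ℕ) : ℤ))) 1 = 0
    apply FF_one_of_true
    have e : (x:ℤ) + n - ((0:ℕ) : ℤ) = (x:ℤ) + n := by push_cast; ring
    rw [e]
    unfold arr coin
    rw [stack_bad_zero hg, decide_eq_true_eq]
    exact h2 _

end Pool.Agent.H87.Cookie
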