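import Mathlib
import Pool.Agent.H87.Cookie.Space
import Pool.Agent.H87.Cookie.Exit

open MeasureTheory ProbabilityTheory Filter Topology Set
open scoped ENNReal

namespace Pool.Agent.H87.Cookie

/-! ### measurability of the arrow walk -/

lemma meas_sel {α ι β : Type*} [MeasurableSpace α] [MeasurableSpace β] [Countable ι]
    [MeasurableSpace ι] [MeasurableSingletonClass ι] {f : α → ι} {v : ι → α → β}
    (hf : Measurable f) (hv : ∀ i, Measurable (v i)) : Measurable (fun a => v (f a) a) := by
  have h : Measurable (fun p : ι × α => v p.1 p.2) := measurable_from_prod_countable_right hv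
  exact h.comp (hf.prodMk measurable_id)

lemma measurable_walk (n : ℕ) :
    Measurable (fun a : Arr => wX a n) ∧ ∀ x, Measurable (fun a : Arr => wV a n x) := by
  induction n with
  | zero => exact ⟨measurable_const, fun x => measurable_const⟩
  | succ n ih =>
    obtain ⟨h1, h2⟩ := ih
    constructor
    · simp only [wX_succ]
      have h3 : Measurable (fun a : Arr => wV a n (wX a n)) := meas_sel h1 h2
      have h4 : Measurable (fun a : Arr => a (wX a n) (wV a n (wX a n))) := by
        have h5 : Measurable (fun a : Arr => a (wX a n)) :=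
          meas_sel h1 (fun x => measurable_pi_apply x)
        exact meas_sel (v := fun (i : ℕ) (a : Arr) => a (wX a n) i) h3
          (fun i => (measurable_pi_apply i).comp h5)
      apply Measurable.ite
      · exact measurableSet_eq_fun h4 measurable_const
      · exact h1.add_const 1
      · exact h1.sub_const 1
    · intro x
      simp only [wV_succ]
      apply Measurable.ite
      · exact measurableSet_eq_fun measurable_const h1
      · exact (h2 x).add_const 1
      · exact h2 x

/-- the arrow walk does not look at arrows that it has not used -/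
lemma st_congr {a a' : Arr} {x : ℤ} {i : ℕ} (h : ∀ y j, ¬ (y = x ∧ j = i) → a y j = a' y j)
    {n : ℕ} (hV : wV a n x ≤ i) : st a n = st a' n := by
  induction n with
  | zero => rfl
  | succ n ih =>
    rw [wV_succ] at hV
    have hV' : wV a n x ≤ i := by
      split_ifs at hV <;> omega
    have e := ih hV'
    have e2 : a (st a n).1 ((st a n).2 (st a n).1) = a' (st a n).1 ((st a n).2 (st a n).1) := by
      apply h
      rintro ⟨h1, h2⟩
      rw [if_pos (show x = wX a n from h1.symm)] at hV
      have : wV a n x = i := by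
        rw [← h2]
        show (st a n).2 x = _
        rw [h1]
      omega
    show (if a (st a n).1 ((st a n).2 (st a n).1) = true then (st a n).1 + 1 else (st a n).1 - 1,
      Function.update (st a n).2 (st a n).1 ((st a n).2 (st a n).1 + 1))
      = (if a' (st a' n).1 ((st a' n).2 (st a' n).1) = true then (st a' n).1 + 1
          else (st a' n).1 - 1,
        Function.update (st a' n).2 (st a' n).1 ((st a' n).2 (st a' n).1 + 1))
    rw [e2, e]

lemma wV_mono (a : Arr) (x : ℤ) : Monotone (fun n => wV a n x) := by
  apply monotone_nat_of_le_succ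
  intro n
  simp only [wV_succ]
  split_ifs <;> omega

/-! ### resampling one arrow -/

/-- change of one uniform variable -/
noncomputable def upd2 (U : ℤ → ℕ → ℝ) (x : ℤ) (i : ℕ) (t : ℝ) : ℤ → ℕ → ℝ :=
  Function.update U x (Function.update (U x) i t)

lemma measurable_upd2 (x : ℤ) (i : ℕ) :
    Measurable (fun p : (ℤ → ℕ → ℝ) × ℝ => upd2 p.1 x i p.2) := by
  have h0 : Measurable (fun p : (ℤ → ℕ → ℝ) × ℝ => (p.1 x, p.2)) :=
    ((measurable_pi_apply x).comp measurable_fst).prodMk measurable_snd
  have h1 : Measurable (fun p : (ℤ → ℕ → ℝ) × ℝ => Function.update (p.1 x) i p.2) :=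
    (measurable_upd (X := fun _ : ℕ => ℝ) i).comp h0
  exact (measurable_upd (X := fun _ : ℤ => ℕ → ℝ) x).comp (measurable_fst.prodMk h1)

lemma lintegral_upd2 (x : ℤ) (i : ℕ) {f : (ℤ → ℕ → ℝ) → ℝ≥0∞} (hf : Measurable f) :
    ∫⁻ U, f U ∂nuZ = ∫⁻ U, ∫⁻ t, f (upd2 U x i t) ∂lam ∂nuZ := by
  have hf' : Measurable (fun U => ∫⁻ t, f (upd2 U x i t) ∂lam) :=
    (hf.comp (measurable_upd2 x i)).lintegral_prod_right'
  unfold nuZ
  rw [lintegral_upd (fun _ => nuS) x hf, lintegral_upd (fun _ => nuS) x hf']
  apply lintegral_congr
  intro U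
  have hφ : Measurable (fun u => f (Function.update U x u)) :=
    hf.comp ((measurable_upd (X := fun _ : ℤ => ℕ → ℝ) x).comp
      (measurable_const.prodMk measurable_id))
  unfold nuS
  rw [lintegral_upd (fun _ => lam) i hφ]
  apply lintegral_congr
  intro u
  apply lintegral_congr
  intro t
  unfold upd2
  rw [Function.update_self, Function.update_idem]

/-! ### the arrow walk is an excited random walk -/

/-- the environment attached to a point of the odometer -/
noncomputable def envm (z : Z2) : Env := fun x i =>
  ⟨stack (z + (x : Z2)) i, (stk_stack _).nonneg i, (stk_stack _).le_one i⟩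

lemma measurable_envm : Measurable envm := by
  apply measurable_pi_lambda
  intro x
  apply measurable_pi_lambda
  intro i
  apply Measurable.subtype_mk
  exact (measurable_stack i).comp (measurable_id.add_const _)

/-- law of the environment -/
noncomputable def PE : Measure Env := hz.map envm

/-- environment on the reference space -/
noncomputable def WW (s : Sp) : Env := envm s.1

/-- walk on the reference space -/
noncomputable def XX (n : ℕ) (s : Sp) : ℤ := wX (arr s) n

lemma measurable_WW : Measurable WW := measurable_envm.comp measurable_fst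

lemma measurable_XX (n : ℕ) : Measurable (XX n) := (measurable_walk n).1.comp measurable_arr

lemma earlier_XX (s : Sp) (n : ℕ) : earlier (fun k => XX k s) n = wV (arr s) n (XX n s) :=
  (wV_eq_card (arr s) n (XX n s)).symm

/-- present site and number of earlier visits -/
noncomputable def cc (n : ℕ) (s : Sp) : ℤ × ℕ := (XX n s, wV (arr s) n (XX n s))

lemma measurable_cc (n : ℕ) : Measurable (cc n) := by
  apply (measurable_XX n).prodMk
  exact meas_sel (measurable_XX n) (fun x => ((measurable_walk n).2 x).comp measurable_arr)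

lemma arr_upd2 (z : Z2) (U : ℤ → ℕ → ℝ) (x : ℤ) (i : ℕ) (t : ℝ) (y : ℤ) (j : ℕ)
    (h : ¬ (y = x ∧ j = i)) : arr (z, U) y j = arr (z, upd2 U x i t) y j := by
  have e : upd2 U x i t y j = U y j := by
    unfold upd2
    by_cases hy : y = x
    · subst hy
      have hj : j ≠ i := fun h' => h ⟨rfl, h'⟩
      rw [Function.update_self, Function.update_of_ne hj]
    · rw [Function.update_of_ne hy]
  show decide (U y j < stack (z + (y : Z2)) j)
    = decide (upd2 U x i t y j < stack (z + (y : Z2)) j)
  rw [e]

lemma resample_mem {n : ℕ} {B : Set (Env × (Fin (n + 1) → ℤ))} {z : Z2} {U U' : ℤ → ℕ → ℝ} {x : ℤ}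
    {i : ℕ} (hUU : ∀ y j, ¬ (y = x ∧ j = i) → arr (z, U) y j = arr (z, U') y j)
    (h : (z, U) ∈ cc n ⁻¹' {(x, i)} ∩ histMap WW XX n ⁻¹' B) :
    (z, U') ∈ cc n ⁻¹' {(x, i)} ∩ histMap WW XX n ⁻¹' B := by
  obtain ⟨h1, h2⟩ := h
  have h3 : XX n (z, U) = x := congrArg Prod.fst h1
  have h4 : wV (arr (z, U)) n (XX n (z, U)) = i := congrArg Prod.snd h1
  rw [h3] at h4
  have e : ∀ m ≤ n, st (arr (z, U)) m = st (arr (z, U')) m := by
    intro m hm
    apply st_congr hUU
    have := wV_mono (arr (z, U)) x hm
    simp only at this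
    omega
  have eX : ∀ m ≤ n, XX m (z, U) = XX m (z, U') := fun m hm => congrArg Prod.fst (e m hm)
  have eV : wV (arr (z, U)) n = wV (arr (z, U')) n := congrArg Prod.snd (e n le_rfl)
  constructor
  · show (XX n (z, U'), wV (arr (z, U')) n (XX n (z, U'))) = (x, i)
    rw [← eX n le_rfl, ← eV, h3, h4]
  · have e3 : histMap WW XX n (z, U') = histMap WW XX n (z, U) := by
      unfold histMap
      congr 1
      funext j
      exact (eX j (by omega)).symm
    rw [mem_preimage, e3]
    exact h2

lemma one_step (n : ℕ) {B : Set (Env × (Fin (n + 1) → ℤ))} (hB : MeasurableSet B) :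
    PP (histMap WW XX n ⁻¹' B ∩ Rt XX n)
      = ∫⁻ s in histMap WW XX n ⁻¹' B,
          ENNReal.ofReal (WW s (XX n s) (earlier (fun k => XX k s) n) : ℝ) ∂PP := by
  have hHm := measurable_histMap measurable_WW measurable_XX n
  have hH : MeasurableSet (histMap WW XX n ⁻¹' B) := hHm hB
  have hRt := measurableSet_Rt measurable_XX n
  have hc : ∀ p : ℤ × ℕ, MeasurableSet (cc n ⁻¹' {p}) :=
    fun p => measurable_cc n (measurableSet_singleton p)
  have hdisj : Pairwise (Function.onFun Disjoint fun p : ℤ × ℕ =>
      cc n ⁻¹' {p} ∩ histMap WW XX n ⁻¹' B) := by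
    intro p q hpq
    rw [Function.onFun, Set.disjoint_left]
    rintro s ⟨h1, _⟩ ⟨h2, _⟩
    exact hpq (h1.symm.trans h2)
  have hUn : (⋃ p : ℤ × ℕ, cc n ⁻¹' {p} ∩ histMap WW XX n ⁻¹' B) = histMap WW XX n ⁻¹' B := by
    ext s
    simp only [mem_iUnion, mem_inter_iff]
    constructor
    · rintro ⟨p, _, h⟩; exact h
    · intro h; exact ⟨cc n s, rfl, h⟩
  have e1 : PP (histMap WW XX n ⁻¹' B ∩ Rt XX n)
      = ∑' p : ℤ × ℕ, ∫⁻ s in cc n ⁻¹' {p} ∩ histMap WW XX n ⁻¹' B,
          (Rt XX n).indicator 1 s ∂PP := by
    rw [← lintegral_iUnion (fun p => (hc p).inter hH) hdisj, hUn, lintegral_indicator_one hRt,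
      Measure.restrict_apply hRt, inter_comm]
  have e2 : ∫⁻ s in histMap WW XX n ⁻¹' B,
          ENNReal.ofReal (WW s (XX n s) (earlier (fun k => XX k s) n) : ℝ) ∂PP
      = ∑' p : ℤ × ℕ, ∫⁻ s in cc n ⁻¹' {p} ∩ histMap WW XX n ⁻¹' B,
          ENNReal.ofReal (WW s (XX n s) (earlier (fun k => XX k s) n) : ℝ) ∂PP := by
    rw [← lintegral_iUnion (fun p => (hc p).inter hH) hdisj, hUn]
  rw [e1, e2]
  congr 1
  funext p
  obtain ⟨x, i⟩ := p
  set C : Set Sp := cc n ⁻¹' {(x, i)} ∩ histMap WW XX n ⁻¹' B with hC
  have hCm : MeasurableSet C := (hc (x, i)).inter hH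
  have hwm : Measurable (fun z : Z2 => stack (z + (x : Z2)) i) :=
    (measurable_stack i).comp (measurable_id.add_const _)
  have hTm : MeasurableSet {s : Sp | s.2 x i < stack (s.1 + (x : Z2)) i} := by
    apply measurableSet_lt
    · exact (measurable_pi_apply i).comp ((measurable_pi_apply x).comp measurable_snd)
    · exact hwm.comp measurable_fst
  -- on `C` the next step is decided by the arrow `(x, i)`
  have e3 : ∫⁻ s in C, (Rt XX n).indicator 1 s ∂PP
      = ∫⁻ s, C.indicator 1 s * ({s : Sp | s.2 x i < stack (s.1 + (x : Z2)) i}).indicator 1 s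
          ∂PP := by
    rw [← lintegral_indicator hCm]
    apply lintegral_congr
    intro s
    by_cases hs : s ∈ C
    · rw [indicator_of_mem hs, indicator_of_mem hs, Pi.one_apply, one_mul]
      have h1 : cc n s = (x, i) := hs.1
      have h3 : XX n s = x := congrArg Prod.fst h1
      have h4 : wV (arr s) n (XX n s) = i := congrArg Prod.snd h1
      have h5 : s ∈ Rt XX n ↔ s ∈ {s : Sp | s.2 x i < stack (s.1 + (x : Z2)) i} := by
        show XX (n + 1) s = XX n s + 1 ↔ s.2 x i < stack (s.1 + (x : Z2)) i
        have h6 : XX (n + 1) s = if arr s (XX n s) (wV (arr s) n (XX n s)) = true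
            then XX n s + 1 else XX n s - 1 := wX_succ (arr s) n
        rw [h6, h4, h3]
        have h7 : arr s x i = true ↔ s.2 x i < stack (s.1 + (x : Z2)) i := by
          unfold arr coin
          rw [decide_eq_true_eq]
        rw [← h7]
        split_ifs with h8
        · simp [h8]
        · constructor
          · intro h9; omega
          · intro h9; exact absurd h9 h8
      by_cases h6 : s ∈ Rt XX n
      · rw [indicator_of_mem h6, indicator_of_mem (h5.mp h6)]
      · rw [indicator_of_notMem h6, indicator_of_notMem (fun h7 => h6 (h5.mpr h7))]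
    · rw [indicator_of_notMem hs, indicator_of_notMem hs, zero_mul]
  have e4 : ∫⁻ s in C, ENNReal.ofReal (WW s (XX n s) (earlier (fun k => XX k s) n) : ℝ) ∂PP
      = ∫⁻ s, C.indicator 1 s * ENNReal.ofReal (stack (s.1 + (x : Z2)) i) ∂PP := by
    rw [← lintegral_indicator hCm]
    apply lintegral_congr
    intro s
    by_cases hs : s ∈ C
    · rw [indicator_of_mem hs, indicator_of_mem hs, Pi.one_apply, one_mul]
      have h1 : cc n s = (x, i) := hs.1
      have h3 : XX n s = x := congrArg Prod.fst h1
      have h4 : wV (arr s) n (XX n s) = i := congrArg Prod.snd h1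
      rw [earlier_XX, h4, h3]
      rfl
    · rw [indicator_of_notMem hs, indicator_of_notMem hs, zero_mul]
  rw [e3, e4]
  have hCi : Measurable (C.indicator (1 : Sp → ℝ≥0∞)) := measurable_one.indicator hCm
  have hTi : Measurable (({s : Sp | s.2 x i < stack (s.1 + (x : Z2)) i}).indicator
      (1 : Sp → ℝ≥0∞)) := measurable_one.indicator hTm
  have hOi : Measurable (fun s : Sp => ENNReal.ofReal (stack (s.1 + (x : Z2)) i)) :=
    (hwm.comp measurable_fst).ennreal_ofReal
  unfold PP
  rw [lintegral_prod (fun s : Sp => C.indicator 1 s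
      * ({s : Sp | s.2 x i < stack (s.1 + (x : Z2)) i}).indicator 1 s) (hCi.mul hTi).aemeasurable,
    lintegral_prod (fun s : Sp => C.indicator 1 s * ENNReal.ofReal (stack (s.1 + (x : Z2)) i))
      (hCi.mul hOi).aemeasurable]
  apply lintegral_congr
  intro z
  have hsec : Measurable (fun U : ℤ → ℕ → ℝ => ((z, U) : Sp)) :=
    measurable_const.prodMk measurable_id
  rw [lintegral_upd2 x i (f := fun U => C.indicator 1 (z, U)
      * ({s : Sp | s.2 x i < stack (s.1 + (x : Z2)) i}).indicator 1 (z, U))
      ((hCi.mul hTi).comp hsec)]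
  apply lintegral_congr
  intro U
  have hCeq : ∀ t, C.indicator (1 : Sp → ℝ≥0∞) (z, upd2 U x i t) = C.indicator 1 (z, U) := by
    intro t
    by_cases h : (z, U) ∈ C
    · rw [indicator_of_mem h, indicator_of_mem]
      · rfl
      · exact resample_mem (fun y j hyj => arr_upd2 z U x i t y j hyj) h
    · rw [indicator_of_notMem h, indicator_of_notMem]
      intro h'
      apply h
      exact resample_mem (fun y j hyj => (arr_upd2 z U x i t y j hyj).symm) h'
  have hTeq : ∀ t, ({s : Sp | s.2 x i < stack (s.1 + (x : Z2)) i}).indicator (1 : Sp → ℝ≥0∞)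
      (z, upd2 U x i t) = ({t : ℝ | t < stack (z + (x : Z2)) i}).indicator 1 t := by
    intro t
    have h1 : (z, upd2 U x i t).2 x i = t := by
      unfold upd2
      simp only
      rw [Function.update_self, Function.update_self]
    by_cases h : t < stack (z + (x : Z2)) i
    · rw [indicator_of_mem (show t ∈ {t : ℝ | t < stack (z + (x : Z2)) i} from h),
        indicator_of_mem]
      · rfl
      · show (z, upd2 U x i t).2 x i < stack (z + (x : Z2)) i
        rw [h1]; exact h
    · rw [indicator_of_notMem (show t ∉ {t : ℝ | t < stack (z + (x : Z2)) i} from h),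
        indicator_of_notMem]
      show ¬ (z, upd2 U x i t).2 x i < stack (z + (x : Z2)) i
      rw [h1]; exact h
  show ∫⁻ t, C.indicator (1 : Sp → ℝ≥0∞) (z, upd2 U x i t)
      * ({s : Sp | s.2 x i < stack (s.1 + (x : Z2)) i}).indicator (1 : Sp → ℝ≥0∞)
        (z, upd2 U x i t) ∂lam = _
  simp_rw [hCeq, hTeq]
  rw [lintegral_const_mul _ (measurable_one.indicator (msLt _)), lintegral_indicator_one (msLt _),
    lam_lt ((stk_stack _).nonneg i) ((stk_stack _).le_one i)]

/-- the arrow walk is an excited random walk in the odometer environment -/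
theorem isERW_arrow : IsERW PE PP WW XX where
  prob := inferInstance
  meas_env := measurable_WW
  meas_walk := measurable_XX
  env_law := by
    have h1 : PP.map Prod.fst = hz := by
      unfold PP
      rw [Measure.map_fst_prod, measure_univ, one_smul]
    unfold PE
    rw [← h1, Measure.map_map measurable_envm measurable_fst]
    rfl
  start := Filter.Eventually.of_forall fun s => rfl
  step := by
    apply Filter.Eventually.of_forall
    intro s n
    have h6 : XX (n + 1) s = if arr s (XX n s) (wV (arr s) n (XX n s)) = true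
            then XX n s + 1 else XX n s - 1 := wX_succ (arr s) n
    rw [h6]
    split_ifs
    · exact Or.inl rfl
    · exact Or.inr rfl
  cond := by
    intro n
    have hle := hist_le measurable_WW measurable_XX n
    have hHm := measurable_histMap measurable_WW measurable_XX n
    have hRt := measurableSet_Rt measurable_XX n
    have hg : Measurable[hist WW XX n]
        (fun s => (WW s (XX n s) (earlier (fun k => XX k s) n) : ℝ)) := by
      have h1 : (fun s => (WW s (XX n s) (earlier (fun k => XX k s) n) : ℝ))
          = fun s => gtl n (histMap WW XX n s) := by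
        funext s
        rw [gtl_hist]
      rw [h1]
      exact (measurable_gtl n).comp (comap_measurable (histMap WW XX n))
    have hgm := hg.mono hle le_rfl
    have hgi : Integrable (fun s => (WW s (XX n s) (earlier (fun k => XX k s) n) : ℝ)) PP := by
      apply Integrable.of_bound (C := 1) hgm.aestronglyMeasurable
      filter_upwards with o
      rw [Real.norm_of_nonneg (WW o _ _).2.1]
      exact (WW o _ _).2.2
    symm
    apply ae_eq_condExp_of_forall_setIntegral_eq hle
    · exact (integrable_const 1).indicator hRt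
    · intro s _ _
      exact hgi.integrableOn
    · intro s hs _
      obtain ⟨B, hB, rfl⟩ := hs
      have h1 := one_step n hB
      have h2 : ∫ s in histMap WW XX n ⁻¹' B,
          (WW s (XX n s) (earlier (fun k => XX k s) n) : ℝ) ∂PP
          = (∫⁻ s in histMap WW XX n ⁻¹' B,
              ENNReal.ofReal (WW s (XX n s) (earlier (fun k => XX k s) n) : ℝ) ∂PP).toReal := by
        apply integral_eq_lintegral_of_nonneg_ae
        · filter_upwards with o
          exact (WW o _ _).2.1
        · exact hgm.aestronglyMeasurable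
      rw [h2, ← h1]
      show _ = ∫ s in histMap WW XX n ⁻¹' B, (Rt XX n).indicator (fun _ => (1:ℝ)) s ∂PP
      rw [integral_indicator hRt, Measure.restrict_restrict hRt]
      simp only [integral_const, smul_eq_mul, mul_one, MeasurableSet.univ,
        measureReal_restrict_apply, univ_inter]
      rw [inter_comm]
      rfl
    · exact hg.aestronglyMeasurable

end Pool.Agent.H87.Cookie
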