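import Mathlib
import Pool.Agent.H87.Cookie.Arrow

open MeasureTheory ProbabilityTheory Filter Topology Set
open scoped ENNReal

namespace Pool.Agent.H87.Cookie

/-! ### deterministic: the walk cannot stay in a bounded region -/

lemma wR_le_next (a : Arr) (x : ℤ) (n : ℕ) :
    wR a n x ≤ wV a n (x + 1) + if wX a n = x + 1 then 1 else 0 := by
  induction n with
  | zero =>
    have : wR a 0 x = 0 := rfl
    rw [this]
    exact Nat.zero_le _
  | succ n ih =>
    rw [wR_succ, wV_succ, wX_succ]
    by_cases h1 : x = wX a n ∧ a x (wV a n x) = true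
    · obtain ⟨h2, h3⟩ := h1
      rw [if_pos ⟨h2, h3⟩, if_neg (show ¬ (x + 1 = wX a n) by omega)]
      rw [← h2, if_pos h3, if_pos rfl]
      rw [if_neg (show ¬ (wX a n = x + 1) by omega)] at ih
      omega
    · rw [if_neg h1]
      by_cases h2 : wX a n = x + 1
      · rw [if_pos h2] at ih
        rw [if_pos h2.symm]
        omega
      · rw [if_neg h2] at ih
        rw [if_neg (fun h3 => h2 h3.symm)]
        omega

lemma wR_le_next' (a : Arr) (x : ℤ) (n : ℕ) : wR a n x ≤ wV a (n + 1) (x + 1) := by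
  have h := wR_le_next a x n
  rw [wV_succ]
  split_ifs at h ⊢ <;> omega

/-- a site with unboundedly many visits passes this property to the right -/
lemma unbdd_next {a : Arr} (hI : ∀ x, Infy (a x)) {x : ℤ} (h : ∀ m, ∃ n, m ≤ wV a n x) :
    ∀ m, ∃ n, m ≤ wV a n (x + 1) := by
  intro m
  obtain ⟨k, hk⟩ := hI x m
  obtain ⟨n, hn⟩ := h k
  refine ⟨n + 1, ?_⟩
  have h1 : cnt (a x) k ≤ wR a n x := cnt_mono (a x) hn
  have h2 := wR_le_next' a x n
  omega

lemma unbdd_all {a : Arr} (hI : ∀ x, Infy (a x)) {x : ℤ} (h : ∀ m, ∃ n, m ≤ wV a n x) (j : ℕ) :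
    ∀ m, ∃ n, m ≤ wV a n (x + j) := by
  induction j with
  | zero => simpa using h
  | succ j ih =>
    have e : x + ((j + 1 : ℕ) : ℤ) = x + j + 1 := by push_cast; ring
    rw [e]
    exact unbdd_next hI ih

lemma sum_wV (a : Arr) (F : Finset ℤ) (n : ℕ) (hF : ∀ j < n, wX a j ∈ F) :
    ∑ x ∈ F, wV a n x = n := by
  induction n with
  | zero => simp [wV_zero]
  | succ n ih =>
    have h1 : ∀ x ∈ F, wV a (n + 1) x = wV a n x + if x = wX a n then 1 else 0 := by
      intro x _
      rw [wV_succ]
      split_ifs <;> omega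
    rw [Finset.sum_congr rfl h1, Finset.sum_add_distrib, ih (fun j hj => hF j (by omega)),
      Finset.sum_ite_eq' F (wX a n), if_pos (hF n (by omega))]

lemma reach_left {a : Arr} (hI : ∀ x, Infy (a x)) {K : ℤ} (hK : ∀ n, wX a n < K) (L : ℤ) :
    ∃ n, wX a n ≤ L := by
  classical
  by_contra hcon
  push Not at hcon
  -- every site has boundedly many visits
  have hb : ∀ x ∈ Finset.Ioo L K, ∃ B, ∀ n, wV a n x ≤ B := by
    intro x hx
    rw [Finset.mem_Ioo] at hx
    by_contra h
    push Not at h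
    have h1 : ∀ m, ∃ n, m ≤ wV a n x := fun m => by
      obtain ⟨n, hn⟩ := h m
      exact ⟨n, hn.le⟩
    obtain ⟨j, hj⟩ : ∃ j : ℕ, x + j = K := ⟨(K - x).toNat, by
      rw [Int.toNat_of_nonneg (by omega)]; ring⟩
    have h2 := unbdd_all hI h1 j 1
    rw [hj] at h2
    obtain ⟨n, hn⟩ := h2
    have h3 : wV a n K = 0 := by
      rw [wV_eq_card, Finset.card_eq_zero, Finset.filter_eq_empty_iff]
      intro s _
      have := hK s
      omega
    omega
  choose! B hB using hb
  have h1 := sum_wV a (Finset.Ioo L K) (∑ x ∈ Finset.Ioo L K, B x + 1)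
    (fun j _ => Finset.mem_Ioo.mpr ⟨hcon j, hK j⟩)
  have h2 : ∑ x ∈ Finset.Ioo L K, wV a (∑ x ∈ Finset.Ioo L K, B x + 1) x
      ≤ ∑ x ∈ Finset.Ioo L K, B x := Finset.sum_le_sum fun x hx => hB x hx _
  omega

/-! ### almost surely every positive level is reached -/

lemma prefix_nonneg (z : Z2) (k : ℕ) : 0 ≤ ∑ i ∈ Finset.range k, (2 * stack z i - 1) := by
  have hs := stk_stack z
  have hd := stack_drift z
  have hb := bz_le z
  have h0 : 0 ≤ 2 * stack z 0 - 1 := by
    by_cases h : z ∈ good
    · rw [stack_good h, if_pos (by omega)]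
      linarith
    · rw [stack_bad_zero h]
      norm_num
  match k with
  | 0 => simp
  | 1 => simpa using h0
  | k + 2 =>
    induction k with
    | zero =>
      rw [Finset.sum_range_succ, Finset.sum_range_succ, Finset.sum_range_zero]
      linarith
    | succ k ih =>
      rw [Finset.sum_range_succ, hs.half (k + 2) (by omega)]
      linarith

lemma measurable_cookie (x : ℤ) (i : ℕ) : Measurable (fun ω : Env => (ω x i : ℝ)) :=
  measurable_subtype_coe.comp ((measurable_pi_apply i).comp (measurable_pi_apply x))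

lemma ae_prefix : ∀ᵐ ω ∂PE, ∀ (x : ℤ) (k : ℕ), 0 ≤ ∑ i ∈ Finset.range k, (2 * (ω x i : ℝ) - 1) := by
  rw [ae_all_iff]
  intro x
  rw [ae_all_iff]
  intro k
  unfold PE
  rw [ae_map_iff measurable_envm.aemeasurable]
  · filter_upwards with z
    exact prefix_nonneg (z + (x : Z2)) k
  · apply measurableSet_le measurable_const
    apply Finset.measurable_fun_sum
    intro i _
    exact ((measurable_cookie x i).const_mul 2).sub_const 1

lemma Eev_mono {Ω : Type*} (X : ℕ → Ω → ℤ) (L K : ℤ) : Monotone (Eev X L K) := by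
  intro N N' h o ho
  obtain ⟨m, hm, h1, h2⟩ := ho
  exact ⟨m, hm.trans h, h1, h2⟩

lemma never_zero (K : ℕ) (hK : 1 ≤ K) : PP {s | ∀ n, XX n s < K} = 0 := by
  set F : Set Sp := {s | ∀ n, XX n s < K} with hF
  have key : ∀ l : ℕ, ((K : ℝ) + (l + 1)) * PP.real F ≤ K := by
    intro l
    have h1 : PP.real F ≤ PP.real (⋃ N, Eev XX (-(l + 1 : ℤ)) K N) := by
      have hle : F ≤ᵐ[PP] (⋃ N, Eev XX (-(l + 1 : ℤ)) K N) := by
        filter_upwards [ae_arr_infy] with s hs
        intro hsF
        have hsF' : ∀ n, XX n s < K := hsF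
        obtain ⟨n, hn⟩ := reach_left hs (K := K) hsF' (-(l + 1 : ℤ))
        show s ∈ ⋃ N, Eev XX (-(l + 1 : ℤ)) K N
        rw [mem_iUnion]
        exact ⟨n, n, le_rfl, hn, fun j _ => hsF' j⟩
      rw [measureReal_def, measureReal_def]
      exact ENNReal.toReal_mono (measure_ne_top _ _) (measure_mono_ae hle)
    have h2 : ∀ N, ((K : ℝ) + (l + 1)) * PP.real (Eev XX (-(l + 1 : ℤ)) K N) ≤ K := by
      intro N
      have h3 := isERW_arrow.exit_bound ae_prefix (L := -(l + 1 : ℤ)) (K := K) (by omega)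
        (by omega) N
      push_cast at h3
      have e : (K : ℝ) - -((l : ℝ) + 1) = K + (l + 1) := by ring
      rw [e] at h3
      exact h3
    have h4 : Tendsto (fun N => PP.real (Eev XX (-(l + 1 : ℤ)) K N)) atTop
        (𝓝 (PP.real (⋃ N, Eev XX (-(l + 1 : ℤ)) K N))) := by
      have h5 := tendsto_measure_iUnion_atTop (μ := PP) (Eev_mono XX (-(l + 1 : ℤ)) K)
      exact (ENNReal.tendsto_toReal (measure_ne_top _ _)).comp h5
    have h6 : ((K : ℝ) + (l + 1)) * PP.real (⋃ N, Eev XX (-(l + 1 : ℤ)) K N) ≤ K :=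
      le_of_tendsto (h4.const_mul _) (Filter.Eventually.of_forall h2)
    have h7 : (0:ℝ) ≤ (K : ℝ) + (l + 1) := by positivity
    calc ((K : ℝ) + (l + 1)) * PP.real F ≤ ((K : ℝ) + (l + 1)) * PP.real (⋃ N, Eev XX (-(l + 1 : ℤ)) K N) :=
          mul_le_mul_of_nonneg_left h1 h7
      _ ≤ K := h6
  have h0 : PP.real F = 0 := by
    by_contra hne
    have hpos : 0 < PP.real F := lt_of_le_of_ne measureReal_nonneg (Ne.symm hne)
    obtain ⟨l, hl⟩ := exists_nat_gt ((K : ℝ) / PP.real F)
    rw [div_lt_iff₀ hpos] at hl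
    have h1 := key l
    have hK0 : (0:ℝ) ≤ K := Nat.cast_nonneg K
    nlinarith
  rw [measureReal_def, ENNReal.toReal_eq_zero_iff] at h0
  rcases h0 with h0 | h0
  · exact h0
  · exact absurd h0 (measure_ne_top _ _)

lemma exists_hit (a : Arr) {K : ℕ} (h : ∃ n, (K : ℤ) ≤ wX a n) : ∃ n, wX a n = K := by
  classical
  refine ⟨Nat.find h, ?_⟩
  have h1 := Nat.find_spec h
  have h2 : ∀ m < Nat.find h, ¬ (K : ℤ) ≤ wX a m := fun m hm => Nat.find_min h hm
  set n := Nat.find h with hn
  match n, h1, h2 with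
  | 0, h1, _ =>
    rw [wX_zero] at h1 ⊢
    omega
  | n + 1, h1, h2 =>
    have h3 := h2 n (by omega)
    rw [wX_succ] at h1 ⊢
    split_ifs at h1 ⊢ <;> omega

lemma ae_hit : ∀ᵐ s ∂PP, ∀ K : ℕ, ∃ n, wX (arr s) n = K := by
  rw [ae_all_iff]
  intro K
  rcases Nat.eq_zero_or_pos K with hK | hK
  · subst hK
    filter_upwards with s
    exact ⟨0, rfl⟩
  · have h := never_zero K hK
    have h2 : ∀ᵐ s ∂PP, ¬ ∀ n, XX n s < K := measure_eq_zero_iff_ae_notMem.mp h
    filter_upwards [h2] with s hs
    apply exists_hit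
    by_contra hcon
    push Not at hcon
    exact hs hcon

/-- the arrow walk is transient to the right -/
theorem arrow_transient : ∀ᵐ s ∂PP, Tendsto (fun n => XX n s) atTop atTop := by
  filter_upwards [ae_hit, ae_finite] with s h1 h2
  exact tendsto_of_kb (arr s) h1 h2

/-- every excited random walk in the odometer environment is transient to the right -/
theorem erw_transient {Ω : Type*} [MeasurableSpace Ω] {Q : Measure Ω} {W : Ω → Env}
    {X : ℕ → Ω → ℤ} (h : IsERW PE Q W X) : ∀ᵐ o ∂Q, Tendsto (fun n => X n o) atTop atTop := by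
  have h1 := path_law_unique h isERW_arrow
  have hm : Measurable (fun o k => X k o) := measurable_pi_lambda _ h.meas_walk
  have hm' : Measurable (fun (s : Sp) k => XX k s) := measurable_pi_lambda _ measurable_XX
  have hS : MeasurableSet {x : ℕ → ℤ | Tendsto (fun n => x n) atTop atTop} :=
    measurableSet_tendsto atTop (f := fun (n : ℕ) (x : ℕ → ℤ) => x n)
      (fun n => measurable_pi_apply n)
  have h2 : ∀ᵐ x ∂(PP.map (fun (s : Sp) k => XX k s)), Tendsto (fun n => x n) atTop atTop := by
    rw [ae_map_iff hm'.aemeasurable hS]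
    exact arrow_transient
  rw [← h1] at h2
  exact ae_of_ae_map hm.aemeasurable h2

/-! ### the environment -/

lemma se_PE : SE PE := by
  have hg : MeasurePreserving envm hz PE := ⟨measurable_envm, rfl⟩
  have hsh : Measurable shiftEnv := by
    apply measurable_pi_lambda
    intro x
    exact measurable_pi_apply (x + 1)
  apply hg.ergodic_of_ergodic_semiconj ergodic_one hsh
  intro z
  funext x i
  apply Subtype.ext
  show stack (1 + z + (x : Z2)) i = stack (z + ((x + 1 : ℤ) : Z2)) i
  congr 1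
  push_cast
  ring

lemma wel_PE : WEL PE := by
  intro x
  have hgood : hz ((fun z : Z2 => z + (x : Z2)) ⁻¹' good) = hz good :=
    measure_preimage_add_right hz (x : Z2) good
  have hpos : 0 < hz ((fun z : Z2 => z + (x : Z2)) ⁻¹' good) := by
    rw [hgood]; exact hz_good_pos
  constructor
  · refine lt_of_lt_of_le hpos ?_
    refine le_trans (measure_mono ?_) (Measure.le_map_apply measurable_envm.aemeasurable _)
    intro z hz i
    exact stack_good_pos hz i
  · refine lt_of_lt_of_le hpos ?_
    refine le_trans (measure_mono ?_) (Measure.le_map_apply measurable_envm.aemeasurable _)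
    intro z hz i
    exact stack_good_lt hz i

lemma bd_PE' : ∀ᵐ ω ∂PE, ∀ x : ℤ, ∀ i : ℕ, 2 ≤ i → (ω x i : ℝ) = 1 / 2 := by
  rw [ae_all_iff]
  intro x
  rw [ae_all_iff]
  intro i
  unfold PE
  rw [ae_map_iff measurable_envm.aemeasurable]
  · filter_upwards with z
    intro hi
    exact (stk_stack (z + (x : Z2))).half i hi
  · by_cases hi : 2 ≤ i
    · simp only [hi, forall_const]
      exact measurableSet_eq_fun (measurable_cookie x i) measurable_const
    · simp only [hi, false_imp_iff]
      exact MeasurableSet.univ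

lemma bd_PE : BD PE := ⟨2, bd_PE'⟩

lemma delta_PE : delta PE = 1 := by
  unfold delta
  have h1 : (fun ω : Env => ∑' i : ℕ, (2 * (ω 0 i : ℝ) - 1))
      =ᵐ[PE] fun ω : Env => (2 * (ω 0 0 : ℝ) - 1) + (2 * (ω 0 1 : ℝ) - 1) := by
    filter_upwards [bd_PE'] with ω hω
    rw [tsum_eq_sum (s := Finset.range 2)]
    · rw [Finset.sum_range_succ, Finset.sum_range_succ, Finset.sum_range_zero, zero_add]
    · intro i hi
      rw [Finset.mem_range, not_lt] at hi
      rw [hω 0 i hi]
      norm_num
  rw [integral_congr_ae h1]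
  have hm : Measurable (fun ω : Env => (2 * (ω 0 0 : ℝ) - 1) + (2 * (ω 0 1 : ℝ) - 1)) :=
    (((measurable_cookie 0 0).const_mul 2).sub_const 1).add
      (((measurable_cookie 0 1).const_mul 2).sub_const 1)
  unfold PE
  rw [integral_map measurable_envm.aemeasurable hm.aestronglyMeasurable]
  have h2 : ∀ z, (2 * (envm z 0 0 : ℝ) - 1) + (2 * (envm z 0 1 : ℝ) - 1) = 1 - bz z := by
    intro z
    have h3 := stack_drift z
    have h4 : (envm z 0 0 : ℝ) = stack z 0 := by
      show stack (z + ((0:ℤ) : Z2)) 0 = stack z 0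
      congr 1
      push_cast
      ring
    have h5 : (envm z 0 1 : ℝ) = stack z 1 := by
      show stack (z + ((0:ℤ) : Z2)) 1 = stack z 1
      congr 1
      push_cast
      ring
    rw [h4, h5]
    linarith
  simp_rw [h2]
  have hI : Integrable bz hz := by
    apply Integrable.of_bound (C := 1) measurable_bz.aestronglyMeasurable
    filter_upwards with z
    rw [Real.norm_eq_abs, abs_le]
    have := bz_ge z
    have := bz_le z
    constructor <;> linarith
  rw [integral_sub (integrable_const _) hI, integral_bz]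
  simp

end Pool.Agent.H87.Cookie
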